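import Pool.Agent.Lib.MP_58f141_lc.Defs

/-! # Chained multicoloured clique -/

namespace Pool.Agent.Lib.MP_58f141_lc

open Turing

/-- An instance of Chained Multicoloured Clique: a graph on `{0, …, n - 1}` whose vertices have
levels and colours, the number `r` of levels and the number `K` of colours. We assume `r ≤ n` and
`K ≤ n`: isolated vertices of levels other than `0, …, r - 1` may be added freely. -/
structure ChainedClique where
  n : ℕ
  G : SimpleGraph (Fin n)
  r : ℕ
  K : ℕ
  level : Fin n → ℕ
  colour : Fin n → ℕ
  r_le : r ≤ n
  K_le : K ≤ n

/-- One can choose a vertex `w i c` of level `i` and colour `c` for all `i < r` and `c < K` such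
that any two different chosen vertices on the same level or on consecutive levels are adjacent. -/
def ChainedClique.Yes (I : ChainedClique) : Prop :=
  ∃ w : Fin I.r → Fin I.K → Fin I.n,
    (∀ i c, I.level (w i c) = i.val ∧ I.colour (w i c) = c.val) ∧
    ∀ i c i' c', (i, c) ≠ (i', c') → i.val ≤ i'.val + 1 → i'.val ≤ i.val + 1 →
      I.G.Adj (w i c) (w i' c')

/-- Letters of the words describing instances. -/
inductive GLetter
  | vertex
  | level
  | colour
  | adj (b : Bool)
  | lev (b : Bool)
  | col (b : Bool)
  deriving DecidableEq, Fintype

open Classical in
/-- The word of an instance: `n`, `r`, `K` in unary, the adjacency matrix, the matrix telling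
which vertex has which level, and the same for colours. -/
noncomputable def ChainedClique.word (I : ChainedClique) : List GLetter :=
  List.replicate I.n .vertex ++ List.replicate I.r .level ++ List.replicate I.K .colour ++
    ((List.finRange I.n).flatMap fun v => (List.finRange I.n).map fun x =>
      .adj (decide (I.G.Adj v x))) ++
    ((List.finRange I.n).flatMap fun v => (List.finRange I.n).map fun x =>
      .lev (decide (I.level v = x.val))) ++
    (List.finRange I.n).flatMap fun v => (List.finRange I.n).map fun x =>
      .col (decide (I.colour v = x.val))

end Pool.Agent.Lib.MP_58f141_lc
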