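import Pool.Agent.Lib.MP_58f141_lc.Defs
import Pool.Agent.Lib.PolyTM.Comp

/-! # FPT reductions compose -/

namespace Pool.Agent.Lib.MP_58f141_lc

set_option linter.unusedSimpArgs false
set_option linter.unusedVariables false

open Pool.Agent.Lib.PolyTM (Outputs comp_outputs)

theorem halts_iff {α β : Type} (M : Turing.TM2ComputableAux α β) (w : List α) (w' : List β)
    (T : ℕ) : Halts M w w' T ↔ Outputs M w w' T := Iff.rfl

/-- Sum of the values up to `m`. -/
def upto (f : ℕ → ℕ) (m : ℕ) : ℕ := Nat.rec (f 0) (fun j acc => acc + f (j + 1)) m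

theorem le_upto (f : ℕ → ℕ) {j m : ℕ} (h : j ≤ m) : f j ≤ upto f m := by
  induction m with
  | zero =>
    have : j = 0 := by omega
    subst this
    exact le_rfl
  | succ m ih =>
    change f j ≤ upto f m + f (m + 1)
    rcases Nat.eq_or_lt_of_le h with rfl | h
    · omega
    · have := ih (by omega)
      omega

theorem computable_upto {f : ℕ → ℕ} (hf : Computable f) : Computable (upto f) := by
  have h1 : Computable₂ (fun (_ : ℕ) (p : ℕ × ℕ) => p.2 + f (p.1 + 1)) := by
    have h2 : Computable (fun q : ℕ × (ℕ × ℕ) => q.2.2) := Computable.snd.comp Computable.snd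
    have h3 : Computable (fun q : ℕ × (ℕ × ℕ) => f (q.2.1 + 1)) :=
      hf.comp (Computable.succ.comp (Computable.fst.comp Computable.snd))
    exact (Primrec.nat_add.to_comp.comp h2 h3).to₂
  have := Computable.nat_rec (f := fun m : ℕ => m) (g := fun _ : ℕ => f 0) (h := fun _ p =>
    p.2 + f (p.1 + 1)) Computable.id (Computable.const (f 0)) h1
  exact this

theorem computable_add {f g : ℕ → ℕ} (hf : Computable f) (hg : Computable g) :
    Computable (fun k => f k + g k) := Primrec.nat_add.to_comp.comp hf hg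

theorem computable_mul {f g : ℕ → ℕ} (hf : Computable f) (hg : Computable g) :
    Computable (fun k => f k * g k) := Primrec.nat_mul.to_comp.comp hf hg

theorem computable_pow {f : ℕ → ℕ} (hf : Computable f) (c : ℕ) :
    Computable (fun k => f k ^ c) := by
  induction c with
  | zero => simpa using Computable.const 1
  | succ c ih => simpa only [pow_succ] using computable_mul ih hf

/-- **FPT reductions compose.** -/
theorem FPTReduces.trans {P Q R : ParamProblem} (h1 : FPTReduces P Q) (h2 : FPTReduces Q R) :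
    FPTReduces P R := by
  obtain ⟨M1, f1, g1, c1, fin1, hf1, hg1, k1⟩ := h1
  obtain ⟨M2, f2, g2, c2, fin2, hf2, hg2, k2⟩ := h2
  let _ : Finite Q.Letter := Q.finite
  let _ : Fintype Q.Letter := Fintype.ofFinite _
  let _ : Nonempty Q.Letter := Q.nonempty
  obtain ⟨M, hfin, hM⟩ := comp_outputs M1 M2
  obtain ⟨C, hC⟩ := Outputs.length_le M1
  refine ⟨M, fun k => f1 k + 2 * (1 + C * f1 k) + upto f2 (g1 k) * (1 + C * f1 k) ^ c2,
    fun k => upto g2 (g1 k), (c1 + 1) * c2 + c1 + 1, hfin fin1 fin2, ?_, ?_, fun x => ?_⟩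
  · have e1 : Computable (fun k => 1 + C * f1 k) :=
      computable_add (Computable.const 1) (computable_mul (Computable.const C) hf1)
    exact computable_add (computable_add hf1 (computable_mul (Computable.const 2) e1))
      (computable_mul ((computable_upto hf2).comp hg1) (computable_pow e1 c2))
  · exact (computable_upto hg2).comp hg1
  · obtain ⟨y, y1, y2, y3⟩ := k1 x
    obtain ⟨z, z1, z2, z3⟩ := k2 y
    refine ⟨z, ?_, z2.trans (le_upto g2 y2), y3.trans z3⟩
    obtain ⟨⟨a, b⟩⟩ := hM _ _ _ _ _ y1 z1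
    refine ⟨⟨a, b.trans ?_⟩⟩
    have hlen := hC _ _ _ y1
    set k := P.param x
    set n := (P.word x).length
    set w1 := (Q.word y).length
    set A := 1 + C * f1 k with hA
    have hn1 : 1 ≤ n + 1 := by omega
    -- the length of the intermediate word
    have b1 : w1 + 1 ≤ A * (n + 1) ^ (c1 + 1) := by
      have e1 : n + 1 ≤ (n + 1) ^ (c1 + 1) := Nat.le_self_pow (by omega) _
      have e2 : (n + 1) ^ c1 ≤ (n + 1) ^ (c1 + 1) := Nat.pow_le_pow_right hn1 (by omega)
      calc w1 + 1 ≤ (n + 1) + C * (f1 k * (n + 1) ^ c1) := by omega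
        _ ≤ (n + 1) ^ (c1 + 1) + C * (f1 k * (n + 1) ^ (c1 + 1)) :=
            Nat.add_le_add e1 (Nat.mul_le_mul_left _ (Nat.mul_le_mul_left _ e2))
        _ = A * (n + 1) ^ (c1 + 1) := by rw [hA]; ring
    have e3 : f1 k * (n + 1) ^ c1 ≤ f1 k * (n + 1) ^ ((c1 + 1) * c2 + c1 + 1) :=
      Nat.mul_le_mul_left _ (Nat.pow_le_pow_right hn1 (by omega))
    have e4 : 2 * (w1 + 1) ≤ 2 * A * (n + 1) ^ ((c1 + 1) * c2 + c1 + 1) := by
      have e5 : (n + 1) ^ (c1 + 1) ≤ (n + 1) ^ ((c1 + 1) * c2 + c1 + 1) :=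
        Nat.pow_le_pow_right hn1 (by omega)
      calc 2 * (w1 + 1) ≤ 2 * (A * (n + 1) ^ (c1 + 1)) := Nat.mul_le_mul_left _ b1
        _ ≤ 2 * (A * (n + 1) ^ ((c1 + 1) * c2 + c1 + 1)) :=
            Nat.mul_le_mul_left _ (Nat.mul_le_mul_left _ e5)
        _ = _ := by ring
    have e6 : f2 (Q.param y) * (w1 + 1) ^ c2 ≤
        upto f2 (g1 k) * A ^ c2 * (n + 1) ^ ((c1 + 1) * c2 + c1 + 1) := by
      calc f2 (Q.param y) * (w1 + 1) ^ c2 ≤
          upto f2 (g1 k) * (A * (n + 1) ^ (c1 + 1)) ^ c2 :=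
            Nat.mul_le_mul (le_upto f2 y2) (Nat.pow_le_pow_left b1 c2)
        _ = upto f2 (g1 k) * A ^ c2 * (n + 1) ^ ((c1 + 1) * c2) := by
            rw [mul_pow, ← pow_mul]; ring
        _ ≤ _ := Nat.mul_le_mul_left _ (Nat.pow_le_pow_right hn1 (by omega))
    calc f1 k * (n + 1) ^ c1 + 2 * (w1 + 1) + f2 (Q.param y) * (w1 + 1) ^ c2 ≤
        f1 k * (n + 1) ^ ((c1 + 1) * c2 + c1 + 1) +
          2 * A * (n + 1) ^ ((c1 + 1) * c2 + c1 + 1) +
          upto f2 (g1 k) * A ^ c2 * (n + 1) ^ ((c1 + 1) * c2 + c1 + 1) :=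
            Nat.add_le_add (Nat.add_le_add e3 e4) e6
      _ = (f1 k + 2 * A + upto f2 (g1 k) * A ^ c2) * (n + 1) ^ ((c1 + 1) * c2 + c1 + 1) := by
            ring

/-- A polynomial is bounded by a constant times a power. -/
theorem poly_le (p : Polynomial ℕ) : ∃ A c : ℕ, ∀ n : ℕ, p.eval n ≤ A * (n + 1) ^ c := by
  refine ⟨∑ i ∈ Finset.range (p.natDegree + 1), p.coeff i, p.natDegree, fun n => ?_⟩
  rw [Polynomial.eval_eq_sum_range, Finset.sum_mul]
  refine Finset.sum_le_sum fun i hi => Nat.mul_le_mul_left _ ?_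
  rw [Finset.mem_range] at hi
  calc n ^ i ≤ (n + 1) ^ i := Nat.pow_le_pow_left (by omega) i
    _ ≤ (n + 1) ^ p.natDegree := Nat.pow_le_pow_right (by omega) (by omega)

end Pool.Agent.Lib.MP_58f141_lc
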