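import Mathlib

/-!
# Parameterized problems, FPT reductions, the W-hierarchy and longest common subsequences

Machines are Mathlib's finite multi-stack machines (`Turing.FinTM2`).
-/

namespace Pool.Agent.Lib.MP_58f141_lc

open Turing

/-! ### Parameterized problems -/

/-- Started on the word `w`, the machine `M` halts with output `w'` after at most `T` steps. -/
def Halts {α β : Type} (M : TM2ComputableAux α β) (w : List α) (w' : List β) (T : ℕ) : Prop :=
  Nonempty (TM2OutputsInTime M.tm (w.map M.inputAlphabet.invFun)
    (some (w'.map M.outputAlphabet.invFun)) T)

/-- A parameterized problem: its instances, each described by a word over a finite alphabet, with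
a parameter and a yes/no answer. -/
structure ParamProblem where
  /-- The alphabet. -/
  Letter : Type
  finite : Finite Letter
  nonempty : Nonempty Letter
  /-- The instances. -/
  Inst : Type
  /-- The word describing an instance. -/
  word : Inst → List Letter
  /-- The parameter of an instance. -/
  param : Inst → ℕ
  /-- The yes-instances. -/
  Yes : Inst → Prop

/-- `P` reduces to `Q` by an FPT reduction: a machine (with finite stack alphabets) turns the word
of every instance `x` of `P` with parameter `k` into the word of an instance `y` of `Q`, in time
`f(k) (|x| + 1)^c`, such that `y` is a yes-instance if and only if `x` is one and the parameter of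
`y` is at most `g(k)`; here `f`, `g` are computable and `c` is a constant. -/
def FPTReduces (P Q : ParamProblem) : Prop :=
  ∃ (M : TM2ComputableAux P.Letter Q.Letter) (f g : ℕ → ℕ) (c : ℕ),
    (∀ k, Finite (M.tm.Γ k)) ∧ Computable f ∧ Computable g ∧
    ∀ x : P.Inst, ∃ y : Q.Inst,
      Halts M (P.word x) (Q.word y) (f (P.param x) * ((P.word x).length + 1) ^ c) ∧
      Q.param y ≤ g (P.param x) ∧ (P.Yes x ↔ Q.Yes y)

/-! ### Circuits and the W-hierarchy -/

/-- Kinds of nodes of a circuit: input nodes, and-gates, or-gates, not-gates. -/
inductive Kind
  | input
  | conj
  | disj
  | neg
  deriving DecidableEq, Fintype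

/-- The node is a gate, not an input node. -/
def Kind.isGate : Kind → Bool
  | .input => false
  | _ => true

/-- A Boolean circuit with nodes `0, …, n - 1` in topological order and one output node.
`wire g h` says that the node `h` feeds the node `g`. And-gates and or-gates have any number of
incoming wires, not-gates have exactly one, input nodes have none. -/
structure Circuit where
  n : ℕ
  kind : Fin n → Kind
  wire : Fin n → Fin n → Bool
  lt_of_wire : ∀ g h, wire g h = true → h < g
  input_wire : ∀ g h, kind g = .input → wire g h = false
  neg_wire : ∀ g, kind g = .neg → ∃! h, wire g h = true
  out : Fin n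

namespace Circuit

variable (C : Circuit)

/-- `e` gives the values of all nodes when the input nodes in `S` are set to true and the other
input nodes to false. -/
def Eval (S : Finset (Fin C.n)) (e : Fin C.n → Bool) : Prop :=
  ∀ g, match C.kind g with
    | .input => (e g = true ↔ g ∈ S)
    | .conj => (e g = true ↔ ∀ h, C.wire g h = true → e h = true)
    | .disj => (e g = true ↔ ∃ h, C.wire g h = true ∧ e h = true)
    | .neg => (e g = true ↔ ∀ h, C.wire g h = true → e h = false)

/-- Setting some set of exactly `k` input nodes to true makes the output node true. -/
def WeightedSat (k : ℕ) : Prop :=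
  ∃ S : Finset (Fin C.n), S.card = k ∧ (∀ g ∈ S, C.kind g = .input) ∧
    ∃ e, C.Eval S e ∧ e C.out = true

/-- The list `l` is a path that starts at the output node and follows the wires backwards. -/
def Path (l : List (Fin C.n)) : Prop :=
  l.head? = some C.out ∧ l.IsChain fun g h => C.wire g h = true

/-- Every path has at most `d` gates (nodes other than input nodes). -/
def DepthLE (d : ℕ) : Prop :=
  ∀ l, C.Path l → l.countP (fun g => (C.kind g).isGate) ≤ d

/-- Every path has at most `t` large gates (nodes with more than two incoming wires). -/
def WeftLE (t : ℕ) : Prop :=
  ∀ l, C.Path l → l.countP (fun g => decide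
    (2 < (Finset.univ.filter fun h => C.wire g h = true).card)) ≤ t

end Circuit

/-- Letters of the words describing circuits. -/
inductive CLetter
  | node
  | unit
  | kind (κ : Kind)
  | out (b : Bool)
  | wire (b : Bool)
  deriving DecidableEq, Fintype

theorem CLetter.finite : Finite CLetter := inferInstance

/-- Instances of weighted satisfiability for circuits of weft at most `t` and depth at most `d`:
a circuit and a number `k`, at most the number of nodes. -/
structure WcsInst (t d : ℕ) where
  C : Circuit
  weft : C.WeftLE t
  depth : C.DepthLE d
  k : ℕ
  k_le : k ≤ C.n

/-- The word of a circuit and a number: the number of nodes and the number `k` in unary, the kinds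
of the nodes, the indicator of the output node, and the matrix of wires. -/
def circuitWord (C : Circuit) (k : ℕ) : List CLetter :=
  List.replicate C.n .node ++ List.replicate k .unit ++
    (List.finRange C.n).map (fun g => .kind (C.kind g)) ++
    (List.finRange C.n).map (fun g => .out (decide (g = C.out))) ++
    (List.finRange C.n).flatMap fun g => (List.finRange C.n).map fun h => .wire (C.wire g h)

/-- Weighted satisfiability of circuits of weft at most `t` and depth at most `d`; the parameter
is the weight. -/
def WCS (t d : ℕ) : ParamProblem where
  Letter := CLetter
  finite := CLetter.finite
  nonempty := ⟨.node⟩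
  Inst := WcsInst t d
  word x := circuitWord x.C x.k
  param x := x.k
  Yes x := x.C.WeightedSat x.k

/-- The class `W[t]`: the parameterized problems reducible to weighted satisfiability of circuits
of weft at most `t` and depth at most `d`, for some constant `d`. -/
def InW (t : ℕ) (P : ParamProblem) : Prop := ∃ d, FPTReduces P (WCS t d)

/-- `Q` is `W[t]`-hard: every problem in `W[t]` reduces to `Q` by an FPT reduction. -/
def WHard (t : ℕ) (Q : ParamProblem) : Prop := ∀ P, InW t P → FPTReduces P Q

/-! ### Longest common subsequences -/

/-- Instances of the longest common subsequence problem over the alphabet `{0, …, q - 1}`: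
at least one string, and a number. -/
structure LcsInst (q : ℕ) where
  strings : List (List (Fin q))
  strings_ne : strings ≠ []
  m : ℕ

/-- The strings have a common subsequence of length at least `m`. -/
def LcsInst.Yes {q : ℕ} (J : LcsInst q) : Prop :=
  ∃ u : List (Fin q), (∀ s ∈ J.strings, u.Sublist s) ∧ J.m ≤ u.length

/-- The word of an instance: `m` in unary, then the strings; the letter `c` is written as
`c + 1` times `true` and a `false`, and a further `false` ends each string. -/
def LcsInst.word {q : ℕ} (J : LcsInst q) : List Bool :=
  List.replicate J.m true ++ false :: J.strings.flatMap fun s =>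
    s.flatMap (fun c => List.replicate (c.val + 1) true ++ [false]) ++ [false]

/-- The longest common subsequence problem over an alphabet with `q` letters, parameterized by
the number of strings. -/
def LCS (q : ℕ) : ParamProblem where
  Letter := Bool
  finite := inferInstance
  nonempty := ⟨true⟩
  Inst := LcsInst q
  word J := J.word
  param J := J.strings.length
  Yes J := J.Yes

end Pool.Agent.Lib.MP_58f141_lc
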