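import Pool.Agent.Lib.MP_58f141_lc.Gen2
import Pool.Agent.Lib.MP_58f141_lc.Defs

/-! # Binary strings over larger alphabets -/

namespace Pool.Agent.Lib.MP_58f141_lc

set_option linter.unusedSimpArgs false
set_option linter.unusedVariables false

open scoped List

/-- The two letters. -/
def ltr {q : ℕ} (hq : 2 ≤ q) (b : Bool) : Fin q := if b then ⟨1, by omega⟩ else ⟨0, by omega⟩

theorem ltr_inj {q : ℕ} (hq : 2 ≤ q) : Function.Injective (ltr hq) := by
  intro a b h
  cases a <;> cases b <;> simp [ltr] at h ⊢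

/-- The instance over `q` letters. -/
def toInst {q : ℕ} (hq : 2 ≤ q) (ss : List (List Bool)) (hs : ss ≠ []) (m : ℕ) : LcsInst q where
  strings := ss.map fun s => s.map (ltr hq)
  strings_ne := by simpa using hs
  m := m

theorem toInst_word {q : ℕ} (hq : 2 ≤ q) (ss : List (List Bool)) (hs : ss ≠ []) (m : ℕ) :
    (toInst hq ss hs m).word = lcsw m ss := by
  rw [LcsInst.word, lcsw, toInst]
  simp only
  congr 2
  rw [List.flatMap_map]
  refine List.flatMap_congr fun s _ => ?_
  rw [sc, List.flatMap_map]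
  congr 1
  refine List.flatMap_congr fun b _ => ?_
  cases b <;> rfl

theorem toInst_yes {q : ℕ} (hq : 2 ≤ q) (ss : List (List Bool)) (hs : ss ≠ []) (m : ℕ) :
    (toInst hq ss hs m).Yes ↔ ∃ u : List Bool, (∀ s ∈ ss, u <+ s) ∧ m ≤ u.length := by
  constructor
  · rintro ⟨u, hu, hm⟩
    obtain ⟨s0, ss', rfl⟩ := List.exists_cons_of_ne_nil hs
    have h0 := hu (s0.map (ltr hq)) (by simp [toInst])
    obtain ⟨u0, -, rfl⟩ := List.sublist_map_iff.1 h0
    refine ⟨u0, fun s h => ?_, by rw [List.length_map] at hm; exact hm⟩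
    have h1 := hu (s.map (ltr hq)) (by
      simp only [toInst]
      exact List.mem_map_of_mem h)
    obtain ⟨u1, h2, h3⟩ := List.sublist_map_iff.1 h1
    have : u0 = u1 := List.map_injective_iff.2 (ltr_inj hq) h3
    rw [this]
    exact h2
  · rintro ⟨u, hu, hm⟩
    refine ⟨u.map (ltr hq), fun s h => ?_, by rw [List.length_map]; exact hm⟩
    simp only [toInst, List.mem_map] at h
    obtain ⟨s, hs, rfl⟩ := h
    exact (hu s hs).map _

theorem toInst_length {q : ℕ} (hq : 2 ≤ q) (ss : List (List Bool)) (hs : ss ≠ []) (m : ℕ) :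
    (toInst hq ss hs m).strings.length = ss.length := by
  simp [toInst]

theorem dstrings_ne (N m1 m2 : ℕ) (c0 : List ℕ → List ℕ → Bool) (cs : List DChn) :
    dstrings N m1 m2 c0 cs ≠ [] := by
  simp [dstrings, strings]

theorem dstrings_length (N m1 m2 : ℕ) (c0 : List ℕ → List ℕ → Bool) (cs : List DChn) :
    (dstrings N m1 m2 c0 cs).length = cs.length + 3 := by
  simp [dstrings, strings]

end Pool.Agent.Lib.MP_58f141_lc
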