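import Pool.Agent.Lib.MP_58f141_lc.CircProg
import Pool.Agent.Lib.MP_58f141_lc.LcsConv
import Pool.Agent.Lib.MP_58f141_lc.Fpt

/-! # W[t]-hardness of longest common subsequence -/

namespace Pool.Agent.Lib.MP_58f141_lc

set_option linter.unusedSimpArgs false
set_option linter.unusedVariables false
set_option linter.unusedSectionVars false

open scoped List
open Function
open Pool.Agent.Lib.PolyTM

/-- The letters counted by the machine. -/
def ccnt : CLetter → Bool
  | .node => true
  | _ => false

/-- Initial contents of the arrays. -/
def cini : CW → CLetter → Option Bool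
  | .wire, .wire b => some b
  | .unit, .unit => some true
  | .out, .out b => some b
  | .kind κ, .kind κ' => some (decide (κ' = κ))
  | _, _ => none

theorem filterMap_none {α : Type} (l : List α) (f : α → Option Bool) (h : ∀ a ∈ l, f a = none) :
    l.filterMap f = [] := List.filterMap_eq_nil_iff.2 h

theorem filterMap_map_some {α β : Type} (l : List α) (g : α → β) (f : β → Option Bool)
    (k : α → Bool) (h : ∀ a, f (g a) = some (k a)) : (l.map g).filterMap f = l.map k := by
  induction l with
  | nil => rfl
  | cons a l ih => rw [List.map_cons, List.filterMap_cons, h, ih]; rfl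

section

variable (C : Circuit) (k : ℕ)

theorem count_word : (circuitWord C k).countP ccnt = C.n := by
  have h1 : ((List.finRange C.n).map (fun g => CLetter.kind (C.kind g))).countP ccnt = 0 := by
    rw [List.countP_eq_zero]
    intro a ha
    obtain ⟨g, -, rfl⟩ := List.mem_map.1 ha
    simp [ccnt]
  have h2 : ((List.finRange C.n).map (fun g => CLetter.out (decide (g = C.out)))).countP ccnt =
      0 := by
    rw [List.countP_eq_zero]
    intro a ha
    obtain ⟨g, -, rfl⟩ := List.mem_map.1 ha
    simp [ccnt]
  have h3 : ((List.finRange C.n).flatMap fun g => (List.finRange C.n).map fun h =>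
      CLetter.wire (C.wire g h)).countP ccnt = 0 := by
    rw [List.countP_eq_zero]
    intro a ha
    simp only [List.mem_flatMap, List.mem_map] at ha
    obtain ⟨g, -, h, -, rfl⟩ := ha
    simp [ccnt]
  rw [circuitWord, List.countP_append, List.countP_append, List.countP_append,
    List.countP_append, h1, h2, h3, List.countP_replicate, List.countP_replicate]
  simp [ccnt]

theorem ini_rev : (circuitWord C k).filterMap (cini .rev) = [] := by
  refine filterMap_none _ _ fun a _ => ?_
  cases a <;> rfl

theorem ini_unit : (circuitWord C k).filterMap (cini .unit) = List.replicate k true := by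
  rw [circuitWord, List.filterMap_append, List.filterMap_append, List.filterMap_append,
    List.filterMap_append,
    filterMap_none (List.replicate C.n CLetter.node) _ (fun a ha => by
      rw [(List.mem_replicate.1 ha).2]; rfl),
    filterMap_none ((List.finRange C.n).map (fun g => CLetter.kind (C.kind g))) _ (fun a ha => by
      obtain ⟨g, -, rfl⟩ := List.mem_map.1 ha; rfl),
    filterMap_none ((List.finRange C.n).map (fun g => CLetter.out (decide (g = C.out)))) _
      (fun a ha => by
        obtain ⟨g, -, rfl⟩ := List.mem_map.1 ha; rfl),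
    filterMap_none ((List.finRange C.n).flatMap fun g => (List.finRange C.n).map fun h =>
      CLetter.wire (C.wire g h)) _ (fun a ha => by
        simp only [List.mem_flatMap, List.mem_map] at ha
        obtain ⟨g, -, h, -, rfl⟩ := ha; rfl),
    List.filterMap_replicate]
  simp [cini]

theorem ini_kind (κ : Kind) : (circuitWord C k).filterMap (cini (.kind κ)) =
    (List.finRange C.n).map fun g => decide (C.kind g = κ) := by
  rw [circuitWord, List.filterMap_append, List.filterMap_append, List.filterMap_append,
    List.filterMap_append,
    filterMap_none (List.replicate C.n CLetter.node) _ (fun a ha => by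
      rw [(List.mem_replicate.1 ha).2]; rfl),
    filterMap_none (List.replicate k CLetter.unit) _ (fun a ha => by
      rw [(List.mem_replicate.1 ha).2]; rfl),
    filterMap_map_some (List.finRange C.n) (fun g => CLetter.kind (C.kind g))
      (cini (.kind κ)) (fun g => decide (C.kind g = κ)) (fun g => rfl),
    filterMap_none ((List.finRange C.n).map (fun g => CLetter.out (decide (g = C.out)))) _
      (fun a ha => by
        obtain ⟨g, -, rfl⟩ := List.mem_map.1 ha; rfl),
    filterMap_none ((List.finRange C.n).flatMap fun g => (List.finRange C.n).map fun h =>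
      CLetter.wire (C.wire g h)) _ (fun a ha => by
        simp only [List.mem_flatMap, List.mem_map] at ha
        obtain ⟨g, -, h, -, rfl⟩ := ha; rfl)]
  simp

theorem ini_out : (circuitWord C k).filterMap (cini .out) =
    (List.finRange C.n).map fun g => decide (g = C.out) := by
  rw [circuitWord, List.filterMap_append, List.filterMap_append, List.filterMap_append,
    List.filterMap_append,
    filterMap_none (List.replicate C.n CLetter.node) _ (fun a ha => by
      rw [(List.mem_replicate.1 ha).2]; rfl),
    filterMap_none (List.replicate k CLetter.unit) _ (fun a ha => by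
      rw [(List.mem_replicate.1 ha).2]; rfl),
    filterMap_none ((List.finRange C.n).map (fun g => CLetter.kind (C.kind g))) _ (fun a ha => by
      obtain ⟨g, -, rfl⟩ := List.mem_map.1 ha; rfl),
    filterMap_map_some (List.finRange C.n) (fun g => CLetter.out (decide (g = C.out)))
      (cini .out) (fun g => decide (g = C.out)) (fun g => rfl),
    filterMap_none ((List.finRange C.n).flatMap fun g => (List.finRange C.n).map fun h =>
      CLetter.wire (C.wire g h)) _ (fun a ha => by
        simp only [List.mem_flatMap, List.mem_map] at ha
        obtain ⟨g, -, h, -, rfl⟩ := ha; rfl)]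
  simp

theorem ini_wire : (circuitWord C k).filterMap (cini .wire) =
    (List.finRange C.n).flatMap fun g => (List.finRange C.n).map fun h => C.wire g h := by
  have h1 : ((List.finRange C.n).flatMap fun g => (List.finRange C.n).map fun h =>
      CLetter.wire (C.wire g h)).filterMap (cini .wire) =
      (List.finRange C.n).flatMap fun g => (List.finRange C.n).map fun h => C.wire g h := by
    rw [List.filterMap_flatMap]
    refine List.flatMap_congr fun g _ => ?_
    exact filterMap_map_some _ _ _ _ fun h => rfl
  rw [circuitWord, List.filterMap_append, List.filterMap_append, List.filterMap_append,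
    List.filterMap_append,
    filterMap_none (List.replicate C.n CLetter.node) _ (fun a ha => by
      rw [(List.mem_replicate.1 ha).2]; rfl),
    filterMap_none (List.replicate k CLetter.unit) _ (fun a ha => by
      rw [(List.mem_replicate.1 ha).2]; rfl),
    filterMap_none ((List.finRange C.n).map (fun g => CLetter.kind (C.kind g))) _ (fun a ha => by
      obtain ⟨g, -, rfl⟩ := List.mem_map.1 ha; rfl),
    filterMap_none ((List.finRange C.n).map (fun g => CLetter.out (decide (g = C.out)))) _
      (fun a ha => by
        obtain ⟨g, -, rfl⟩ := List.mem_map.1 ha; rfl), h1]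
  simp

/-- **The output of the program.** -/
theorem progC_out (H : ℕ) (hH : 0 < H) (hk : k ≤ C.n) :
    (progC H).out ccnt cini (circuitWord C k) =
      lcsw (target C.n (H + 1) (H + 1))
        (dstrings C.n (H + 1) (H + 1) ((C.dat k).c0 H) ((C.dat k).chains C.n H)) := by
  have hN : 0 < C.n := by have := C.out.2; omega
  unfold Stmt.out
  rw [count_word]
  set a0 := iniArr C.n cini (circuitWord C k) with ha0
  have hne : ∀ i j : Fin 4, i ≠ j → (fv i : Vr (CL H)) ≠ fv j := fun i j h h' => by
    simp only [fv, Sum.inl.injEq, Sum.inr.injEq] at h'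
    exact h h'
  obtain ⟨r1, r2, r3⟩ := run_revP (N := C.n) CW.rev (x := (fv 1 : Vr (CL H))) (y := fv 2)
    (z := fv 3) (hne _ _ (by decide)) (hne _ _ (by decide)) (hne _ _ (by decide))
    (fun _ => 0) ⟨a0, []⟩ (fun p q => by
      simp only [ha0, iniArr, ini_rev]; rfl)
  set σ := (revP CW.rev (fv 1) (fv 2) (fv 3) : Stmt (Vr (CL H)) CW).run C.n (fun _ => 0)
    ⟨a0, []⟩ with hσ
  have hok : ArrOK C.n (C.dat k) σ.a := by
    refine ⟨r3, fun κ x hx => ?_, fun x y hx hy => ?_, fun x hx => ?_, fun x hx => ?_, C.out.2⟩
    · rw [r2 _ (by simp)]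
      simp only [ha0, iniArr, ini_kind, enc1]
      rw [cell_map _ hx]
      simp [Circuit.dat, hx]
    · rw [r2 _ (by decide)]
      simp only [ha0, iniArr, ini_wire, enc2]
      rw [cell_matrix _ hx hy]
      simp [Circuit.dat, hx, hy]
    · rw [r2 _ (by decide)]
      simp only [ha0, iniArr, ini_unit, enc1, cell_replicate]
      rfl
    · rw [r2 _ (by decide)]
      simp only [ha0, iniArr, ini_out, enc1]
      rw [cell_map _ hx, decide_eq_decide]
      simp only [Circuit.dat]
      exact ⟨fun h => by rw [← h], fun h => Fin.ext h⟩
  have h := emits_progC (a := σ.a) hok hk hH (e := fun _ => 0) (fun _ => hN) []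
  have e1 : (⟨σ.a, []⟩ : AS CW) = σ := by
    have h0 : σ.o = [] := r1
    rw [← h0]
  rw [e1] at h
  change (Stmt.run C.n (genP (clay H) (H + 1 + (H + 1)) .rev (c0F H) _) (fun _ => 0) σ).o = _
  rw [h]
  rfl

end

/-- **Weighted satisfiability of circuits of bounded depth reduces to longest common subsequence**
over any alphabet with at least two letters. -/
theorem wcs_reduces {q : ℕ} (hq : 2 ≤ q) (t d : ℕ) : FPTReduces (WCS t d) (LCS q) := by
  obtain ⟨M, p, hfin, hM⟩ := Stmt.polytime (progC (d + 1)) (progC_wf (d + 1)) ccnt cini
  obtain ⟨A, c, hp⟩ := poly_le p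
  refine ⟨M, fun _ => A, fun k => 2 * k + (2 * (d + 1) + 4), c, hfin, Computable.const A,
    computable_add (computable_mul (Computable.const 2) Computable.id)
      (Computable.const _), fun x => ?_⟩
  set N := x.C.n
  set D := x.C.dat x.k with hD
  have hne := dstrings_ne N (d + 1 + 1) (d + 1 + 1) (D.c0 (d + 1)) (D.chains N (d + 1))
  refine ⟨toInst hq (dstrings N (d + 1 + 1) (d + 1 + 1) (D.c0 (d + 1)) (D.chains N (d + 1))) hne
    (target N (d + 1 + 1) (d + 1 + 1)), ?_, ?_, ?_⟩
  · have hab := hM (circuitWord x.C x.k)
    rw [progC_out x.C x.k (d + 1) (by omega) x.k_le] at hab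
    obtain ⟨a, b⟩ := hab
    change Halts M (circuitWord x.C x.k) (toInst hq _ hne (target N (d + 1 + 1) (d + 1 + 1))).word
      (A * ((circuitWord x.C x.k).length + 1) ^ c)
    rw [toInst_word]
    exact ⟨⟨a, b.trans (hp _)⟩⟩
  · change (toInst hq _ hne (target N (d + 1 + 1) (d + 1 + 1))).strings.length ≤ 2 * x.k + (2 * (d + 1) + 4)
    rw [toInst_length, dstrings_length, chains_length]
    change 2 * x.k + 2 * (d + 1) + 1 + 3 ≤ _
    omega
  · change x.C.WeightedSat x.k ↔ (toInst hq _ hne (target N (d + 1 + 1) (d + 1 + 1))).Yes
    rw [toInst_yes, dcore (by omega) _ _ (chains_ok (by omega))]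
    exact (circuit_chains x.C x.k x.depth x.k_le).symm

/-- **Main theorem.** -/
theorem lcs_hard {q : ℕ} (hq : 2 ≤ q) (t : ℕ) : WHard t (LCS q) := by
  rintro P ⟨d, hP⟩
  exact hP.trans (wcs_reduces hq t d)

end Pool.Agent.Lib.MP_58f141_lc
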