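import Pool.Agent.Lib.MP_58f141_lc.ChainProg
import Pool.Agent.Lib.MP_58f141_lc.CircFinal

/-! # From chained multicoloured clique to longest common subsequence -/

namespace Pool.Agent.Lib.MP_58f141_lc

set_option linter.unusedSimpArgs false
set_option linter.unusedVariables false
set_option linter.unusedSectionVars false

open scoped List
open Function
open Pool.Agent.Lib.PolyTM

/-- The letters counted by the machine. -/
def gcnt : GLetter → Bool
  | .vertex => true
  | _ => false

/-- Initial contents of the arrays. -/
def gini : GW → GLetter → Option Bool
  | .adj, .adj b => some b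
  | .lev, .lev b => some b
  | .col, .col b => some b
  | .ulev, .level => some true
  | .ucol, .colour => some true
  | _, _ => none

/-- Three matrices and three unary numbers. -/
def gword (n r K : ℕ) (A B C : Fin n → Fin n → Bool) : List GLetter :=
  List.replicate n .vertex ++ List.replicate r .level ++ List.replicate K .colour ++
    ((List.finRange n).flatMap fun v => (List.finRange n).map fun x => .adj (A v x)) ++
    ((List.finRange n).flatMap fun v => (List.finRange n).map fun x => .lev (B v x)) ++
    (List.finRange n).flatMap fun v => (List.finRange n).map fun x => .col (C v x)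

section

variable {n : ℕ} (r K : ℕ) (A B C : Fin n → Fin n → Bool)

theorem filterMap_replicate_none {m : ℕ} {x : GLetter} {f : GLetter → Option Bool}
    (h : f x = none) : (List.replicate m x).filterMap f = [] :=
  filterMap_none _ _ fun a ha => by rw [(List.mem_replicate.1 ha).2]; exact h

theorem filterMap_matrix_none {g : Bool → GLetter} {f : GLetter → Option Bool}
    (h : ∀ b, f (g b) = none) (A : Fin n → Fin n → Bool) :
    ((List.finRange n).flatMap fun v => (List.finRange n).map fun x => g (A v x)).filterMap f =
      [] :=
  filterMap_none _ _ fun a ha => by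
    simp only [List.mem_flatMap, List.mem_map] at ha
    obtain ⟨v, -, x, -, rfl⟩ := ha
    exact h _

theorem filterMap_matrix_some {g : Bool → GLetter} {f : GLetter → Option Bool}
    (h : ∀ b, f (g b) = some b) (A : Fin n → Fin n → Bool) :
    ((List.finRange n).flatMap fun v => (List.finRange n).map fun x => g (A v x)).filterMap f =
      (List.finRange n).flatMap fun v => (List.finRange n).map fun x => A v x := by
  rw [List.filterMap_flatMap]
  exact List.flatMap_congr fun v _ => filterMap_map_some _ _ _ _ fun x => h _

theorem countP_matrix {g : Bool → GLetter} (h : ∀ b, gcnt (g b) = false)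
    (A : Fin n → Fin n → Bool) :
    ((List.finRange n).flatMap fun v => (List.finRange n).map fun x => g (A v x)).countP gcnt =
      0 := by
  rw [List.countP_eq_zero]
  intro a ha
  simp only [List.mem_flatMap, List.mem_map] at ha
  obtain ⟨v, -, x, -, rfl⟩ := ha
  rw [h]
  simp

theorem gcount : (gword n r K A B C).countP gcnt = n := by
  rw [gword, List.countP_append, List.countP_append, List.countP_append, List.countP_append,
    List.countP_append, countP_matrix (g := .adj) (fun _ => rfl),
    countP_matrix (g := .lev) (fun _ => rfl), countP_matrix (g := .col) (fun _ => rfl),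
    List.countP_replicate, List.countP_replicate, List.countP_replicate]
  simp [gcnt]

theorem gini_rev : (gword n r K A B C).filterMap (gini .rev) = [] := by
  refine filterMap_none _ _ fun a _ => ?_
  cases a <;> rfl

theorem gini_ulev : (gword n r K A B C).filterMap (gini .ulev) = List.replicate r true := by
  rw [gword, List.filterMap_append, List.filterMap_append, List.filterMap_append,
    List.filterMap_append, List.filterMap_append, filterMap_replicate_none rfl,
    filterMap_replicate_none (x := .colour) rfl, filterMap_matrix_none (fun _ => rfl),
    filterMap_matrix_none (fun _ => rfl), filterMap_matrix_none (fun _ => rfl),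
    List.filterMap_replicate]
  simp [gini]

theorem gini_ucol : (gword n r K A B C).filterMap (gini .ucol) = List.replicate K true := by
  rw [gword, List.filterMap_append, List.filterMap_append, List.filterMap_append,
    List.filterMap_append, List.filterMap_append, filterMap_replicate_none rfl,
    filterMap_replicate_none (x := .level) rfl, filterMap_matrix_none (fun _ => rfl),
    filterMap_matrix_none (fun _ => rfl), filterMap_matrix_none (fun _ => rfl),
    List.filterMap_replicate]
  simp [gini]

theorem gini_adj : (gword n r K A B C).filterMap (gini .adj) =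
    (List.finRange n).flatMap fun v => (List.finRange n).map fun x => A v x := by
  rw [gword, List.filterMap_append, List.filterMap_append, List.filterMap_append,
    List.filterMap_append, List.filterMap_append, filterMap_replicate_none (x := .vertex) rfl,
    filterMap_replicate_none (x := .level) rfl, filterMap_replicate_none (x := .colour) rfl,
    filterMap_matrix_some (g := .adj) (fun _ => rfl),
    filterMap_matrix_none (g := .lev) (fun _ => rfl),
    filterMap_matrix_none (g := .col) (fun _ => rfl)]
  simp

theorem gini_lev : (gword n r K A B C).filterMap (gini .lev) =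
    (List.finRange n).flatMap fun v => (List.finRange n).map fun x => B v x := by
  rw [gword, List.filterMap_append, List.filterMap_append, List.filterMap_append,
    List.filterMap_append, List.filterMap_append, filterMap_replicate_none (x := .vertex) rfl,
    filterMap_replicate_none (x := .level) rfl, filterMap_replicate_none (x := .colour) rfl,
    filterMap_matrix_none (g := .adj) (fun _ => rfl),
    filterMap_matrix_some (g := .lev) (fun _ => rfl),
    filterMap_matrix_none (g := .col) (fun _ => rfl)]
  simp

theorem gini_col : (gword n r K A B C).filterMap (gini .col) =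
    (List.finRange n).flatMap fun v => (List.finRange n).map fun x => C v x := by
  rw [gword, List.filterMap_append, List.filterMap_append, List.filterMap_append,
    List.filterMap_append, List.filterMap_append, filterMap_replicate_none (x := .vertex) rfl,
    filterMap_replicate_none (x := .level) rfl, filterMap_replicate_none (x := .colour) rfl,
    filterMap_matrix_none (g := .adj) (fun _ => rfl),
    filterMap_matrix_none (g := .lev) (fun _ => rfl),
    filterMap_matrix_some (g := .col) (fun _ => rfl)]
  simp

end

open Classical in
theorem word_eq (I : ChainedClique) : I.word = gword I.n I.r I.K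
    (fun v x => decide (I.G.Adj v x)) (fun v x => decide (I.level v = x.val))
    (fun v x => decide (I.colour v = x.val)) := rfl

/-- **The output of the program.** -/
theorem progG_out (I : ChainedClique) :
    progG.out gcnt gini I.word =
      lcsw (target I.n 5 2) (dstrings I.n 5 2 I.dat.c0 (I.dat.chains I.n)) := by
  classical
  unfold Stmt.out
  have hcnt : I.word.countP gcnt = I.n := by rw [word_eq, gcount]
  rw [hcnt]
  set a0 := iniArr I.n gini I.word with ha0
  obtain ⟨r1, r2, r3⟩ := run_revP (N := I.n) GW.rev (x := gx 20) (y := gx 21)
    (z := gx 22) (by decide) (by decide) (by decide)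
    (fun _ => 0) ⟨a0, []⟩ (fun p q => by
      simp only [ha0, iniArr, word_eq, gini_rev]; rfl)
  set σ := (revP GW.rev (gx 20) (gx 21) (gx 22) : Stmt GV GW).run I.n (fun _ => 0)
    ⟨a0, []⟩ with hσ
  obtain ⟨s1, s2, s3⟩ := run_parP (N := I.n) GW.par (x := gx 20) (z := gx 21) (by decide)
    ⟨_, rfl⟩ ⟨_, rfl⟩ (fun _ => 0) σ
  set τ := (parP GW.par (gx 20) (gx 21) : Stmt GV GW).run I.n (fun _ => 0) σ with hτ
  have hok : ArrG I.n I.dat τ.a := by
    refine ⟨?_, s3, fun x y hx hy => ?_, fun x y hx hy => ?_, fun x y hx hy => ?_,
      fun x hx => ?_, fun x hx => ?_⟩
    · intro x y hx hy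
      rw [s2 _ (by decide)]
      exact r3 x y hx hy
    · rw [s2 _ (by decide), r2 _ (by decide)]
      simp only [ha0, iniArr, word_eq, gini_adj, enc2]
      rw [cell_matrix _ hx hy]
      simp [ChainedClique.dat, hx, hy]
    · rw [s2 _ (by decide), r2 _ (by decide)]
      simp only [ha0, iniArr, word_eq, gini_lev, enc2]
      rw [cell_matrix _ hx hy]
      simp [ChainedClique.dat, hx, hy]
    · rw [s2 _ (by decide), r2 _ (by decide)]
      simp only [ha0, iniArr, word_eq, gini_col, enc2]
      rw [cell_matrix _ hx hy]
      simp [ChainedClique.dat, hx, hy]
    · rw [s2 _ (by decide), r2 _ (by decide)]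
      simp only [ha0, iniArr, word_eq, gini_ulev, enc1, cell_replicate]
      rfl
    · rw [s2 _ (by decide), r2 _ (by decide)]
      simp only [ha0, iniArr, word_eq, gini_ucol, enc1, cell_replicate]
      rfl
  have h := emits_mainG (a := τ.a) hok I.K_le (e := fun _ => 0) (fun h _ => h) []
  have e1 : (⟨τ.a, []⟩ : AS GW) = τ := by
    have h0 : τ.o = [] := by rw [s1]; exact r1
    rw [← h0]
  rw [e1] at h
  change (Stmt.run I.n mainG (fun _ => 0) τ).o = _
  rw [h]
  rfl

/-- **Chained multicoloured clique with `K` colours reduces to the longest common subsequence of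
`4 K + 3` strings.** -/
theorem clique_reduces {q : ℕ} (hq : 2 ≤ q) :
    ∃ (M : Turing.TM2ComputableAux GLetter Bool) (p : Polynomial ℕ),
      (∀ k, Finite (M.tm.Γ k)) ∧ ∀ I : ChainedClique, ∃ J : LcsInst q,
        Halts M I.word J.word (p.eval I.word.length) ∧ J.strings.length = 4 * I.K + 3 ∧
          (I.Yes ↔ J.Yes) := by
  obtain ⟨M, p, hfin, hM⟩ := Stmt.polytime progG progG_wf gcnt gini
  refine ⟨M, p, hfin, fun I => ?_⟩
  have hne := dstrings_ne I.n 5 2 I.dat.c0 (I.dat.chains I.n)
  refine ⟨toInst hq (dstrings I.n 5 2 I.dat.c0 (I.dat.chains I.n)) hne (target I.n 5 2),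
    ?_, ?_, ?_⟩
  · have hab := hM I.word
    rw [progG_out] at hab
    rw [toInst_word]
    exact hab
  · rw [toInst_length, dstrings_length, chains5_length]
    rfl
  · rw [toInst_yes, dcore (by omega) _ _ chains5_ok]
    exact (clique_chains I).symm

end Pool.Agent.Lib.MP_58f141_lc
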