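import Pool.Agent.Lib.MP_58f141_lc.Gen2

/-! # Auxiliary arrays: reversal and parity; arrays read off the input word -/

namespace Pool.Agent.Lib.MP_58f141_lc

set_option linter.unusedSimpArgs false
set_option linter.unusedVariables false
set_option linter.unusedSectionVars false

open scoped List
open Function
open Pool.Agent.Lib.PolyTM

variable {L W : Type} [DecidableEq L] [DecidableEq W] {N : ℕ}

/-- Compute the array of pairs with sum `N - 1`. -/
def revP (rw' : W) (x y z : Vr L) : Stmt (Vr L) W :=
  loops [x, y] (.ite (.more z (.lt z x) (.lt y z)) .skip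
    (.ite (.more z (.lt y z) (.lt z x)) .skip (.wr rw' [x, y] tt0)))

theorem count_lt (a : Arr W) {x z : Vr L} (hzx : x ≠ z) (e : Vr L → ℕ) (h : e x ≤ N) :
    (Fml.lt z x : Fml (Vr L) W).count N a z e = e x := by
  have : ((Finset.range N).filter fun t =>
      (Fml.lt z x : Fml (Vr L) W).eval N a (update e z t) = true) = Finset.range (e x) := by
    ext t
    rw [Finset.mem_filter, Fml.eval_lt, update_self, update_of_ne hzx, Finset.mem_range,
      Finset.mem_range]
    omega
  rw [Fml.count, this, Finset.card_range]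

theorem count_gt (a : Arr W) {y z : Vr L} (hzy : y ≠ z) (e : Vr L → ℕ) (h : e y < N) :
    (Fml.lt y z : Fml (Vr L) W).count N a z e = N - 1 - e y := by
  have : ((Finset.range N).filter fun t =>
      (Fml.lt y z : Fml (Vr L) W).eval N a (update e z t) = true) =
        Finset.Ico (e y + 1) N := by
    ext t
    rw [Finset.mem_filter, Fml.eval_lt, update_self, update_of_ne hzy, Finset.mem_range,
      Finset.mem_Ico]
    omega
  rw [Fml.count, this, Nat.card_Ico]
  omega

theorem run_revP (rw' : W) {x y z : Vr L} (hxy : x ≠ y) (hxz : x ≠ z) (hyz : y ≠ z)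
    (e : Vr L → ℕ) (σ : AS W) (h0 : ∀ p q, σ.a rw' [p, q] = false) :
    ((revP rw' x y z).run N e σ).o = σ.o ∧
      (∀ w, w ≠ rw' → ((revP rw' x y z).run N e σ).a w = σ.a w) ∧
      RevOK N ((revP rw' x y z).run N e σ).a rw' := by
  have hbody : ∀ (p q : ℕ) (σ' : AS W), p < N → q < N →
      (.ite (.more z (.lt z x) (.lt y z)) .skip
        (.ite (.more z (.lt y z) (.lt z x)) .skip (.wr rw' [x, y] tt0)) :
          Stmt (Vr L) W).run N (upds e [x, y] [p, q]) σ' =
        if p + q + 1 = N then
          { σ' with a := update σ'.a rw' (update (σ'.a rw') [p, q] true) } else σ' := by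
    intro p q σ' hp hq
    have hx : upds e [x, y] [p, q] x = p := by simp [upds, hxy]
    have hy : upds e [x, y] [p, q] y = q := by simp [upds]
    have c1 := count_lt σ'.a hxz (upds e [x, y] [p, q]) (N := N) (by rw [hx]; omega)
    have c2 := count_gt σ'.a hyz (upds e [x, y] [p, q]) (N := N) (by rw [hy]; omega)
    rw [hx] at c1
    rw [hy] at c2
    simp only [Stmt.run, Cond.eval, c1, c2, decide_eq_true_eq, eval_tt0, List.map_cons,
      List.map_nil, hx, hy]
    by_cases h1 : N - 1 - q < p
    · rw [if_pos h1, if_neg (by omega)]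
    · rw [if_neg h1]
      by_cases h2 : p < N - 1 - q
      · rw [if_pos h2, if_neg (by omega)]
      · rw [if_neg h2, if_pos (by omega)]
  have key := run_loops (N := N) (xs := [x, y]) (e := e)
    (s := (.ite (.more z (.lt z x) (.lt y z)) .skip
    (.ite (.more z (.lt y z) (.lt z x)) .skip (.wr rw' [x, y] tt0)) : Stmt (Vr L) W))
    (fun σ' => σ'.o = σ.o ∧ (∀ w, w ≠ rw' → σ'.a w = σ.a w) ∧
      ∀ p q, p < N → q < N → σ'.a rw' [p, q] = true → p + q + 1 = N)
    (fun ts σ' => ∀ p q, ts = [p, q] → p + q + 1 = N → σ'.a rw' [p, q] = true)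
    (by
      intro ts hts σ' ⟨i1, i2, i3⟩
      obtain ⟨p, q, rfl, hp, hq⟩ := hts.two
      rw [hbody p q σ' hp hq]
      by_cases hpq : p + q + 1 = N
      · rw [if_pos hpq]
        refine ⟨⟨i1, fun w hw => ?_, fun p' q' hp' hq' h => ?_⟩, fun p' q' h1 h2 => ?_⟩
        · simp only [update_of_ne hw]
          exact i2 w hw
        · simp only [update_self] at h
          by_cases he : [p', q'] = [p, q]
          · simp only [List.cons.injEq, and_true] at he
            omega
          · rw [update_of_ne he] at h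
            exact i3 p' q' hp' hq' h
        · rw [← h1]
          simp
      · rw [if_neg hpq]
        refine ⟨⟨i1, i2, i3⟩, fun p' q' h1 h2 => ?_⟩
        simp only [List.cons.injEq, and_true] at h1
        omega)
    (by
      intro ts ts' hts hts' σ' hI hP p q h1 h2
      obtain ⟨p', q', rfl, hp, hq⟩ := hts'.two
      rw [hbody p' q' σ' hp hq]
      split
      · simp only [update_self]
        by_cases he : [p, q] = [p', q']
        · rw [he, update_self]
        · rw [update_of_ne he]
          exact hP p q h1 h2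
      · exact hP p q h1 h2)
    (σ := σ) ⟨rfl, fun _ _ => rfl, fun p q _ _ h => by rw [h0] at h; simp at h⟩
  refine ⟨key.1.1, key.1.2.1, fun p q hp hq => ?_⟩
  have k1 := key.2 [p, q] (okt_two hp hq) p q rfl
  have k2 := key.1.2.2 p q hp hq
  rw [Bool.eq_iff_iff, decide_eq_true_eq]
  exact ⟨k2, k1⟩

theorem wf_revP {rw' : W} {ar : W → ℕ} (har : ar rw' = 2) {F : List (Vr L)} (hF : Scope F)
    {x y z : Vr L} (hxy : x ≠ y) (hxz : x ≠ z) (hyz : y ≠ z) (hx : x ∉ F) (hy : y ∉ F)
    (hz : z ∉ F) (gx : ∃ i, x = .inl i) (gy : ∃ i, y = .inl i) :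
    (revP rw' x y z).wf ar F = true := by
  have hsc : Scope (y :: x :: F) := by
    obtain ⟨i, rfl⟩ := gx
    obtain ⟨j, rfl⟩ := gy
    intro k hk
    simp only [List.mem_cons, reduceCtorEq, false_or] at hk
    exact hF k hk
  simp only [revP, loops, Stmt.wf, Cond.wf, Bool.and_eq_true, decide_eq_true_eq, List.mem_cons,
    not_or, wf_tt0 hsc, List.length_cons, List.length_nil, List.all_cons, List.all_nil, and_true,
    har]
  have hzF : z ∉ y :: x :: F := by
    simp only [List.mem_cons, not_or]
    exact ⟨hyz.symm, hxz.symm, hz⟩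
  have g1 : (Fml.lt z x : Fml (Vr L) W).wf ar (z :: y :: x :: F) = true :=
    wf_lt (by simp) (by simp) hxz.symm
  have g2 : (Fml.lt y z : Fml (Vr L) W).wf ar (z :: y :: x :: F) = true :=
    wf_lt (by simp) (by simp) hyz
  simp [g1, g2, hx, hy, hz, hxy.symm, hxz.symm, hyz.symm]

/-- Compute the parities. -/
def parP (pw : W) (x z : Vr L) : Stmt (Vr L) W :=
  .loop x (.wr pw [x] (.ex z (.and (sucD (.x z) (.x x)) (.not (.arr pw [z])))))

theorem run_parP (pw : W) {x z : Vr L} (hxz : x ≠ z) (gx : ∃ i, x = .inl i)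
    (gz : ∃ i, z = .inl i) (e : Vr L → ℕ) (σ : AS W) :
    ((parP pw x z).run N e σ).o = σ.o ∧
      (∀ w, w ≠ pw → ((parP pw x z).run N e σ).a w = σ.a w) ∧
      ∀ t < N, ((parP pw x z).run N e σ).a pw [t] = decide (t % 2 = 1) := by
  refine run_loop (N := N) (x := x) (e := e)
    (s := (.wr pw [x] (.ex z (.and (sucD (.x z) (.x x)) (.not (.arr pw [z])))) : Stmt (Vr L) W))
    (fun m σ' => σ'.o = σ.o ∧ (∀ w, w ≠ pw → σ'.a w = σ.a w) ∧
      ∀ t < m, σ'.a pw [t] = decide (t % 2 = 1)) (fun t ht σ' ⟨i1, i2, i3⟩ => ?_)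
    ⟨rfl, fun _ _ => rfl, fun t ht => by omega⟩
  have hev : (.ex z (.and (sucD (.x z) (.x x)) (.not (.arr pw [z]))) : Fml (Vr L) W).eval N σ'.a
      (update e x t) = decide (t % 2 = 1) := by
    rw [Bool.eq_iff_iff, Fml.eval_ex, decide_eq_true_eq]
    have h1 : ∀ u < N, (Fml.eval N σ'.a (.and (sucD (.x z) (.x x)) (.not (.arr pw [z])))
        (update (update e x t) z u) = true ↔ u + 1 = t ∧ ¬σ'.a pw [u] = true) := by
      intro u hu
      have hx' : update (update e x t) z u x = t := by
        rw [update_of_ne hxz, update_self]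
      have hz' : update (update e x t) z u z = u := update_self _ _ _
      rw [Fml.eval_and, eval_sucD (d := .x z) (d' := .x x) ⟨gz, gx, hxz.symm⟩ (by
        simp only [Dg.val, Dg.rad, hx']; exact ht), Fml.eval_not, Fml.eval_arr]
      simp only [Dg.val, hx', hz', List.map_cons, List.map_nil]
    constructor
    · rintro ⟨u, hu, h⟩
      obtain ⟨h2, h3⟩ := (h1 u hu).1 h
      rw [i3 u (by omega), decide_eq_true_eq] at h3
      omega
    · intro h
      refine ⟨t - 1, by omega, (h1 _ (by omega)).2 ⟨by omega, ?_⟩⟩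
      rw [i3 _ (by omega), decide_eq_true_eq]
      omega
  refine ⟨i1, fun w hw => ?_, fun u hu => ?_⟩
  · simp only [Stmt.run, update_of_ne hw]
    exact i2 w hw
  · simp only [Stmt.run, update_self, List.map_cons, List.map_nil]
    rw [hev]
    by_cases hut : u = t
    · subst hut
      rw [update_self]
    · rw [update_of_ne (by simpa using hut)]
      exact i3 u (by omega)

theorem wf_parP {pw : W} {ar : W → ℕ} (har : ar pw = 1) {F : List (Vr L)} (hF : Scope F)
    {x z : Vr L} (hxz : x ≠ z) (hx : x ∉ F) (hz : z ∉ F) (gx : ∃ i, x = .inl i)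
    (gz : ∃ i, z = .inl i) : (parP pw x z).wf ar F = true := by
  have hsc : Scope (z :: x :: F) := by
    obtain ⟨i, rfl⟩ := gx
    obtain ⟨j, rfl⟩ := gz
    intro k hk
    simp only [List.mem_cons, reduceCtorEq, false_or] at hk
    exact hF k hk
  have h1 : (sucD (.x z) (.x x) : Fml (Vr L) W).wf ar (z :: x :: F) = true :=
    wf_sucD hsc ⟨gz, gx, hxz.symm⟩ (fun y hy => by simp at hy; simp [hy])
      (fun y hy => by simp at hy; simp [hy])
  simp [parP, Stmt.wf, Fml.wf, h1, har, hx, hz, hxz.symm]

/-! ### Arrays read off the input -/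

theorem enc1 (N x : ℕ) : enc N [x] = x := by simp [enc]

theorem enc2 (N x y : ℕ) : enc N [x, y] = x * N + y := by simp [enc]

theorem cell_replicate {n x : ℕ} : cell (List.replicate n true) x = decide (x < n) := by
  rw [cell, List.getD_eq_getElem?_getD, List.getElem?_replicate]
  split
  · rename_i h; simp [h]
  · rename_i h; simp [h]

theorem cell_map {n : ℕ} (f : Fin n → Bool) {x : ℕ} (hx : x < n) :
    cell ((List.finRange n).map f) x = f ⟨x, hx⟩ := by
  rw [cell, List.getD_eq_getElem _ _ (by simpa using hx), List.getElem_map,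
    List.getElem_finRange]
  rfl

theorem cell_rows {α : Type} {n : ℕ} (l : List α) (f : α → List Bool)
    (hf : ∀ a, (f a).length = n) {x y : ℕ} (hx : x < l.length) (hy : y < n) :
    cell (l.flatMap f) (x * n + y) = cell (f l[x]) y := by
  induction l generalizing x with
  | nil => simp at hx
  | cons a l ih =>
    rw [List.flatMap_cons]
    cases x with
    | zero =>
      rw [cell, List.getD_append _ _ _ _ (by rw [hf]; omega), Nat.zero_mul, Nat.zero_add]
      rfl
    | succ x =>
      rw [cell, List.getD_append_right _ _ _ _ (by rw [hf, Nat.succ_mul]; omega), hf]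
      have := ih (x := x) (by simpa using hx)
      rw [cell] at this
      rw [show (x + 1) * n + y - n = x * n + y by rw [Nat.succ_mul]; omega, this]
      rfl

theorem cell_matrix {n : ℕ} (f : Fin n → Fin n → Bool) {x y : ℕ} (hx : x < n) (hy : y < n) :
    cell ((List.finRange n).flatMap fun i => (List.finRange n).map fun j => f i j)
      (x * n + y) = f ⟨x, hx⟩ ⟨y, hy⟩ := by
  rw [cell_rows (n := n) _ _ (fun a => by simp) (by simpa using hx) hy, cell_map _ hy]
  congr 1
  simp

end Pool.Agent.Lib.MP_58f141_lc
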