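import Pool.Agent.Lib.MP_58f141_lc.CircSem2
import Pool.Agent.Lib.MP_58f141_lc.Pre

/-! # The program for circuits -/

namespace Pool.Agent.Lib.MP_58f141_lc

set_option linter.unusedSimpArgs false
set_option linter.unusedVariables false
set_option linter.unusedSectionVars false

open scoped List
open Function
open Pool.Agent.Lib.PolyTM

/-- Arrays: reversal, wires, unary number, output, kinds. -/
inductive CW
  | rev
  | wire
  | unit
  | out
  | kind (κ : Kind)
  deriving DecidableEq, Fintype

/-- Arities. -/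
def CW.ar : CW → ℕ
  | .rev => 2
  | .wire => 2
  | .unit => 1
  | .out => 1
  | .kind _ => 1

/-- Variable names: five groups of `H + 1` digits and four further variables. -/
abbrev CL (H : ℕ) : Type := (Fin 5 × Fin H) ⊕ (Fin 5 ⊕ Fin 4)

section

variable {H : ℕ}

/-- The first `H` variables of a group. -/
def tx (H : ℕ) (b : Fin 5) : List (Vr (CL H)) := (List.finRange H).map fun j => .inl (.inl (b, j))

/-- The last variable of a group. -/
def la (b : Fin 5) : Vr (CL H) := .inl (.inr (.inl b))

/-- Further variables. -/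
def fv (j : Fin 4) : Vr (CL H) := .inl (.inr (.inr j))

/-- A group. -/
def gp (H : ℕ) (b : Fin 5) : List (Vr (CL H)) := tx H b ++ [la b]

/-- The layout. -/
def clay (H : ℕ) : Lay (CL H) := ⟨gp H 0, gp H 1, gp H 2 ++ gp H 3, gp H 4⟩

theorem mem_tx {b : Fin 5} {x : Vr (CL H)} : x ∈ tx H b ↔ ∃ j, x = .inl (.inl (b, j)) := by
  simp only [tx, List.mem_map, List.mem_finRange, true_and]
  constructor
  · rintro ⟨j, rfl⟩; exact ⟨j, rfl⟩
  · rintro ⟨j, rfl⟩; exact ⟨j, rfl⟩

theorem mem_gp {b : Fin 5} {x : Vr (CL H)} :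
    x ∈ gp H b ↔ (∃ j, x = .inl (.inl (b, j))) ∨ x = la b := by
  rw [gp, List.mem_append, mem_tx, List.mem_singleton]

theorem gp_inl {b : Fin 5} {x : Vr (CL H)} (h : x ∈ gp H b) : ∃ i, x = .inl i := by
  rcases mem_gp.1 h with ⟨j, rfl⟩ | rfl
  · exact ⟨_, rfl⟩
  · exact ⟨_, rfl⟩

theorem gp_disj {b b' : Fin 5} (hb : b ≠ b') {x : Vr (CL H)} (h : x ∈ gp H b)
    (h' : x ∈ gp H b') : False := by
  rcases mem_gp.1 h with ⟨j, rfl⟩ | rfl
  · rcases mem_gp.1 h' with ⟨j', h2⟩ | h2
    · simp only [Sum.inl.injEq, Prod.mk.injEq] at h2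
      exact hb h2.1
    · simp [la] at h2
  · rcases mem_gp.1 h' with ⟨j', h2⟩ | h2
    · simp [la] at h2
    · simp only [la, Sum.inl.injEq, Sum.inr.injEq] at h2
      exact hb h2

theorem fv_notMem {b : Fin 5} {j : Fin 4} : (fv j : Vr (CL H)) ∉ gp H b := by
  rw [mem_gp]
  rintro (⟨j', h⟩ | h) <;> simp [fv, la] at h

theorem tx_nodup (b : Fin 5) : (tx H b).Nodup := by
  refine List.Nodup.map (fun i j h => ?_) (List.nodup_finRange H)
  simpa using h

theorem gp_nodup (b : Fin 5) : (gp H b).Nodup := by
  rw [gp, List.nodup_append]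
  refine ⟨tx_nodup b, List.nodup_singleton _, fun x hx y hy => ?_⟩
  obtain ⟨j, rfl⟩ := mem_tx.1 hx
  rw [List.mem_singleton] at hy
  subst hy
  simp [la]

theorem gp_length (b : Fin 5) : (gp H b).length = H + 1 := by simp [gp, tx]

theorem clay_ok (H : ℕ) : (clay H).OK (H + 1) (H + 1) := by
  constructor
  · simp only [clay, Lay.kd]
    rw [List.nodup_append, List.nodup_append, List.nodup_append]
    refine ⟨⟨gp_nodup _, gp_nodup _, fun x hx y hy h => ?_⟩, ⟨gp_nodup _, gp_nodup _,
      fun x hx y hy h => ?_⟩, fun x hx y hy h => ?_⟩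
    · subst h; exact gp_disj (by decide) hx hy
    · subst h; exact gp_disj (by decide) hx hy
    · subst h
      rw [List.mem_append] at hx hy
      rcases hx with hx | hx <;> rcases hy with hy | hy <;>
        exact gp_disj (by decide) hx hy
  · intro x hx h
    have : ∃ i, x = .inl i := by
      simp only [clay, Lay.kd, List.mem_append] at hx
      rcases hx with (hx | hx) | (hx | hx) <;> exact gp_inl hx
    obtain ⟨i, rfl⟩ := this
    simp at h
  · exact gp_length _
  · exact gp_length _
  · simp only [clay, List.length_append, gp_length]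
  · exact gp_length _
  · omega

/-- Reversed or plain variable. -/
def tmr {V : Type} (s : Bool) (x : V) : Tm V := if s then .r x else .v x

theorem tmr_val {V : Type} {N : ℕ} {e : V → ℕ} (s : Bool) (x : V) :
    (tmr s x).val N e = rv N s (e x) := by
  cases s <;> rfl

theorem tmr_vr {V : Type} (s : Bool) (x : V) : (tmr s x).vr = [x] := by
  cases s <;> rfl

/-! ### Formulas -/

/-- The check as a formula. -/
def chkF (it sv : Vr (CL H)) : Bool → Vr (CL H) → List (Vr (CL H)) → List (Vr (CL H)) →
    Fml (Vr (CL H)) CW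
  | true, g, x :: xs, o :: os =>
      .or (.and (.arr (.kind .input) [g]) (.and (.arr .unit [o])
        (.or (.not (.eq it o)) (.eq sv g))))
      (.or (.and (.arr (.kind .conj) [g]) (.or (.not (.arr .wire [g, x]))
        (chkF it sv true x xs os)))
      (.or (.and (.arr (.kind .disj) [g]) (.and (.arr .wire [g, o]) (chkF it sv true o xs os)))
        (.and (.arr (.kind .neg) [g]) (.or (.not (.arr .wire [g, x]))
          (chkF it sv false x xs os)))))
  | false, g, x :: xs, o :: os =>
      .or (.and (.arr (.kind .input) [g]) (.not (.and (.arr .unit [it]) (.eq sv g))))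
      (.or (.and (.arr (.kind .conj) [g]) (.and (.arr .wire [g, o]) (chkF it sv false o xs os)))
      (.or (.and (.arr (.kind .disj) [g]) (.or (.not (.arr .wire [g, x]))
        (chkF it sv false x xs os)))
        (.and (.arr (.kind .neg) [g]) (.and (.arr .wire [g, o]) (chkF it sv true o xs os)))))
  | _, _, _, _ => ff0

/-- Allowed values as a formula. -/
def c0F (H : ℕ) : Fml (Vr (CL H)) CW :=
  .and (.ex (fv 1) (.and (.arr .out [fv 1]) (chkF (la 0) (la 1) true (fv 1) (tx H 0) (tx H 1))))
    (.or (.not (.arr .unit [la 0])) (.arr (.kind .input) [la 1]))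

/-- The arrays hold the data. -/
structure ArrOK (N : ℕ) (D : CDat) (a : Arr CW) : Prop where
  rev : RevOK N a .rev
  kd : ∀ κ x, x < N → a (.kind κ) [x] = D.kd κ x
  wr : ∀ x y, x < N → y < N → a .wire [x, y] = D.wr x y
  un : ∀ x, x < N → a .unit [x] = decide (x < D.k)
  out : ∀ x, x < N → a .out [x] = decide (x = D.out)
  lt : D.out < N

variable {N : ℕ} {D : CDat} {a : Arr CW} {e : Vr (CL H) → ℕ}

theorem eval_chkF (ha : ArrOK N D a) (he : ∀ x, e x < N) (it sv : Vr (CL H)) (pol : Bool)
    (g : Vr (CL H)) (xs os : List (Vr (CL H))) :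
    (chkF it sv pol g xs os).eval N a e =
      D.chk (e it) (e sv) pol (e g) (xs.map e) (os.map e) := by
  induction xs generalizing pol g os with
  | nil =>
    rw [Bool.eq_iff_iff]
    cases pol <;> cases os <;> simp [chkF, CDat.chk, ff0, Fml.eval_not, eval_tt0]
  | cons x xs ih =>
    cases os with
    | nil =>
      rw [Bool.eq_iff_iff]
      cases pol <;> simp [chkF, CDat.chk, ff0, Fml.eval_not, eval_tt0]
    | cons o os =>
      rw [Bool.eq_iff_iff]
      cases pol
      · simp only [chkF, CDat.chk, List.map_cons, Fml.eval_or, Fml.eval_and, Fml.eval_not,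
          Fml.eval_arr, Fml.eval_eq, ih, List.map_nil, ha.kd _ _ (he _), ha.wr _ _ (he _) (he _),
          ha.un _ (he _), Bool.or_eq_true, Bool.and_eq_true, Bool.not_eq_true',
          decide_eq_true_eq, Bool.and_eq_false_iff, decide_eq_false_iff_not, not_and_or,
          Bool.not_eq_true]
      · simp only [chkF, CDat.chk, List.map_cons, Fml.eval_or, Fml.eval_and, Fml.eval_not,
          Fml.eval_arr, Fml.eval_eq, ih, List.map_nil, ha.kd _ _ (he _), ha.wr _ _ (he _) (he _),
          ha.un _ (he _), Bool.or_eq_true, Bool.and_eq_true, Bool.not_eq_true',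
          decide_eq_true_eq, Bool.and_eq_false_iff, decide_eq_false_iff_not, not_and_or,
          Bool.not_eq_true]

theorem wf_chkF {F : List (Vr (CL H))} (hF : Scope F) {it sv : Vr (CL H)} (hit : it ∈ F)
    (hsv : sv ∈ F) (pol : Bool) (g : Vr (CL H)) (hg : g ∈ F) (hgs : sv ≠ g)
    (xs os : List (Vr (CL H))) (hx : ∀ x ∈ xs, x ∈ F ∧ sv ≠ x)
    (ho : ∀ o ∈ os, o ∈ F ∧ sv ≠ o ∧ it ≠ o) :
    (chkF it sv pol g xs os).wf CW.ar F = true := by
  induction xs generalizing pol g os with
  | nil => cases pol <;> cases os <;> exact wf_ff0 hF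
  | cons x xs ih =>
    cases os with
    | nil => cases pol <;> exact wf_ff0 hF
    | cons o os =>
      obtain ⟨x1, x2⟩ := hx x List.mem_cons_self
      obtain ⟨o1, o2, o3⟩ := ho o List.mem_cons_self
      have hx' : ∀ x ∈ xs, x ∈ F ∧ sv ≠ x := fun y hy => hx y (List.mem_cons_of_mem _ hy)
      have ho' : ∀ o ∈ os, o ∈ F ∧ sv ≠ o ∧ it ≠ o := fun y hy =>
        ho y (List.mem_cons_of_mem _ hy)
      have a1 : ∀ κ, (Fml.arr (CW.kind κ) [g] : Fml (Vr (CL H)) CW).wf CW.ar F = true := fun κ =>
        by simp [Fml.wf, CW.ar, hg]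
      have a2 : (Fml.arr CW.unit [o] : Fml (Vr (CL H)) CW).wf CW.ar F = true := by
        simp [Fml.wf, CW.ar, o1]
      have a3 : (Fml.arr CW.unit [it] : Fml (Vr (CL H)) CW).wf CW.ar F = true := by
        simp [Fml.wf, CW.ar, hit]
      have a4 : (Fml.arr CW.wire [g, x] : Fml (Vr (CL H)) CW).wf CW.ar F = true := by
        simp [Fml.wf, CW.ar, hg, x1]
      have a5 : (Fml.arr CW.wire [g, o] : Fml (Vr (CL H)) CW).wf CW.ar F = true := by
        simp [Fml.wf, CW.ar, hg, o1]
      have i1 := fun pol => ih pol x x1 x2 os hx' ho'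
      have i2 := fun pol => ih pol o o1 o2 os hx' ho'
      cases pol
      · exact wf_or (wf_and (a1 _) (wf_not (wf_and a3 (wf_eq hsv hg hgs))))
          (wf_or (wf_and (a1 _) (wf_and a5 (i2 _)))
            (wf_or (wf_and (a1 _) (wf_or (wf_not a4) (i1 _)))
              (wf_and (a1 _) (wf_and a5 (i2 _)))))
      · exact wf_or (wf_and (a1 _) (wf_and a2 (wf_or (wf_not (wf_eq hit o1 o3))
          (wf_eq hsv hg hgs))))
          (wf_or (wf_and (a1 _) (wf_or (wf_not a4) (i1 _)))
            (wf_or (wf_and (a1 _) (wf_and a5 (i2 _)))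
              (wf_and (a1 _) (wf_or (wf_not a4) (i1 _)))))

theorem map_gp {b : Fin 5} {ts : List ℕ} (h : (gp H b).map e = ts) :
    (tx H b).map e = ts.take H ∧ e (la b) = ts.getD H 0 := by
  subst h
  rw [gp, List.map_append, List.map_cons, List.map_nil]
  have hl : ((tx H b).map e).length = H := by simp [tx]
  have := take_append_single (i := e (la b)) hl
  exact ⟨this.1.symm, this.2.symm⟩

theorem eval_c0F (ha : ArrOK N D a) {ts vs : List ℕ} (h1 : (gp H 0).map e = ts)
    (h2 : (gp H 1).map e = vs) (he : ∀ x, e x < N) :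
    (c0F H).eval N a e = D.c0 H ts vs := by
  obtain ⟨t1, t2⟩ := map_gp h1
  obtain ⟨v1, v2⟩ := map_gp h2
  have u1 : a .unit [e (la 0)] = decide (e (la 0) < D.k) := ha.un _ (he _)
  have u2 : a (.kind .input) [e (la 1)] = D.kd .input (e (la 1)) := ha.kd _ _ (he _)
  rw [Bool.eq_iff_iff, c0F, Fml.eval_and, Fml.eval_ex, Fml.eval_or, Fml.eval_not, Fml.eval_arr,
    Fml.eval_arr, CDat.c0, Bool.and_eq_true, Bool.or_eq_true, List.map_cons, List.map_nil,
    List.map_cons, List.map_nil, u1, u2, t2, v2]
  refine and_congr ?_ ?_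
  · have hmap : ∀ (b : Fin 5) (t : ℕ), (tx H b).map (update e (fv 1) t) = (tx H b).map e := by
      intro b t
      refine List.map_congr_left fun x hx => update_of_ne (fun h => ?_) _ _
      subst h
      exact fv_notMem (b := b) (mem_gp.2 (Or.inl (mem_tx.1 hx)))
    have hla : ∀ (b : Fin 5) (t : ℕ), update e (fv 1) t (la b) = e (la b) := by
      intro b t
      refine update_of_ne (fun h => ?_) _ _
      simp [fv, la] at h
    have hlt : ∀ t < N, ∀ x, update e (fv 1) t x < N := by
      intro t ht x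
      by_cases hx : x = fv 1
      · subst hx; rw [update_self]; exact ht
      · rw [update_of_ne hx]; exact he x
    have key : ∀ t < N, (Fml.eval N a (.and (.arr .out [fv 1])
        (chkF (la 0) (la 1) true (fv 1) (tx H 0) (tx H 1))) (update e (fv 1) t) = true ↔
          t = D.out ∧ D.chk (ts.getD H 0) (vs.getD H 0) true t (ts.take H) (vs.take H) = true) := by
      intro t ht
      rw [Fml.eval_and, Fml.eval_arr, eval_chkF ha (hlt t ht), hmap, hmap, hla, hla, t1, v1, t2,
        v2, update_self]
      simp only [List.map_cons, List.map_nil, update_self, ha.out t ht, decide_eq_true_eq]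
    constructor
    · rintro ⟨t, ht, h⟩
      obtain ⟨rfl, h⟩ := (key t ht).1 h
      exact h
    · intro h
      exact ⟨D.out, ha.lt, (key _ ha.lt).2 ⟨rfl, h⟩⟩
  · rw [Bool.not_eq_true', decide_eq_true_eq, decide_eq_false_iff_not]

/-! ### Chains -/

/-- Keep the existential choice number `j`. -/
def sO (j : Fin H) (s : Bool) : SChn (CL H) CW where
  con := tt0
  tms := (((gp H 0).take j.val).map .v ++ List.replicate (H + 1 - j.val) .zero) ++
    (tmr s (.inl (.inl (1, j))) :: List.replicate H .zero)

/-- Keep the selected input whose number is the variable `fv 0`. -/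
def sS (H : ℕ) (s : Bool) : SChn (CL H) CW where
  con := .eq (la 0) (fv 0)
  tms := List.replicate (H + 1) .zero ++ (tmr s (la 1) :: List.replicate H .zero)

/-- The selected inputs are increasing. -/
def sD (H : ℕ) : SChn (CL H) CW where
  con := .and (zeroVs (tx H 0)) (.arr .unit [la 0])
  tms := List.replicate (H + 1) .zero ++ (.v (la 1) :: .r (la 0) :: List.replicate (H - 1) .zero)

theorem map_zero {V : Type} {N : ℕ} {e : V → ℕ} (m : ℕ) :
    (List.replicate m (Tm.zero : Tm V)).map (Tm.val N e) = List.replicate m 0 := by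
  rw [List.map_replicate]; rfl

theorem repr_O (j : Fin H) (s : Bool) :
    Repr' N (H + 1) (H + 1) a (clay H) e (chO N H j.val s) (sO j s) := by
  refine ⟨?_, fun e' ts vs h1 h2 hA => ⟨?_, fun _ => ?_⟩⟩
  · simp only [sO, List.length_append, List.length_map, List.length_take, gp_length,
      List.length_replicate, List.length_cons]
    omega
  · simp only [sO, chO, eval_tt0]
  · have ht : (gp H 0).map e' = ts := hA.t
    have hv : (gp H 1).map e' = vs := hA.v
    have e1 : ((gp H 0).take j.val).map (Tm.val N e' ∘ Tm.v) = ts.take j.val := by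
      rw [← ht, ← List.map_take]
      rfl
    have e2 : vs.getD j.val 0 = e' (.inl (.inl (1, j))) := by
      rw [← hv, gp, List.map_append, List.getD_append _ _ _ _ (by simp [tx]),
        List.getD_eq_getElem _ _ (by simp [tx])]
      simp [tx]
    simp only [sO, chO, List.map_append, List.map_cons, List.map_map, e1, map_zero, tmr_val, e2]

theorem repr_S {i : ℕ} (s : Bool) (hi : e (fv 0) = i) :
    Repr' N (H + 1) (H + 1) a (clay H) e (chS N H i s) (sS H s) := by
  refine ⟨?_, fun e' ts vs h1 h2 hA => ⟨?_, fun _ => ?_⟩⟩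
  · simp only [sS, List.length_append, List.length_replicate, List.length_cons]
  · have ht := map_gp (b := 0) (e := e') (ts := ts) hA.t
    have hfv : e' (fv 0) = i := by
      rw [← hi]
      refine hA.out _ ?_
      simp only [clay, Lay.kd, List.mem_append, not_or]
      exact ⟨⟨fv_notMem, fv_notMem⟩, ⟨fv_notMem, fv_notMem⟩⟩
    rw [Bool.eq_iff_iff]
    simp only [sS, chS, Fml.eval_eq, ht.2, hfv, decide_eq_true_eq]
  · have hv := map_gp (b := 1) (e := e') (ts := vs) hA.v
    simp only [sS, chS, List.map_append, List.map_cons, map_zero, tmr_val, hv.2]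

theorem repr_D (ha : ArrOK N D a) (hH : 0 < H) :
    Repr' N (H + 1) (H + 1) a (clay H) e (D.chD N H) (sD H) := by
  refine ⟨?_, fun e' ts vs h1 h2 hA => ⟨?_, fun _ => ?_⟩⟩
  · simp only [sD, List.length_append, List.length_replicate, List.length_cons]
    omega
  · have ht := map_gp (b := 0) (e := e') (ts := ts) hA.t
    have u1 : a .unit [e' (la 0)] = decide (e' (la 0) < D.k) := ha.un _ (hA.lt _)
    rw [Bool.eq_iff_iff]
    simp only [sD, CDat.chD]
    rw [Fml.eval_and, Fml.eval_arr, List.map_cons, List.map_nil, u1, ht.2, Bool.and_eq_true,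
      decide_eq_true_eq, decide_eq_true_eq]
    refine and_congr_left fun _ => ?_
    rw [eval_zeroVs _ (fun x hx => by
      obtain ⟨j, rfl⟩ := mem_tx.1 hx
      simp) hA.lt, ← ht.1, List.eq_replicate_iff]
    constructor
    · intro h
      refine ⟨by simp [tx], fun b hb => ?_⟩
      obtain ⟨x, hx, rfl⟩ := List.mem_map.1 hb
      exact h x hx
    · intro h x hx
      exact h.2 _ (List.mem_map_of_mem hx)
  · have ht := map_gp (b := 0) (e := e') (ts := ts) hA.t
    have hv := map_gp (b := 1) (e := e') (ts := vs) hA.v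
    simp only [sD, CDat.chD, List.map_append, List.map_cons, map_zero, Tm.val, hv.2, ht.2]

/-! ### The program -/

/-- Fixed chains. -/
def sfix (H : ℕ) : List (SChn (CL H) CW) :=
  sD H :: (List.finRange H).flatMap fun j => [sO j false, sO j true]

/-- The program. -/
def progC (H : ℕ) : Stmt (Vr (CL H)) CW :=
  .seq (revP .rev (fv 1) (fv 2) (fv 3))
    (genP (clay H) (H + 1 + (H + 1)) .rev (c0F H)
      (.seq (seqs ((sfix H).map fun s => strP (clay H).kd (clay H).sd (s.fml .rev (clay H).sd)))
        (idxP (clay H) .rev (fv 0) (.arr .unit [fv 0]) [sS H false, sS H true])))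

theorem emits_progC (ha : ArrOK N D a) (hk : D.k ≤ N) (hH : 0 < H) (he : ∀ x, e x < N) :
    Emits N a (genP (clay H) (H + 1 + (H + 1)) .rev (c0F H)
      (.seq (seqs ((sfix H).map fun s => strP (clay H).kd (clay H).sd (s.fml .rev (clay H).sd)))
        (idxP (clay H) .rev (fv 0) (.arr .unit [fv 0]) [sS H false, sS H true]))) e
      (lcsw (target N (H + 1) (H + 1))
        (dstrings N (H + 1) (H + 1) (D.c0 H) (D.chains N H))) := by
  have hl := clay_ok H
  have hok := chains_ok (D := D) (N := N) hH
  refine emits_genP hl ha.rev (fun _ => he) (fun e' ts vs h1 h2 hA =>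
    eval_c0F ha hA.t hA.v hA.lt) ?_
  rw [CDat.chains, List.flatMap_append]
  refine Emits.seq ?_ ?_
  · refine emits_list hl ha.rev (fun _ => he) ?_ fun c hc => hok c ?_
    · refine List.Forall₂.cons (repr_D ha hH) ?_
      have h1 : List.range H = (List.finRange H).map (fun k => k.val) := by
        apply List.ext_getElem <;> simp
      rw [h1, List.flatMap_map]
      generalize List.finRange H = l
      induction l with
      | nil => exact .nil
      | cons j l ih =>
        rw [List.flatMap_cons, List.flatMap_cons]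
        exact .cons (repr_O j false) (.cons (repr_O j true) ih)
    · rw [CDat.chains, List.mem_append]
      exact Or.inl hc
  · refine emits_idxP hl ha.rev (fun _ => he) hk (fun i hi => ?_) (fun i hi => ?_)
      fun i hi c hc => hok c ?_
    · rw [Fml.eval_arr, List.map_cons, List.map_nil, update_self, ha.un i hi,
        decide_eq_true_eq]
    · exact .cons (repr_S false (by rw [update_self])) (.cons (repr_S true (by
        rw [update_self])) .nil)
    · rw [CDat.chains, List.mem_append]
      right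
      rw [List.mem_flatMap]
      exact ⟨i, List.mem_range.2 hi, hc⟩

/-! ### Well-formedness -/

theorem scope_gp {F : List (Vr (CL H))} (hF : Scope F) :
    Scope (((clay H).kd ++ (clay H).sd).reverse ++ F) := by
  refine scope_append (fun x hx => ?_) hF
  simp only [clay, Lay.kd, List.mem_append] at hx
  rcases hx with (hx | hx) | (hx | hx) <;> exact gp_inl hx

theorem kdsd_inl : ∀ x ∈ (clay H).kd ++ (clay H).sd, ∃ i, x = .inl i := by
  intro x hx
  simp only [clay, Lay.kd, List.mem_append] at hx
  rcases hx with (hx | hx) | (hx | hx) <;> exact gp_inl hx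

theorem mem_clay {F : List (Vr (CL H))} {x : Vr (CL H)} (h : x ∈ gp H 0 ∨ x ∈ gp H 1) :
    x ∈ ((clay H).kd ++ (clay H).sd).reverse ++ F ∧ x ∉ (clay H).sd := by
  simp only [clay, Lay.kd, List.reverse_append, List.mem_append, List.mem_reverse, not_or]
  refine ⟨by tauto, fun h2 => ?_, fun h2 => ?_⟩
  · rcases h with h | h <;> exact gp_disj (by decide) h h2
  · rcases h with h | h <;> exact gp_disj (by decide) h h2

theorem la_mem (b : Fin 5) : (la b : Vr (CL H)) ∈ gp H b := mem_gp.2 (Or.inr rfl)

theorem tx_mem (b : Fin 5) {x : Vr (CL H)} (h : x ∈ tx H b) : x ∈ gp H b :=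
  mem_gp.2 (Or.inl (mem_tx.1 h))

theorem ar_rev : CW.ar .rev = 2 := rfl

theorem wf_sfix {F : List (Vr (CL H))} (hF : Scope F) (hd : ∀ x ∈ (clay H).kd ++ (clay H).sd,
    x ∉ F) : ∀ s ∈ sfix H, (strP (clay H).kd (clay H).sd (s.fml .rev (clay H).sd)).wf CW.ar F =
      true := by
  have hsc := scope_gp (H := H) hF
  intro s hs
  refine wf_strP (clay_ok H).nd hd kdsd_inl hF (wf_fml ar_rev hsc (fun x hx => by
    simp only [List.reverse_append, List.mem_append, List.mem_reverse]
    exact Or.inl (Or.inl hx)) ?_ ?_)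
  · simp only [sfix, List.mem_cons, List.mem_flatMap] at hs
    rcases hs with rfl | ⟨j, -, hs⟩
    · refine wf_and (wf_zeroVs hsc fun x hx => (mem_clay (Or.inl (tx_mem 0 hx))).1) ?_
      simp only [Fml.wf, CW.ar, List.length_cons, List.length_nil, List.all_cons, List.all_nil,
        Bool.and_true, decide_true, Bool.true_and, decide_eq_true_eq]
      exact (mem_clay (Or.inl (la_mem 0))).1
    · simp only [List.mem_cons, List.not_mem_nil, or_false] at hs
      rcases hs with rfl | rfl <;> exact wf_tt0 hsc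
  · simp only [sfix, List.mem_cons, List.mem_flatMap] at hs
    rcases hs with rfl | ⟨j, -, hs⟩
    · intro t ht x hx
      simp only [sD, List.mem_append, List.mem_cons, List.mem_replicate] at ht
      rcases ht with ⟨-, rfl⟩ | rfl | rfl | ⟨-, rfl⟩
      · simp [Tm.vr] at hx
      · simp only [Tm.vr, List.mem_singleton] at hx
        rw [hx]; exact mem_clay (Or.inr (la_mem 1))
      · simp only [Tm.vr, List.mem_singleton] at hx
        rw [hx]; exact mem_clay (Or.inl (la_mem 0))
      · simp [Tm.vr] at hx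
    · have key : ∀ s', ∀ t ∈ (sO j s').tms, ∀ x ∈ t.vr,
          x ∈ ((clay H).kd ++ (clay H).sd).reverse ++ F ∧ x ∉ (clay H).sd := by
        intro s' t ht x hx
        simp only [sO, List.mem_append, List.mem_cons, List.mem_replicate, List.mem_map] at ht
        rcases ht with (⟨y, hy, rfl⟩ | ⟨-, rfl⟩) | rfl | ⟨-, rfl⟩
        · simp only [Tm.vr, List.mem_singleton] at hx
          rw [hx]; exact mem_clay (Or.inl (List.mem_of_mem_take hy))
        · simp [Tm.vr] at hx
        · rw [tmr_vr, List.mem_singleton] at hx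
          rw [hx]; exact mem_clay (Or.inr (mem_gp.2 (Or.inl ⟨j, rfl⟩)))
        · simp [Tm.vr] at hx
      simp only [List.mem_cons, List.not_mem_nil, or_false] at hs
      rcases hs with rfl | rfl <;> exact key _

theorem wf_sS {F : List (Vr (CL H))} (hF : Scope F) (hfv : fv 0 ∈ F)
    (hd : ∀ x ∈ (clay H).kd ++ (clay H).sd, x ∉ F) (s : Bool) :
    (strP (clay H).kd (clay H).sd ((sS H s).fml .rev (clay H).sd)).wf CW.ar F = true := by
  have hsc := scope_gp (H := H) hF
  refine wf_strP (clay_ok H).nd hd kdsd_inl hF (wf_fml ar_rev hsc (fun x hx => by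
    simp only [List.reverse_append, List.mem_append, List.mem_reverse]
    exact Or.inl (Or.inl hx)) ?_ ?_)
  · exact wf_eq (mem_clay (Or.inl (la_mem 0))).1 (List.mem_append_right _ hfv) (by
      simp [la, fv])
  · intro t ht x hx
    simp only [sS, List.mem_append, List.mem_cons, List.mem_replicate] at ht
    rcases ht with ⟨-, rfl⟩ | rfl | ⟨-, rfl⟩
    · simp [Tm.vr] at hx
    · rw [tmr_vr, List.mem_singleton] at hx
      rw [hx]; exact mem_clay (Or.inr (la_mem 1))
    · simp [Tm.vr] at hx

theorem wf_c0F {F : List (Vr (CL H))} (hF : Scope F) (hfv : ∀ j, fv j ∉ F) :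
    (c0F H).wf CW.ar (((clay H).kd ++ (clay H).sd).reverse ++ F) = true := by
  have hsc := scope_gp (H := H) hF
  have h1 := fun (F : List (Vr (CL H))) => (mem_clay (F := F) (Or.inl (la_mem (H := H) 0))).1
  have h2 := fun (F : List (Vr (CL H))) => (mem_clay (F := F) (Or.inr (la_mem (H := H) 1))).1
  have hfv' : fv 1 ∉ ((clay H).kd ++ (clay H).sd).reverse ++ F := by
    simp only [clay, Lay.kd, List.reverse_append, List.mem_append, List.mem_reverse, not_or]
    exact ⟨⟨⟨fv_notMem, fv_notMem⟩, ⟨fv_notMem, fv_notMem⟩⟩, hfv 1⟩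
  have hsc' : Scope (fv 1 :: (((clay H).kd ++ (clay H).sd).reverse ++ F)) := by
    intro i hi
    rcases List.mem_cons.1 hi with h | h
    · simp [fv] at h
    · exact hsc i h
  refine wf_and ?_ (wf_or (wf_not ?_) ?_)
  · simp only [Fml.wf, Bool.and_eq_true, decide_eq_true_eq]
    refine ⟨hfv', ?_, ?_⟩
    · simp [CW.ar]
    · refine wf_chkF hsc' (List.mem_cons_of_mem _ (h1 F)) (List.mem_cons_of_mem _ (h2 F)) _ _
        List.mem_cons_self (by simp [la, fv]) _ _ (fun x hx => ⟨List.mem_cons_of_mem _
          (mem_clay (Or.inl (tx_mem 0 hx))).1, ?_⟩) (fun x hx => ⟨List.mem_cons_of_mem _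
          (mem_clay (Or.inr (tx_mem 1 hx))).1, ?_, ?_⟩)
      · obtain ⟨j, rfl⟩ := mem_tx.1 hx
        simp [la]
      · obtain ⟨j, rfl⟩ := mem_tx.1 hx
        simp [la]
      · obtain ⟨j, rfl⟩ := mem_tx.1 hx
        simp [la]
  · simp only [Fml.wf, CW.ar, List.length_cons, List.length_nil, List.all_cons, List.all_nil,
        Bool.and_true, decide_true, Bool.true_and, decide_eq_true_eq]
    exact h1 F
  · simp only [Fml.wf, CW.ar, List.length_cons, List.length_nil, List.all_cons, List.all_nil,
        Bool.and_true, decide_true, Bool.true_and, decide_eq_true_eq]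
    exact h2 F

theorem wf_genP {L W : Type} [DecidableEq L] [DecidableEq W] {ar : W → ℕ} {l : Lay L}
    {m1 m2 : ℕ} (hl : l.OK m1 m2) (hi : ∀ x ∈ l.kd ++ l.sd, ∃ i, x = .inl i)
    (ho : l.od.Nodup) (hod : ∀ x ∈ l.od, x ∉ l.kd ++ l.sd) (hox : ∀ x ∈ l.od, ∃ i, x = .inl i)
    {rw' : W} (har : ar rw' = 2) {φ : Fml (Vr L) W}
    (hφ : φ.wf ar ((l.kd ++ l.sd).reverse ++ []) = true) {rest : Stmt (Vr L) W}
    (hr : rest.wf ar [] = true) : (genP l (m1 + m2) rw' φ rest).wf ar [] = true := by
  have h0 : Scope ([] : List (Vr L)) := fun i hi => by simp at hi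
  have hsc := scope_append hi h0
  have hd : ∀ x ∈ l.kd ++ l.sd, x ∉ ([] : List (Vr L)) := fun x _ => by simp
  have hsd : ∀ x ∈ l.sd, x ∈ (l.kd ++ l.sd).reverse ++ [] := fun x hx => by
    simp only [List.append_nil, List.mem_reverse, List.mem_append]
    exact Or.inr hx
  have htv : l.tv.Nodup := by
    have := (List.nodup_append.1 hl.nd).1
    rw [Lay.kd] at this
    exact (List.nodup_append.1 this).1
  simp only [genP, Stmt.wf, Bool.and_eq_true]
  refine ⟨wf_loops _ _ hl.nd hd (wf_em hsc _), wf_loops _ _ htv (fun x _ => by simp)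
    (wf_em (scope_append (fun x hx => hi x ?_) h0) _), wf_em h0 _,
    wf_str0P hl.nd hd hi h0 (wf_and (wf_eqTms har hsc _ hsd _ fun t ht x hx => ?_) hφ),
    wf_uniP hl.nd hd hi h0 ho (fun x hx => ⟨by simp, hod x hx⟩) hox,
    wf_strP hl.nd hd hi h0 (wf_eqTms har hsc _ hsd _ fun t ht x hx => ?_), hr⟩
  · rw [Lay.kd]
    exact List.mem_append_left _ (List.mem_append_left _ hx)
  · rw [(List.mem_replicate.1 ht).2] at hx
    simp [Tm.vr] at hx
  · have hxk : x ∈ l.kd := by
      rw [Lay.kd]
      rcases List.mem_append.1 ht with ht | ht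
      · obtain ⟨y, hy, rfl⟩ := List.mem_map.1 ht
        simp only [Tm.vr, List.mem_singleton] at hx
        rw [hx]; exact List.mem_append_left _ hy
      · obtain ⟨y, hy, rfl⟩ := List.mem_map.1 ht
        simp only [Tm.vr, List.mem_singleton] at hx
        rw [hx]; exact List.mem_append_right _ hy
    refine ⟨?_, fun hxs => (List.nodup_append.1 hl.nd).2.2 x hxk x hxs rfl⟩
    simp only [List.append_nil, List.mem_reverse, List.mem_append]
    exact Or.inl hxk

theorem progC_wf (H : ℕ) : (progC H).wf CW.ar [] = true := by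
  have h0 : Scope ([] : List (Vr (CL H))) := fun i hi => by simp at hi
  have hne : ∀ i j : Fin 4, i ≠ j → (fv i : Vr (CL H)) ≠ fv j := fun i j h h' => by
    simp only [fv, Sum.inl.injEq, Sum.inr.injEq] at h'
    exact h h'
  have hd : ∀ x ∈ (clay H).kd ++ (clay H).sd, x ∉ ([] : List (Vr (CL H))) := fun x _ => by simp
  simp only [progC, Stmt.wf, Bool.and_eq_true]
  refine ⟨wf_revP ar_rev h0 (hne _ _ (by decide)) (hne _ _ (by decide)) (hne _ _ (by decide))
    (by simp) (by simp) (by simp) ⟨_, rfl⟩ ⟨_, rfl⟩, wf_genP (clay_ok H) kdsd_inl (gp_nodup _)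
    (fun x hx hx' => ?_) (fun x hx => gp_inl hx) ar_rev (wf_c0F h0 fun j => by simp) ?_⟩
  · simp only [clay, Lay.kd, List.mem_append] at hx hx'
    rcases hx' with (h | h) | (h | h) <;> exact gp_disj (by decide) hx h
  · simp only [Stmt.wf, Bool.and_eq_true, idxP, Cond.wf, decide_eq_true_eq]
    refine ⟨wf_seqs _ fun s hs => ?_, by simp, ⟨?_, wf_seqs _ fun s hs => ?_⟩, ?_⟩
    · obtain ⟨t, ht, rfl⟩ := List.mem_map.1 hs
      exact wf_sfix h0 hd t ht
    · simp [Fml.wf, CW.ar]
    · obtain ⟨t, ht, rfl⟩ := List.mem_map.1 hs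
      have h1 : Scope ([fv 0] : List (Vr (CL H))) := fun i hi => by
        simp [fv] at hi
      have hd' : ∀ x ∈ (clay H).kd ++ (clay H).sd, x ∉ ([fv 0] : List (Vr (CL H))) := by
        intro x hx hx'
        rw [List.mem_singleton] at hx'
        subst hx'
        simp only [clay, Lay.kd, List.mem_append] at hx
        rcases hx with (h | h) | (h | h) <;> exact fv_notMem h
      simp only [List.mem_cons, List.not_mem_nil, or_false] at ht
      rcases ht with rfl | rfl
      · exact wf_sS h1 (by simp) hd' _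
      · exact wf_sS h1 (by simp) hd' _
    · trivial

end

end Pool.Agent.Lib.MP_58f141_lc
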