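import Pool.Agent.Lib.MP_58f141_lc.Pre

/-! # Chains given by arbitrary formulas -/

namespace Pool.Agent.Lib.MP_58f141_lc

set_option linter.unusedSimpArgs false
set_option linter.unusedVariables false
set_option linter.unusedSectionVars false

open scoped List
open Function
open Pool.Agent.Lib.PolyTM

variable {L W : Type} [DecidableEq L] [DecidableEq W] {N : ℕ} {a : Arr W} {e : Vr L → ℕ}

/-- A formula describes the bits of a chain. -/
def ReprF (N m1 m2 : ℕ) (a : Arr W) (l : Lay L) (e : Vr L → ℕ) (c : DChn)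
    (φ : Fml (Vr L) W) : Prop :=
  ∀ e' ts vs us, OKt N m1 ts → OKt N m2 vs → OKt N (m1 + m2) us → Ag N l e e' ts vs →
    l.sd.map e' = us → φ.eval N a e' = c.bit ts vs us

section

variable {l : Lay L} {m1 m2 : ℕ} (hl : l.OK m1 m2)

include hl

/-- The word of the string of a chain. -/
theorem emits_chainF (he : 0 < N → ∀ x, e x < N) {c : DChn}
    {φ : Fml (Vr L) W} (hs : ReprF N m1 m2 a l e c φ)
    (hF : ∀ ts vs, OKt N m1 ts → OKt N m2 vs → c.con ts = true → OKt N (m1 + m2) (c.F ts vs)) :
    Emits N a (strP l.kd l.sd φ) e (chw N m1 m2 c) := by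
  rw [chw, ← hl.kdl]
  refine emits_strP (List.nodup_append.1 hl.nd).1 (by rw [hl.kdl]; have := hl.pos; omega)
    (fun x hx => hl.zv x (List.mem_append_left _ hx)) he (by rw [hl.pow, hl.kdl]) fun ts' hts' => ?_
  obtain ⟨ts, vs, us, rfl, h1, h2, h3, h4, h5, hN⟩ := hl.env hts' he
  rw [hl.kdl, bit_num h1 h2 h3 (hF ts vs h1 h2)]
  exact hs _ ts vs us h1 h2 h3 h4 h5

theorem emits_listF (he : 0 < N → ∀ x, e x < N)
    {cs : List DChn} {ss : List (Fml (Vr L) W)} (h : List.Forall₂ (ReprF N m1 m2 a l e) cs ss)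
    (hF : ∀ c ∈ cs, ∀ ts vs, OKt N m1 ts → OKt N m2 vs → c.con ts = true →
      OKt N (m1 + m2) (c.F ts vs)) :
    Emits N a (seqs (ss.map fun φ => strP l.kd l.sd φ)) e
      (cs.flatMap (chw N m1 m2)) := by
  induction h with
  | nil => exact Emits.skip
  | @cons c s cs ss h1 h2 ih =>
    rw [List.map_cons, PolyTM.seqs, List.flatMap_cons]
    exact (emits_chainF hl he h1 (hF c List.mem_cons_self)).seq
      (ih fun c hc => hF c (List.mem_cons_of_mem _ hc))

omit hl in
/-- Chains indexed by numbers below a bound. -/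
def _root_.Pool.Agent.Lib.MP_58f141_lc.idxQ (l : Lay L) (ι : Vr L)
    (g : Fml (Vr L) W) (ss : List (Fml (Vr L) W)) : Stmt (Vr L) W :=
  .loop ι (.ite (.fml g) (seqs (ss.map fun φ => strP l.kd l.sd φ)) .skip)

theorem emits_idxQ (he : 0 < N → ∀ x, e x < N) {ι : Vr L}
    {g : Fml (Vr L) W} {ss : List (Fml (Vr L) W)} {K : ℕ} (hK : K ≤ N) {cf : ℕ → List DChn}
    (hg : ∀ i < N, (g.eval N a (update e ι i) = true ↔ i < K))
    (h : ∀ i < K, List.Forall₂ (ReprF N m1 m2 a l (update e ι i)) (cf i) ss)
    (hF : ∀ i < K, ∀ c ∈ cf i, ∀ ts vs, OKt N m1 ts → OKt N m2 vs → c.con ts = true →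
      OKt N (m1 + m2) (c.F ts vs)) :
    Emits N a (idxQ l ι g ss) e
      (((List.range K).flatMap cf).flatMap (chw N m1 m2)) := by
  have h1 := Emits.loop (N := N) (a := a) (x := ι) (e := e)
    (s := (.ite (.fml g) (seqs (ss.map fun φ => strP l.kd l.sd φ)) .skip :
      Stmt (Vr L) W))
    (f := fun i => if i < K then (cf i).flatMap (chw N m1 m2) else []) (fun i hi => by
      refine Emits.ite ?_
      simp only [Cond.eval]
      by_cases hiK : i < K
      · rw [if_pos ((hg i hi).2 hiK), if_pos hiK]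
        exact emits_listF hl (fun hN x => by
          by_cases hx : x = ι
          · subst hx; rw [update_self]; exact hi
          · rw [update_of_ne hx]; exact he hN x) (h i hiK) (hF i hiK)
      · rw [if_neg (fun hc => hiK ((hg i hi).1 hc)), if_neg hiK]
        exact Emits.skip)
  have h2 : (List.range N).flatMap (fun i => if i < K then (cf i).flatMap (chw N m1 m2) else []) =
      ((List.range K).flatMap cf).flatMap (chw N m1 m2) := by
    obtain ⟨d, rfl⟩ : ∃ d, N = K + d := ⟨N - K, by omega⟩
    rw [List.range_add, List.flatMap_append, List.flatMap_assoc]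
    have e1 : (List.range K).flatMap
        (fun i => if i < K then (cf i).flatMap (chw (K + d) m1 m2) else []) =
        (List.range K).flatMap fun i => (cf i).flatMap (chw (K + d) m1 m2) :=
      List.flatMap_congr fun i hi => by rw [if_pos (List.mem_range.1 hi)]
    have e2 : ((List.range d).map fun x => K + x).flatMap
        (fun i => if i < K then (cf i).flatMap (chw (K + d) m1 m2) else []) = [] := by
      rw [List.flatMap_map, List.flatMap_eq_nil_iff]
      intro x _
      rw [if_neg (by omega)]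
    rw [e1, e2, List.append_nil]
  rw [← h2]
  exact h1

end

end Pool.Agent.Lib.MP_58f141_lc
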