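import Pool.Agent.Lib.MP_58f141_lc.ChainSem
import Pool.Agent.Lib.MP_58f141_lc.Gen3
import Pool.Agent.Lib.MP_58f141_lc.CircProg

/-! # The program for chained multicoloured clique -/

namespace Pool.Agent.Lib.MP_58f141_lc

set_option linter.unusedSimpArgs false
set_option linter.unusedVariables false
set_option linter.unusedSectionVars false

open scoped List
open Function
open Pool.Agent.Lib.PolyTM

/-- Arrays: reversal, parity, adjacency, levels, colours, number of levels, of colours. -/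
inductive GW
  | rev
  | par
  | adj
  | lev
  | col
  | ulev
  | ucol
  deriving DecidableEq, Fintype

/-- Arities. -/
def GW.ar : GW → ℕ
  | .rev => 2
  | .par => 1
  | .adj => 2
  | .lev => 2
  | .col => 2
  | .ulev => 1
  | .ucol => 1

/-- Variables. -/
abbrev GV : Type := Vr (Fin 23)

/-- A variable. -/
abbrev gx (i : Fin 23) : GV := .inl i

/-- The layout. -/
def glay : Lay (Fin 23) :=
  ⟨[gx 0, gx 1, gx 2, gx 3, gx 4], [gx 5, gx 6],
    [gx 7, gx 8, gx 9, gx 10, gx 11, gx 12, gx 13],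
    [gx 14, gx 15, gx 16, gx 17, gx 18]⟩

theorem glay_ok : glay.OK 5 2 := by
  constructor
  · decide
  · decide
  · rfl
  · rfl
  · rfl
  · rfl
  · omega

/-- Level `y` is present in phase `l`. -/
def actF (l y : GV) : Fml GV GW :=
  .and (.or (.eq y l) (sucD (.x l) (.x y))) (.arr .ulev [y])

/-- Parity. -/
def parF : Bool → GV → Fml GV GW
  | true, y => .arr .par [y]
  | false, y => .not (.arr .par [y])

/-- The first vertex has the colour `gx 19` and the parity `β`. -/
def fstF (β : Bool) : Fml GV GW :=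
  .and (.and (actF (gx 0) (gx 1)) (parF β (gx 1))) (.eq (gx 2) (gx 19))

/-- The second vertex has the colour `gx 19` and the parity `β`. -/
def sndF (β : Bool) : Fml GV GW :=
  .and (.and (actF (gx 0) (gx 3)) (parF β (gx 3))) (.eq (gx 4) (gx 19))

/-- Terms of a chain. -/
def tmsG (s : Bool) (y b : GV) : List (Tm GV) :=
  [.v y, .zero, .zero, .zero, .zero, tmr s b, .zero]

/-- The formula of a chain. -/
def chF (β s : Bool) : Fml GV GW :=
  .or (.not (.or (fstF β) (sndF β)))
    (.or (.and (fstF β) (eqTms .rev glay.sd (tmsG s (gx 1) (gx 5))))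
      (.and (.not (fstF β)) (eqTms .rev glay.sd (tmsG s (gx 3) (gx 6)))))

/-- Allowed values. -/
def c0G : Fml GV GW :=
  .or (.not (.and (.and (.and (actF (gx 0) (gx 1)) (actF (gx 0) (gx 3)))
      (.arr .ucol [gx 2])) (.arr .ucol [gx 4])))
    (.and (.and (.arr .lev [gx 5, gx 1]) (.arr .col [gx 5, gx 2]))
      (.or (.and (.and (.eq (gx 1) (gx 3)) (.eq (gx 2) (gx 4))) (.eq (gx 5) (gx 6)))
        (.and (.not (.and (.eq (gx 1) (gx 3)) (.eq (gx 2) (gx 4)))) (.arr .adj [gx 5, gx 6]))))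

/-- The arrays hold the data. -/
structure ArrG (N : ℕ) (D : Dat) (a : Arr GW) : Prop where
  rev : RevOK N a .rev
  par : ∀ t < N, a .par [t] = decide (t % 2 = 1)
  adj : ∀ x y, x < N → y < N → a .adj [x, y] = D.ad x y
  lev : ∀ x y, x < N → y < N → a .lev [x, y] = D.lv x y
  col : ∀ x y, x < N → y < N → a .col [x, y] = D.co x y
  ulev : ∀ x, x < N → a .ulev [x] = decide (x < D.r)
  ucol : ∀ x, x < N → a .ucol [x] = decide (x < D.K)

variable {N : ℕ} {D : Dat} {a : Arr GW} {e e' : GV → ℕ}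

theorem eval_actF (ha : ArrG N D a) (he : ∀ x, e x < N) {i j : Fin 23} (hij : i ≠ j) :
    (actF (gx i) (gx j)).eval N a e = D.act (e (gx i)) (e (gx j)) := by
  rw [Bool.eq_iff_iff, act_iff, actF, Fml.eval_and, Fml.eval_or, Fml.eval_eq,
    eval_sucD (d := .x (gx i)) (d' := .x (gx j)) ⟨⟨_, rfl⟩, ⟨_, rfl⟩, by simpa using hij⟩ (he _),
    Fml.eval_arr, List.map_cons, List.map_nil, ha.ulev _ (he _), decide_eq_true_eq]
  simp only [Dg.val]
  constructor
  · rintro ⟨h1 | h1, h2⟩
    · exact ⟨Or.inl h1, h2⟩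
    · exact ⟨Or.inr h1.symm, h2⟩
  · rintro ⟨h1 | h1, h2⟩
    · exact ⟨Or.inl h1, h2⟩
    · exact ⟨Or.inr h1.symm, h2⟩

theorem eval_parF (ha : ArrG N D a) (he : ∀ x, e x < N) (β : Bool) (x : GV) :
    (parF β x).eval N a e = decide (e x % 2 = β.toNat) := by
  rw [Bool.eq_iff_iff, decide_eq_true_eq]
  cases β with
  | true =>
    rw [parF, Fml.eval_arr, List.map_cons, List.map_nil, ha.par _ (he _), decide_eq_true_eq]
    rfl
  | false =>
    rw [parF, Fml.eval_not, Fml.eval_arr, List.map_cons, List.map_nil, ha.par _ (he _),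
      decide_eq_true_eq]
    simp only [Bool.toNat_false]
    omega

theorem eval_fstF (ha : ArrG N D a) (he : ∀ x, e x < N) (β : Bool) :
    (fstF β).eval N a e = D.fst β.toNat (e (gx 19))
      [e (gx 0), e (gx 1), e (gx 2), e (gx 3), e (gx 4)] := by
  rw [Bool.eq_iff_iff, fstF, Fml.eval_and, Fml.eval_and, eval_actF ha he (by decide),
    eval_parF ha he, Fml.eval_eq]
  simp only [Dat.fst, Bool.and_eq_true, decide_eq_true_eq]

theorem eval_sndF (ha : ArrG N D a) (he : ∀ x, e x < N) (β : Bool) :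
    (sndF β).eval N a e = D.snd β.toNat (e (gx 19))
      [e (gx 0), e (gx 1), e (gx 2), e (gx 3), e (gx 4)] := by
  rw [Bool.eq_iff_iff, sndF, Fml.eval_and, Fml.eval_and, eval_actF ha he (by decide),
    eval_parF ha he, Fml.eval_eq]
  simp only [Dat.snd, Bool.and_eq_true, decide_eq_true_eq]

theorem eval_c0G (ha : ArrG N D a) (he : ∀ x, e x < N) :
    c0G.eval N a e = D.c0 [e (gx 0), e (gx 1), e (gx 2), e (gx 3), e (gx 4)]
      [e (gx 5), e (gx 6)] := by
  rw [Bool.eq_iff_iff]
  simp only [c0G, Fml.eval_or, Fml.eval_and, Fml.eval_not, eval_actF ha he (show (0 : Fin 23) ≠ 1 by decide),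
    eval_actF ha he (show (0 : Fin 23) ≠ 3 by decide), Fml.eval_eq, Fml.eval_arr, List.map_cons,
    List.map_nil, ha.ucol _ (he _), ha.lev _ _ (he _) (he _), ha.col _ _ (he _) (he _),
    ha.adj _ _ (he _) (he _), Dat.c0, Bool.or_eq_true, Bool.and_eq_true, Bool.not_eq_true',
    decide_eq_true_eq]
  refine or_congr ?_ (and_congr_right fun _ => ?_)
  · rw [← Bool.not_eq_true]
    simp only [Bool.and_eq_true, decide_eq_true_eq]
  · by_cases h : e (gx 1) = e (gx 3) ∧ e (gx 2) = e (gx 4)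
    · rw [if_pos h, decide_eq_true_eq]
      tauto
    · rw [if_neg h]
      tauto

theorem tmsG_val (s : Bool) (y b : GV) :
    (tmsG s y b).map (Tm.val N e) = [e y, 0, 0, 0, 0] ++ [rv N s (e b), 0] := by
  simp only [tmsG, List.map_cons, List.map_nil, tmr_val]
  rfl

theorem repr_ch (ha : ArrG N D a) {κ : ℕ} (hκ : e (gx 19) = κ) (β s : Bool) :
    ReprF N 5 2 a glay e (D.ch N β.toNat κ s) (chF β s) := by
  intro e' ts vs us h1 h2 h3 hA hu
  have ht : ts = [e' (gx 0), e' (gx 1), e' (gx 2), e' (gx 3), e' (gx 4)] := hA.t.symm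
  have hv : vs = [e' (gx 5), e' (gx 6)] := hA.v.symm
  have h19 : e' (gx 19) = κ := by
    rw [← hκ]
    exact hA.out _ (by simp [glay, Lay.kd])
  have hf := eval_fstF (e := e') ha hA.lt β
  have hs := eval_sndF (e := e') ha hA.lt β
  rw [h19, ← ht] at hf hs
  have hz : ∀ u ∈ glay.sd, u ≠ zv 0 := fun u hu => glay_ok.zv u (List.mem_append_right _ hu)
  rw [Bool.eq_iff_iff, chF, Fml.eval_or, Fml.eval_not, Fml.eval_or, Fml.eval_or, Fml.eval_and,
    Fml.eval_and, Fml.eval_not, eval_eqTms ha.rev hA.lt _ hz _ rfl,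
    eval_eqTms ha.rev hA.lt _ hz _ rfl, hf, hs, hu, tmsG_val, tmsG_val, DChn.bit]
  have e1 : ts.getD 1 0 = e' (gx 1) := by rw [ht]; rfl
  have e2 : ts.getD 3 0 = e' (gx 3) := by rw [ht]; rfl
  have e3 : vs.getD 0 0 = e' (gx 5) := by rw [hv]; rfl
  have e4 : vs.getD 1 0 = e' (gx 6) := by rw [hv]; rfl
  simp only [Dat.ch, e1, e2, e3, e4]
  cases hf' : D.fst β.toNat κ ts <;> cases hs' : D.snd β.toNat κ ts <;> simp

/-- The main part of the program. -/
def mainG : Stmt GV GW :=
  genP glay (5 + 2) .rev c0G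
    (.seq (idxQ glay (gx 19) (.arr .ucol [gx 19]) [chF false false, chF false true])
      (idxQ glay (gx 19) (.arr .ucol [gx 19]) [chF true false, chF true true]))

/-- The program. -/
def progG : Stmt GV GW :=
  .seq (revP .rev (gx 20) (gx 21) (gx 22)) (.seq (parP .par (gx 20) (gx 21)) mainG)

theorem emits_mainG (ha : ArrG N D a) (hK : D.K ≤ N) (he : 0 < N → ∀ x, e x < N) :
    Emits N a mainG e (lcsw (target N 5 2) (dstrings N 5 2 D.c0 (D.chains N))) := by
  have hok := chains5_ok (D := D) (N := N)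
  refine emits_genP glay_ok ha.rev he (fun e' ts vs h1 h2 hA => ?_) ?_
  · rw [eval_c0G ha hA.lt]
    have ht : ts = [e' (gx 0), e' (gx 1), e' (gx 2), e' (gx 3), e' (gx 4)] := hA.t.symm
    have hv : vs = [e' (gx 5), e' (gx 6)] := hA.v.symm
    rw [ht, hv]
  · rw [Dat.chains, List.flatMap_append]
    refine Emits.seq ?_ ?_
    · refine emits_idxQ glay_ok he hK (fun i hi => ?_) (fun i hi => ?_) fun i hi c hc => hok c ?_
      · rw [Fml.eval_arr, List.map_cons, List.map_nil, update_self, ha.ucol i hi,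
          decide_eq_true_eq]
      · exact .cons (repr_ch ha (by rw [update_self]) false false)
          (.cons (repr_ch ha (by rw [update_self]) false true) .nil)
      · rw [Dat.chains, List.mem_append]
        left
        rw [List.mem_flatMap]
        exact ⟨i, List.mem_range.2 hi, hc⟩
    · refine emits_idxQ glay_ok he hK (fun i hi => ?_) (fun i hi => ?_) fun i hi c hc => hok c ?_
      · rw [Fml.eval_arr, List.map_cons, List.map_nil, update_self, ha.ucol i hi,
          decide_eq_true_eq]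
      · exact .cons (repr_ch ha (by rw [update_self]) true false)
          (.cons (repr_ch ha (by rw [update_self]) true true) .nil)
      · rw [Dat.chains, List.mem_append]
        right
        rw [List.mem_flatMap]
        exact ⟨i, List.mem_range.2 hi, hc⟩

/-! ### Well-formedness -/

theorem glay_inl : ∀ x ∈ glay.kd ++ glay.sd, ∃ i, x = .inl i := by
  intro x hx
  simp only [glay, Lay.kd, List.cons_append, List.nil_append, List.mem_cons, List.not_mem_nil,
    or_false] at hx
  rcases hx with rfl | rfl | rfl | rfl | rfl | rfl | rfl | rfl | rfl | rfl | rfl | rfl | rfl |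
    rfl <;> exact ⟨_, rfl⟩

theorem wf_actF {F : List GV} (hF : Scope F) {i j : Fin 23} (hij : i ≠ j) (hi : gx i ∈ F)
    (hj : gx j ∈ F) : (actF (gx i) (gx j)).wf GW.ar F = true := by
  refine wf_and (wf_or (wf_eq hj hi (by simpa using hij.symm)) (wf_sucD hF ⟨⟨_, rfl⟩, ⟨_, rfl⟩,
    by simpa using hij⟩ (fun y hy => by simp at hy; simpa [hy] using hi)
      (fun y hy => by simp at hy; simpa [hy] using hj))) ?_
  simp [Fml.wf, GW.ar, hj]

theorem wf_parF {F : List GV} (β : Bool) {x : GV} (hx : x ∈ F) :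
    (parF β x).wf GW.ar F = true := by
  cases β <;> simp [parF, Fml.wf, GW.ar, hx]

theorem wf_c0G {F : List GV} (hF : Scope F) (h : ∀ x ∈ glay.kd, x ∈ F) :
    c0G.wf GW.ar F = true := by
  have h0 := h (gx 0) (by simp [glay, Lay.kd])
  have h1 := h (gx 1) (by simp [glay, Lay.kd])
  have h2 := h (gx 2) (by simp [glay, Lay.kd])
  have h3 := h (gx 3) (by simp [glay, Lay.kd])
  have h4 := h (gx 4) (by simp [glay, Lay.kd])
  have h5 := h (gx 5) (by simp [glay, Lay.kd])
  have h6 := h (gx 6) (by simp [glay, Lay.kd])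
  have a1 := wf_actF hF (show (0 : Fin 23) ≠ 1 by decide) h0 h1
  have a2 := wf_actF hF (show (0 : Fin 23) ≠ 3 by decide) h0 h3
  have b1 : (Fml.arr GW.ucol [gx 2]).wf GW.ar F = true := by simp [Fml.wf, GW.ar, h2]
  have b2 : (Fml.arr GW.ucol [gx 4]).wf GW.ar F = true := by simp [Fml.wf, GW.ar, h4]
  have b3 : (Fml.arr GW.lev [gx 5, gx 1]).wf GW.ar F = true := by simp [Fml.wf, GW.ar, h5, h1]
  have b4 : (Fml.arr GW.col [gx 5, gx 2]).wf GW.ar F = true := by simp [Fml.wf, GW.ar, h5, h2]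
  have b5 : (Fml.arr GW.adj [gx 5, gx 6]).wf GW.ar F = true := by simp [Fml.wf, GW.ar, h5, h6]
  have c1 : (Fml.eq (gx 1) (gx 3) : Fml GV GW).wf GW.ar F = true := wf_eq h1 h3 (by decide)
  have c2 : (Fml.eq (gx 2) (gx 4) : Fml GV GW).wf GW.ar F = true := wf_eq h2 h4 (by decide)
  have c3 : (Fml.eq (gx 5) (gx 6) : Fml GV GW).wf GW.ar F = true := wf_eq h5 h6 (by decide)
  exact wf_or (wf_not (wf_and (wf_and (wf_and a1 a2) b1) b2))
    (wf_and (wf_and b3 b4) (wf_or (wf_and (wf_and c1 c2) c3)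
      (wf_and (wf_not (wf_and c1 c2)) b5)))

theorem wf_chF {F : List GV} (hF : Scope F) (h : ∀ x ∈ glay.kd ++ glay.sd, x ∈ F)
    (h19 : gx 19 ∈ F) (β s : Bool) : (chF β s).wf GW.ar F = true := by
  have h0 := h (gx 0) (by simp [glay, Lay.kd])
  have h1 := h (gx 1) (by simp [glay, Lay.kd])
  have h2 := h (gx 2) (by simp [glay, Lay.kd])
  have h3 := h (gx 3) (by simp [glay, Lay.kd])
  have h4 := h (gx 4) (by simp [glay, Lay.kd])
  have h5 := h (gx 5) (by simp [glay, Lay.kd])
  have h6 := h (gx 6) (by simp [glay, Lay.kd])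
  have a1 := wf_actF hF (show (0 : Fin 23) ≠ 1 by decide) h0 h1
  have a2 := wf_actF hF (show (0 : Fin 23) ≠ 3 by decide) h0 h3
  have b1 : (fstF β).wf GW.ar F = true :=
    wf_and (wf_and a1 (wf_parF β h1)) (wf_eq h2 h19 (by decide))
  have b2 : (sndF β).wf GW.ar F = true :=
    wf_and (wf_and a2 (wf_parF β h3)) (wf_eq h4 h19 (by decide))
  have key : ∀ y b : GV, y ∈ F → y ∉ glay.sd → b ∈ F → b ∉ glay.sd →
      (eqTms GW.rev glay.sd (tmsG s y b) : Fml GV GW).wf GW.ar F = true := by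
    intro y b hy hy' hb hb'
    refine wf_eqTms (rw' := GW.rev) rfl hF _ (fun u hu => h u (List.mem_append_right _ hu)) _ fun t ht x hx => ?_
    simp only [tmsG, List.mem_cons, List.not_mem_nil, or_false] at ht
    rcases ht with rfl | rfl | rfl | rfl | rfl | rfl | rfl
    · simp only [Tm.vr, List.mem_singleton] at hx
      rw [hx]; exact ⟨hy, hy'⟩
    · simp [Tm.vr] at hx
    · simp [Tm.vr] at hx
    · simp [Tm.vr] at hx
    · simp [Tm.vr] at hx
    · rw [tmr_vr, List.mem_singleton] at hx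
      rw [hx]; exact ⟨hb, hb'⟩
    · simp [Tm.vr] at hx
  exact wf_or (wf_not (wf_or b1 b2)) (wf_or (wf_and b1 (key _ _ h1 (by simp [glay]) h5 (by simp [glay])))
    (wf_and (wf_not b1) (key _ _ h3 (by simp [glay]) h6 (by simp [glay]))))

theorem wf_idxG (β : Bool) :
    (idxQ glay (gx 19) (.arr .ucol [gx 19]) [chF β false, chF β true]).wf GW.ar [] = true := by
  have h1 : Scope ([gx 19] : List GV) := fun i hi => by simp at hi
  simp only [idxQ, Stmt.wf, Bool.and_eq_true, Cond.wf, decide_eq_true_eq]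
  refine ⟨by simp, ⟨by simp [Fml.wf, GW.ar], wf_seqs _ fun s hs => ?_⟩, trivial⟩
  obtain ⟨φ, hφ, rfl⟩ := List.mem_map.1 hs
  refine wf_strP glay_ok.nd (by simp [glay, Lay.kd]) glay_inl h1 ?_
  have hsc : Scope ((glay.kd ++ glay.sd).reverse ++ [gx 19]) := scope_append glay_inl h1
  have hmem : ∀ x ∈ glay.kd ++ glay.sd, x ∈ (glay.kd ++ glay.sd).reverse ++ [gx 19] :=
    fun x hx => by
      rw [List.mem_append, List.mem_reverse]
      exact Or.inl hx
  simp only [List.mem_cons, List.not_mem_nil, or_false] at hφ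
  rcases hφ with rfl | rfl
  · exact wf_chF hsc hmem (by simp) _ _
  · exact wf_chF hsc hmem (by simp) _ _

theorem progG_wf : progG.wf GW.ar [] = true := by
  have h0 : Scope ([] : List GV) := fun i hi => by simp at hi
  have hsc := scope_append glay_inl h0
  simp only [progG, mainG, Stmt.wf, Bool.and_eq_true]
  refine ⟨wf_revP (ar := GW.ar) (rw' := GW.rev) rfl h0 (by decide) (by decide) (by decide)
    (by simp) (by simp) (by simp) ⟨_, rfl⟩ ⟨_, rfl⟩,
    wf_parP (ar := GW.ar) (pw := GW.par) rfl h0 (by decide) (by simp) (by simp) ⟨_, rfl⟩ ⟨_, rfl⟩,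
    wf_genP (ar := GW.ar) (rw' := GW.rev) glay_ok glay_inl (by decide) (by simp [glay, Lay.kd])
      (fun x hx => ?_) rfl (wf_c0G hsc fun x hx => ?_) ?_⟩
  · simp only [glay, List.mem_cons, List.not_mem_nil, or_false] at hx
    rcases hx with rfl | rfl | rfl | rfl | rfl <;> exact ⟨_, rfl⟩
  · rw [List.append_nil, List.mem_reverse, List.mem_append]
    exact Or.inl hx
  · simp only [Stmt.wf, Bool.and_eq_true]
    exact ⟨wf_idxG false, wf_idxG true⟩

end Pool.Agent.Lib.MP_58f141_lc
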