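import Pool.Agent.Lib.MP_58f141_lc.CircSem
import Pool.Agent.Lib.MP_58f141_lc.ChainDefs

/-! # Chained multicoloured clique as chains -/

namespace Pool.Agent.Lib.MP_58f141_lc

set_option linter.unusedSimpArgs false
set_option linter.unusedVariables false

open scoped List
open Pool.Agent.Lib.PolyTM (enc enc_lt enc_inj OKt okt_one)

/-- Data of a chained clique instance: bounds, adjacency, levels and colours. -/
structure Dat where
  r : ℕ
  K : ℕ
  ad : ℕ → ℕ → Bool
  lv : ℕ → ℕ → Bool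
  co : ℕ → ℕ → Bool

/-- Level `y` is present in phase `l`. -/
def Dat.act (D : Dat) (l y : ℕ) : Bool := (decide (y = l) || decide (y = l + 1)) && decide (y < D.r)

/-- Allowed pairs. -/
def Dat.c0 (D : Dat) : List ℕ → List ℕ → Bool
  | [l, y, i, z, j], [a, b] =>
      !(D.act l y && D.act l z && decide (i < D.K) && decide (j < D.K)) ||
        (D.lv a y && D.co a i && (if y = z ∧ i = j then decide (a = b) else D.ad a b))
  | _, _ => false

/-- The first vertex of the step has colour `κ` and a level of parity `β`. -/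
def Dat.fst (D : Dat) (β κ : ℕ) : List ℕ → Bool
  | [l, y, i, _, _] => D.act l y && decide (y % 2 = β) && decide (i = κ)
  | _ => false

/-- The second vertex of the step has colour `κ` and a level of parity `β`. -/
def Dat.snd (D : Dat) (β κ : ℕ) : List ℕ → Bool
  | [l, _, _, z, j] => D.act l z && decide (z % 2 = β) && decide (j = κ)
  | _ => false

/-- The chain for a colour and a parity. -/
def Dat.ch (D : Dat) (N β κ : ℕ) (s : Bool) : DChn where
  con ts := D.fst β κ ts || D.snd β κ ts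
  F ts vs := if D.fst β κ ts = true then
      [ts.getD 1 0, 0, 0, 0, 0] ++ [rv N s (vs.getD 0 0), 0]
    else [ts.getD 3 0, 0, 0, 0, 0] ++ [rv N s (vs.getD 1 0), 0]

/-- All chains. -/
def Dat.chains (D : Dat) (N : ℕ) : List DChn :=
  (List.range D.K).flatMap (fun κ => [D.ch N 0 κ false, D.ch N 0 κ true]) ++
    (List.range D.K).flatMap fun κ => [D.ch N 1 κ false, D.ch N 1 κ true]

/-- Solutions. -/
def Dat.Sol (D : Dat) (N : ℕ) : Prop :=
  ∃ w : ℕ → ℕ → ℕ, ∀ y κ, y < D.r → κ < D.K →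
    w y κ < N ∧ D.lv (w y κ) y = true ∧ D.co (w y κ) κ = true ∧
      ∀ y' κ', y' < D.r → κ' < D.K → (y ≠ y' ∨ κ ≠ κ') → y ≤ y' + 1 → y' ≤ y + 1 →
        D.ad (w y κ) (w y' κ') = true

variable {D : Dat} {N : ℕ}

theorem chains5_length : (D.chains N).length = 4 * D.K := by
  simp [Dat.chains, List.length_flatMap]
  ring

theorem mem_chains5 {c : DChn} : c ∈ D.chains N ↔
    ∃ β κ s, β < 2 ∧ κ < D.K ∧ c = D.ch N β κ s := by
  simp only [Dat.chains, List.mem_append, List.mem_flatMap, List.mem_range, List.mem_cons,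
    List.not_mem_nil, or_false]
  constructor
  · rintro (⟨κ, hκ, rfl | rfl⟩ | ⟨κ, hκ, rfl | rfl⟩)
    · exact ⟨0, κ, false, by omega, hκ, rfl⟩
    · exact ⟨0, κ, true, by omega, hκ, rfl⟩
    · exact ⟨1, κ, false, by omega, hκ, rfl⟩
    · exact ⟨1, κ, true, by omega, hκ, rfl⟩
  · rintro ⟨β, κ, s, hβ, hκ, rfl⟩
    obtain rfl | rfl : β = 0 ∨ β = 1 := by omega
    · left; exact ⟨κ, hκ, by cases s <;> simp⟩
    · right; exact ⟨κ, hκ, by cases s <;> simp⟩

theorem okt5 {ts : List ℕ} (h : OKt N 5 ts) : ∃ l y i z j, ts = [l, y, i, z, j] ∧ l < N ∧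
    y < N ∧ i < N ∧ z < N ∧ j < N := by
  obtain ⟨h1, h2⟩ := h
  match ts, h1 with
  | [l, y, i, z, j], _ =>
    exact ⟨l, y, i, z, j, rfl, h2 _ (by simp), h2 _ (by simp), h2 _ (by simp), h2 _ (by simp),
      h2 _ (by simp)⟩

theorem okt2 {ts : List ℕ} (h : OKt N 2 ts) : ∃ a b, ts = [a, b] ∧ a < N ∧ b < N := by
  obtain ⟨h1, h2⟩ := h
  match ts, h1 with
  | [a, b], _ => exact ⟨a, b, rfl, h2 _ (by simp), h2 _ (by simp)⟩

theorem okt5' {l y i z j : ℕ} (h1 : l < N) (h2 : y < N) (h3 : i < N) (h4 : z < N) (h5 : j < N) :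
    OKt N 5 [l, y, i, z, j] :=
  ⟨rfl, by simp [h1, h2, h3, h4, h5]⟩

theorem chains5_ok : ∀ c ∈ D.chains N, ∀ ts vs, OKt N 5 ts → OKt N 2 vs → c.con ts = true →
    OKt N (5 + 2) (c.F ts vs) := by
  intro c hc ts vs h1 h2 _
  obtain ⟨β, κ, s, hβ, hκ, rfl⟩ := mem_chains5.1 hc
  obtain ⟨l, y, i, z, j, rfl, g1, g2, g3, g4, g5⟩ := okt5 h1
  obtain ⟨a, b, rfl, g6, g7⟩ := okt2 h2
  have hN : 0 < N := by omega
  simp only [Dat.ch]
  split
  · exact ⟨rfl, by simp [hN, g2, rv_lt g6]⟩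
  · exact ⟨rfl, by simp [hN, g4, rv_lt g7]⟩

/-- The level of a constrained step. -/
def Dat.lab (D : Dat) (β κ : ℕ) (ts : List ℕ) : ℕ :=
  if D.fst β κ ts = true then ts.getD 1 0 else ts.getD 3 0

/-- The value of a constrained step. -/
def Dat.vl (D : Dat) (β κ : ℕ) (ts vs : List ℕ) : ℕ :=
  if D.fst β κ ts = true then vs.getD 0 0 else vs.getD 1 0

theorem ch_F (β κ : ℕ) (s : Bool) (ts vs : List ℕ) :
    (D.ch N β κ s).F ts vs =
      [D.lab β κ ts, 0, 0, 0, 0] ++ (rv N s (D.vl β κ ts vs) :: [0]) := by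
  simp only [Dat.ch, Dat.lab, Dat.vl]
  split <;> rfl

theorem act_iff {l y : ℕ} : D.act l y = true ↔ (y = l ∨ y = l + 1) ∧ y < D.r := by
  simp [Dat.act]

theorem sem5_fwd (hN : 0 < N) (hr : D.r ≤ N) (hK : D.K ≤ N) {v : List ℕ → List ℕ}
    (hv : ∀ ts, OKt N 5 ts → OKt N 2 (v ts) ∧ D.c0 ts (v ts) = true)
    (hc : ∀ c ∈ D.chains N, ∀ ts ts', OKt N 5 ts → OKt N 5 ts' →
      enc N ts ≤ enc N ts' → c.con ts = true → c.con ts' = true →
        enc N (c.F ts (v ts)) ≤ enc N (c.F ts' (v ts'))) : D.Sol N := by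
  -- constrained steps with the same level have the same value
  have hval : ∀ β κ ts ts', β < 2 → κ < D.K → OKt N 5 ts → OKt N 5 ts' →
      (D.fst β κ ts || D.snd β κ ts) = true → (D.fst β κ ts' || D.snd β κ ts') = true →
      D.lab β κ ts = D.lab β κ ts' → D.vl β κ ts (v ts) = D.vl β κ ts' (v ts') := by
    have key : ∀ β κ ts ts', β < 2 → κ < D.K → OKt N 5 ts → OKt N 5 ts' →
        enc N ts ≤ enc N ts' →
        (D.fst β κ ts || D.snd β κ ts) = true → (D.fst β κ ts' || D.snd β κ ts') = true →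
        D.lab β κ ts = D.lab β κ ts' → D.vl β κ ts (v ts) = D.vl β κ ts' (v ts') := by
      intro β κ ts ts' hβ hκ h1 h2 hle h3 h4 h5
      have hlt : ∀ ts, OKt N 5 ts → D.vl β κ ts (v ts) < N := by
        intro ts hts
        simp only [Dat.vl]
        split
        · exact okt_getD (hv ts hts).1 (by omega)
        · exact okt_getD (hv ts hts).1 (by omega)
      refine dig_eq (N := N) (lab := [D.lab β κ ts, 0, 0, 0, 0]) (z := [0])
        ⟨rfl, by simpa using hN⟩ (hlt ts h1) (hlt ts' h2) fun s => ?_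
      have := hc (D.ch N β κ s) (mem_chains5.2 ⟨β, κ, s, hβ, hκ, rfl⟩) ts ts' h1 h2 hle h3 h4
      rw [ch_F, ch_F, ← h5] at this
      exact this
    intro β κ ts ts' hβ hκ h1 h2 h3 h4 h5
    rcases Nat.le_total (enc N ts) (enc N ts') with h | h
    · exact key β κ ts ts' hβ hκ h1 h2 h h3 h4 h5
    · exact (key β κ ts' ts hβ hκ h2 h1 h h4 h3 h5.symm).symm
  set w : ℕ → ℕ → ℕ := fun y κ => (v [y, y, κ, y, κ]).getD 0 0 with hw
  -- the diagonal steps
  have hdiag : ∀ y κ, y < D.r → κ < D.K → OKt N 5 [y, y, κ, y, κ] ∧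
      D.fst (y % 2) κ [y, y, κ, y, κ] = true := by
    intro y κ hy hκ
    refine ⟨okt5' (by omega) (by omega) (by omega) (by omega) (by omega), ?_⟩
    simp only [Dat.fst, Bool.and_eq_true, decide_eq_true_eq, act_iff, hy]
    simp
  -- first vertices
  have hfst : ∀ l y i z j, l < N → z < N → j < N → D.act l y = true → i < D.K →
      (v [l, y, i, z, j]).getD 0 0 = w y i := by
    intro l y i z j h1 h2 h3 h4 h5
    obtain ⟨-, hy⟩ := act_iff.1 h4
    obtain ⟨d1, d2⟩ := hdiag y i hy h5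
    have g1 : OKt N 5 [l, y, i, z, j] := okt5' h1 (by omega) (by omega) h2 h3
    have g2 : D.fst (y % 2) i [l, y, i, z, j] = true := by
      simp only [Dat.fst, h4, decide_true, Bool.and_self]
    have := hval (y % 2) i _ _ (Nat.mod_lt _ (by omega)) h5 g1 d1 (by rw [g2]; rfl)
      (by rw [d2]; rfl) (by simp only [Dat.lab, g2, d2, if_true]; rfl)
    simp only [Dat.vl, g2, d2, if_true] at this
    exact this
  have hsnd : ∀ l y i z j, l < N → y < N → i < D.K → D.act l z = true → D.act l y = true →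
      j < D.K → (v [l, y, i, z, j]).getD 1 0 = w z j := by
    intro l y i z j h1 h2 h3 h4 h4' h5
    obtain ⟨hz', hz⟩ := act_iff.1 h4
    obtain ⟨hy', hy⟩ := act_iff.1 h4'
    obtain ⟨d1, d2⟩ := hdiag z j hz h5
    have g1 : OKt N 5 [l, y, i, z, j] := okt5' h1 (by omega) (by omega) (by omega) (by omega)
    have g2 : D.snd (z % 2) j [l, y, i, z, j] = true := by
      simp only [Dat.snd, h4, decide_true, Bool.and_self]
    by_cases hf : D.fst (z % 2) j [l, y, i, z, j] = true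
    · -- both vertices coincide
      simp only [Dat.fst, Bool.and_eq_true, decide_eq_true_eq] at hf
      obtain ⟨⟨-, hf1⟩, hf2⟩ := hf
      have hyz : y = z := by omega
      subst hyz
      subst hf2
      obtain ⟨a, b, hab, ha, hb⟩ := okt2 (hv _ g1).1
      have h0 := (hv _ g1).2
      rw [hab] at h0
      simp only [Dat.c0, h4, h5, decide_true, Bool.and_self, Bool.not_true, Bool.false_or,
        and_self, if_true, Bool.and_eq_true, decide_eq_true_eq] at h0
      have h6 := hfst l y i y i h1 (by omega) (by omega) h4 h5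
      rw [hab] at h6 ⊢
      change a = _ at h6
      change b = _
      rw [← h0.2, h6]
    · have := hval (z % 2) j _ _ (Nat.mod_lt _ (by omega)) h5 g1 d1 (by rw [g2, Bool.or_true])
        (by rw [d2]; rfl) (by simp only [Dat.lab, hf, d2, if_true, if_false]; rfl)
      simp only [Dat.vl, hf, d2, if_true, if_false] at this
      exact this
  refine ⟨w, fun y κ hy hκ => ?_⟩
  obtain ⟨d1, d2⟩ := hdiag y κ hy hκ
  have hact : D.act y y = true := act_iff.2 ⟨Or.inl rfl, hy⟩
  obtain ⟨a, b, hab, ha, hb⟩ := okt2 (hv _ d1).1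
  have hwa : w y κ = a := by simp only [hw, hab]; rfl
  have h0 := (hv _ d1).2
  rw [hab] at h0
  simp only [Dat.c0, hact, hκ, decide_true, Bool.and_self, Bool.not_true, Bool.false_or,
    and_self, if_true, Bool.and_eq_true, decide_eq_true_eq] at h0
  rw [hwa]
  refine ⟨ha, h0.1.1, h0.1.2, fun y' κ' hy' hκ' hne h1 h2 => ?_⟩
  set l := min y y' with hl
  have a1 : D.act l y = true := act_iff.2 ⟨by omega, hy⟩
  have a2 : D.act l y' = true := act_iff.2 ⟨by omega, hy'⟩
  have hlN : l < N := by omega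
  have g1 : OKt N 5 [l, y, κ, y', κ'] := okt5' hlN (by omega) (by omega) (by omega) (by omega)
  have e1 := hfst l y κ y' κ' hlN (by omega) (by omega) a1 hκ
  have e2 := hsnd l y κ y' κ' hlN (by omega) hκ a2 a1 hκ'
  obtain ⟨a', b', hab', -, -⟩ := okt2 (hv _ g1).1
  have h3 := (hv _ g1).2
  rw [hab'] at h3 e1 e2
  change a' = _ at e1
  change b' = _ at e2
  have hne' : ¬(y = y' ∧ κ = κ') := by tauto
  simp only [Dat.c0, a1, a2, hκ, hκ', decide_true, Bool.and_self, Bool.not_true, Bool.false_or,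
    if_neg hne', Bool.and_eq_true] at h3
  rw [← hwa, ← e1, ← e2]
  exact h3.2

theorem enc5_le {l y i z j l' y' i' z' j' : ℕ} (h1 : OKt N 5 [l, y, i, z, j])
    (h2 : OKt N 5 [l', y', i', z', j'])
    (h : enc N [l, y, i, z, j] ≤ enc N [l', y', i', z', j']) : l ≤ l' := by
  have := enc_take_le h1 h2 h 1
  simpa [enc] using this

theorem sem5_bwd (hN : 0 < N) (hr : D.r ≤ N) (hK : D.K ≤ N) (hS : D.Sol N) :
    ∃ v : List ℕ → List ℕ, (∀ ts, OKt N 5 ts → OKt N 2 (v ts) ∧ D.c0 ts (v ts) = true) ∧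
      ∀ c ∈ D.chains N, ∀ ts ts', OKt N 5 ts → OKt N 5 ts' →
        enc N ts ≤ enc N ts' → c.con ts = true → c.con ts' = true →
          enc N (c.F ts (v ts)) ≤ enc N (c.F ts' (v ts')) := by
  obtain ⟨w, hw⟩ := hS
  set wv : ℕ → ℕ → ℕ := fun y κ => if y < D.r ∧ κ < D.K then w y κ else 0 with hwv
  have wlt : ∀ y κ, wv y κ < N := fun y κ => by
    simp only [hwv]
    split
    · rename_i h; exact (hw y κ h.1 h.2).1
    · exact hN
  set v : List ℕ → List ℕ := fun ts =>
    [wv (ts.getD 1 0) (ts.getD 2 0), wv (ts.getD 3 0) (ts.getD 4 0)] with hvd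
  refine ⟨v, fun ts hts => ⟨⟨rfl, by simp [hvd, wlt]⟩, ?_⟩, ?_⟩
  · obtain ⟨l, y, i, z, j, rfl, g1, g2, g3, g4, g5⟩ := okt5 hts
    change D.c0 [l, y, i, z, j] [wv y i, wv z j] = true
    simp only [Dat.c0, Bool.or_eq_true, Bool.not_eq_true', Bool.and_eq_true]
    by_cases hg : D.act l y = true ∧ D.act l z = true ∧ i < D.K ∧ j < D.K
    · obtain ⟨k1, k2, k3, k4⟩ := hg
      right
      obtain ⟨b1, b2⟩ := act_iff.1 k1
      obtain ⟨b3, b4⟩ := act_iff.1 k2
      obtain ⟨f1, f2, f3, f4⟩ := hw y i b2 k3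
      have e1 : wv y i = w y i := by simp [hwv, b2, k3]
      have e2 : wv z j = w z j := by simp [hwv, b4, k4]
      rw [e1, e2]
      refine ⟨⟨f2, f3⟩, ?_⟩
      split
      · rename_i h
        rw [h.1, h.2]
        simp
      · rename_i h
        exact f4 z j b4 k4 (by tauto) (by omega) (by omega)
    · left
      by_contra hcon
      rw [Bool.not_eq_false] at hcon
      simp only [Bool.and_eq_true, decide_eq_true_eq] at hcon
      exact hg ⟨hcon.1.1.1, hcon.1.1.2, hcon.1.2, hcon.2⟩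
  · intro c hc ts ts' h1 h2 hle k1 k2
    obtain ⟨β, κ, s, hβ, hκ, rfl⟩ := mem_chains5.1 hc
    rw [ch_F, ch_F]
    have hvl : ∀ ts, OKt N 5 ts → (D.fst β κ ts || D.snd β κ ts) = true →
        D.vl β κ ts (v ts) = wv (D.lab β κ ts) κ ∧ D.lab β κ ts % 2 = β ∧
          D.act (ts.getD 0 0) (D.lab β κ ts) = true := by
      intro ts hts hcon
      obtain ⟨l, y, i, z, j, rfl, g1, g2, g3, g4, g5⟩ := okt5 hts
      by_cases hf : D.fst β κ [l, y, i, z, j] = true
      · simp only [Dat.vl, Dat.lab, hf, if_true]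
        simp only [Dat.fst, Bool.and_eq_true, decide_eq_true_eq] at hf
        obtain ⟨⟨q1, q2⟩, q3⟩ := hf
        subst q3
        exact ⟨rfl, q2, q1⟩
      · have hs : D.snd β κ [l, y, i, z, j] = true := by
          rw [Bool.not_eq_true] at hf
          rwa [hf, Bool.false_or] at hcon
        simp only [Dat.vl, Dat.lab, hf, if_false]
        simp only [Dat.snd, Bool.and_eq_true, decide_eq_true_eq] at hs
        obtain ⟨⟨q1, q2⟩, q3⟩ := hs
        subst q3
        exact ⟨rfl, q2, q1⟩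
    obtain ⟨a1, a2, a3⟩ := hvl ts h1 k1
    obtain ⟨b1, b2, b3⟩ := hvl ts' h2 k2
    rw [a1, b1]
    have hl : ts.getD 0 0 ≤ ts'.getD 0 0 := by
      obtain ⟨l, y, i, z, j, rfl, -⟩ := okt5 h1
      obtain ⟨l', y', i', z', j', rfl, -⟩ := okt5 h2
      exact enc5_le h1 h2 hle
    obtain ⟨a4, -⟩ := act_iff.1 a3
    obtain ⟨b4, -⟩ := act_iff.1 b3
    rcases Nat.lt_trichotomy (D.lab β κ ts) (D.lab β κ ts') with h | h | h
    · have e3 : ∀ p q : ℕ, [p, 0, 0, 0, 0] ++ (q :: [0]) = [p] ++ [0, 0, 0, 0, q, 0] := by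
        intro p q; rfl
      rw [e3, e3]
      refine enc_le_of_lt (m := 6) ⟨rfl, by simp [hN, rv_lt (wlt _ _)]⟩ rfl ?_
      simpa [enc] using h
    · rw [h]
    · exfalso; omega

/-- The data of an instance. -/
noncomputable def ChainedClique.dat (I : ChainedClique) : Dat := by
  classical
  exact {
    r := I.r
    K := I.K
    ad := fun x y => if hx : x < I.n then if hy : y < I.n then
      decide (I.G.Adj ⟨x, hx⟩ ⟨y, hy⟩) else false else false
    lv := fun x y => if hx : x < I.n then decide (I.level ⟨x, hx⟩ = y) else false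
    co := fun x y => if hx : x < I.n then decide (I.colour ⟨x, hx⟩ = y) else false }

theorem sol_iff (I : ChainedClique) : I.dat.Sol I.n ↔ I.Yes := by
  constructor
  · rintro ⟨w, hw⟩
    refine ⟨fun i c => ⟨w i.val c.val, (hw _ _ i.2 c.2).1⟩, fun i c => ?_,
      fun i c i' c' hne h1 h2 => ?_⟩
    · obtain ⟨g1, g2, g3, -⟩ := hw _ _ i.2 c.2
      simp only [ChainedClique.dat, g1, dif_pos, decide_eq_true_eq] at g2 g3
      exact ⟨g2, g3⟩
    · obtain ⟨g1, -, -, g4⟩ := hw _ _ i.2 c.2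
      have g5 := (hw _ _ i'.2 c'.2).1
      have := g4 i'.val c'.val i'.2 c'.2 (by
        by_contra hcon
        push Not at hcon
        exact hne (Prod.ext (Fin.ext hcon.1) (Fin.ext hcon.2))) h1 h2
      simp only [ChainedClique.dat, g1, g5, dif_pos, decide_eq_true_eq] at this
      exact this
  · rintro ⟨w, h1, h2⟩
    refine ⟨fun y κ => if h : y < I.r ∧ κ < I.K then (w ⟨y, h.1⟩ ⟨κ, h.2⟩).val else 0,
      fun y κ hy hκ => ?_⟩
    have hy' : y < I.r := hy
    have hκ' : κ < I.K := hκ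
    simp only [hy', hκ', and_self, dif_pos]
    have hlt := (w ⟨y, hy'⟩ ⟨κ, hκ'⟩).2
    refine ⟨hlt, ?_, ?_, fun z κ₂ hz hκ₂ hne g1 g2 => ?_⟩
    · simp only [ChainedClique.dat, hlt, dif_pos, decide_eq_true_eq]
      exact (h1 _ _).1
    · simp only [ChainedClique.dat, hlt, dif_pos, decide_eq_true_eq]
      exact (h1 _ _).2
    · have hz' : z < I.r := hz
      have hκ₂' : κ₂ < I.K := hκ₂
      have hlt' := (w ⟨z, hz'⟩ ⟨κ₂, hκ₂'⟩).2
      simp only [hz', hκ₂', and_self, dif_pos, ChainedClique.dat, hlt, hlt',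
        decide_eq_true_eq]
      refine h2 _ _ _ _ (fun h => ?_) g1 g2
      simp only [Prod.mk.injEq, Fin.mk.injEq] at h
      rcases hne with hne | hne
      · exact hne h.1
      · exact hne h.2

/-- **Correctness.** -/
theorem clique_chains (I : ChainedClique) :
    (∃ v : List ℕ → List ℕ, (∀ ts, OKt I.n 5 ts → OKt I.n 2 (v ts) ∧
        I.dat.c0 ts (v ts) = true) ∧
      ∀ c ∈ I.dat.chains I.n, ∀ ts ts', OKt I.n 5 ts → OKt I.n 5 ts' →
        enc I.n ts ≤ enc I.n ts' → c.con ts = true → c.con ts' = true →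
          enc I.n (c.F ts (v ts)) ≤ enc I.n (c.F ts' (v ts'))) ↔ I.Yes := by
  rw [← sol_iff]
  rcases Nat.eq_zero_or_pos I.n with hN | hN
  · have hr : I.dat.r = 0 := by
      have := I.r_le
      change I.r = 0
      omega
    constructor
    · intro _
      exact ⟨fun _ _ => 0, fun y κ hy => by omega⟩
    · intro _
      refine ⟨fun _ => [], fun ts hts => ?_, fun c _ ts ts' hts => ?_⟩
      · obtain ⟨l, y, i, z, j, rfl, g1, -⟩ := okt5 hts
        omega
      · obtain ⟨l, y, i, z, j, rfl, g1, -⟩ := okt5 hts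
        omega
  · constructor
    · rintro ⟨v, h1, h2⟩
      exact sem5_fwd hN I.r_le I.K_le h1 h2
    · exact sem5_bwd hN I.r_le I.K_le

end Pool.Agent.Lib.MP_58f141_lc
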