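import Pool.Agent.Lib.MP_58f141_lc.Digits
import Pool.Agent.Lib.MP_58f141_lc.Defs

/-! # Weighted satisfiability of circuits of bounded depth as chains -/

namespace Pool.Agent.Lib.MP_58f141_lc

set_option linter.unusedSimpArgs false
set_option linter.unusedVariables false

open scoped List
open Pool.Agent.Lib.PolyTM (enc enc_lt enc_inj OKt okt_one)

/-- Reversal of a value. -/
def rv (N : ℕ) (s : Bool) (x : ℕ) : ℕ := if s then N - 1 - x else x

theorem rv_lt {N : ℕ} {s : Bool} {x : ℕ} (hx : x < N) : rv N s x < N := by
  unfold rv; split <;> omega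

theorem okt_replicate {N m : ℕ} (hN : 0 < N) : OKt N m (List.replicate m 0) :=
  ⟨List.length_replicate, fun x hx => by rw [(List.mem_replicate.1 hx).2]; exact hN⟩

theorem okt_cons_replicate {N m x : ℕ} (hm : 0 < m) (hx : x < N) :
    OKt N m (x :: List.replicate (m - 1) 0) := by
  obtain ⟨m, rfl⟩ : ∃ n, m = n + 1 := ⟨m - 1, by omega⟩
  exact (okt_replicate (by omega)).cons hx

theorem okt_take {N m : ℕ} {ts : List ℕ} (h : OKt N m ts) {j : ℕ} (hj : j ≤ m) :
    OKt N j (ts.take j) :=
  ⟨by rw [List.length_take, h.1]; omega, fun x hx => h.2 x (List.mem_of_mem_take hx)⟩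

theorem okt_getD {N m : ℕ} {ts : List ℕ} (h : OKt N m ts) {j : ℕ} (hj : j < m) :
    ts.getD j 0 < N := by
  rw [List.getD_eq_getElem _ _ (by rw [h.1]; exact hj)]
  exact h.2 _ (List.getElem_mem _)

/-- Two digits are equal if both chains with the same label order them. -/
theorem dig_eq {N : ℕ} {lab z : List ℕ} {x x' : ℕ} (hz : OKt N z.length z) (hx : x < N)
    (hx' : x' < N)
    (h : ∀ s, enc N (lab ++ (rv N s x :: z)) ≤ enc N (lab ++ (rv N s x' :: z))) : x = x' := by
  have key : ∀ y y', enc N (lab ++ (y :: z)) ≤ enc N (lab ++ (y' :: z)) → y ≤ y' := by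
    intro y y' h
    rw [enc_le_iff (by simp)] at h
    by_contra hc
    have := enc_lt' hz
    simp only [enc] at h
    have h2 : (y' + 1) * N ^ z.length ≤ y * N ^ z.length := Nat.mul_le_mul_right _ (by omega)
    rw [Nat.add_mul] at h2
    omega
  have h1 := key _ _ (h false)
  have h2 := key _ _ (h true)
  simp only [rv, Bool.false_eq_true, if_false, if_true] at h1 h2
  omega

/-- Data of a circuit and a weight. -/
structure CDat where
  k : ℕ
  out : ℕ
  kd : Kind → ℕ → Bool
  wr : ℕ → ℕ → Bool

/-- The check along a path. The list `xs` holds the universal choices, `os` the existential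
ones; `s` is the selected input number `i`. -/
def CDat.chk (D : CDat) (i s : ℕ) : Bool → ℕ → List ℕ → List ℕ → Bool
  | true, g, x :: xs, o :: os =>
      (D.kd .input g && (decide (o < D.k) && (!decide (i = o) || decide (s = g)))) ||
      ((D.kd .conj g && (!D.wr g x || D.chk i s true x xs os)) ||
      ((D.kd .disj g && (D.wr g o && D.chk i s true o xs os)) ||
      (D.kd .neg g && (!D.wr g x || D.chk i s false x xs os))))
  | false, g, x :: xs, o :: os =>
      (D.kd .input g && !(decide (i < D.k) && decide (s = g))) ||
      ((D.kd .conj g && (D.wr g o && D.chk i s false o xs os)) ||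
      ((D.kd .disj g && (!D.wr g x || D.chk i s false x xs os)) ||
      (D.kd .neg g && (D.wr g o && D.chk i s true o xs os))))
  | _, _, _, _ => false

/-- Allowed values. -/
def CDat.c0 (D : CDat) (H : ℕ) (ts vs : List ℕ) : Bool :=
  D.chk (ts.getD H 0) (vs.getD H 0) true D.out (ts.take H) (vs.take H) &&
    (!decide (ts.getD H 0 < D.k) || D.kd .input (vs.getD H 0))

/-- The chain keeping the existential choice number `j`. -/
def chO (N H j : ℕ) (s : Bool) : DChn where
  con _ := true
  F ts vs := (ts.take j ++ List.replicate (H + 1 - j) 0) ++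
    (rv N s (vs.getD j 0) :: List.replicate H 0)

/-- The chain keeping the selected input number `i`. -/
def chS (N H i : ℕ) (s : Bool) : DChn where
  con ts := decide (ts.getD H 0 = i)
  F _ vs := List.replicate (H + 1) 0 ++ (rv N s (vs.getD H 0) :: List.replicate H 0)

/-- The chain making the selected inputs increasing. -/
def CDat.chD (D : CDat) (N H : ℕ) : DChn where
  con ts := decide (ts.take H = List.replicate H 0) && decide (ts.getD H 0 < D.k)
  F ts vs := List.replicate (H + 1) 0 ++
    (vs.getD H 0 :: (N - 1 - ts.getD H 0) :: List.replicate (H - 1) 0)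

/-- All chains. -/
def CDat.chains (D : CDat) (N H : ℕ) : List DChn :=
  (D.chD N H :: (List.range H).flatMap fun j => [chO N H j false, chO N H j true]) ++
    (List.range D.k).flatMap fun i => [chS N H i false, chS N H i true]

/-- Values of a strategy along a list of universal choices. -/
def osOf (o : List ℕ → ℕ) : List ℕ → List ℕ
  | [] => []
  | x :: xs => o [] :: osOf (fun l => o (x :: l)) xs

theorem osOf_length (o : List ℕ → ℕ) (xs : List ℕ) : (osOf o xs).length = xs.length := by
  induction xs generalizing o with
  | nil => rfl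
  | cons x xs ih => simp [osOf, ih]

theorem osOf_getD (o : List ℕ → ℕ) (xs : List ℕ) {j : ℕ} (hj : j < xs.length) :
    (osOf o xs).getD j 0 = o (xs.take j) := by
  induction xs generalizing o j with
  | nil => simp at hj
  | cons x xs ih =>
    cases j with
    | zero => simp [osOf]
    | succ j =>
      rw [osOf, List.getD_cons_succ, ih _ (by simpa using hj)]
      rfl

theorem osOf_lt {N : ℕ} {o : List ℕ → ℕ} (ho : ∀ l, o l < N) (xs : List ℕ) :
    ∀ y ∈ osOf o xs, y < N := by
  induction xs generalizing o with
  | nil => simp [osOf]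
  | cons x xs ih =>
    intro y hy
    rw [osOf, List.mem_cons] at hy
    rcases hy with rfl | hy
    · exact ho _
    · exact ih (fun l => ho _) y hy

section

variable {D : CDat} {N H : ℕ}

theorem chains_ok (hH : 0 < H) : ∀ c ∈ D.chains N H, ∀ ts vs, OKt N (H + 1) ts →
    OKt N (H + 1) vs → c.con ts = true → OKt N (H + 1 + (H + 1)) (c.F ts vs) := by
  intro c hc ts vs h1 h2 hcon
  have hN : 0 < N := by
    cases ts with
    | nil => have := h1.1; simp at this
    | cons t ts => have := h1.2 t List.mem_cons_self; omega
  simp only [CDat.chains, List.mem_append, List.mem_cons, List.mem_flatMap, List.mem_range,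
    List.not_mem_nil, or_false] at hc
  rcases hc with (rfl | ⟨j, hj, hc⟩) | ⟨i, hi, hc⟩
  · refine (okt_replicate hN).append ?_
    have h3 : OKt N (H - 1) (List.replicate (H - 1) 0) := okt_replicate hN
    have h4 := (h3.cons (t := N - 1 - ts.getD H 0) (by omega)).cons
      (okt_getD h2 (show H < H + 1 by omega))
    rwa [show H - 1 + 1 + 1 = H + 1 by omega] at h4
  · have hF : ∀ s, OKt N (H + 1 + (H + 1)) ((chO N H j s).F ts vs) := by
      intro s
      have e1 : OKt N (H + 1) (ts.take j ++ List.replicate (H + 1 - j) 0) := by
        have := (okt_take h1 (show j ≤ H + 1 by omega)).append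
          (okt_replicate (m := H + 1 - j) hN)
        rwa [show j + (H + 1 - j) = H + 1 by omega] at this
      exact e1.append ((okt_replicate hN).cons (rv_lt (okt_getD h2 (by omega))))
    rcases hc with rfl | rfl
    · exact hF _
    · exact hF _
  · have hF : ∀ s, OKt N (H + 1 + (H + 1)) ((chS N H i s).F ts vs) := fun s =>
      (okt_replicate hN).append ((okt_replicate hN).cons (rv_lt (okt_getD h2 (by omega))))
    rcases hc with rfl | rfl
    · exact hF _
    · exact hF _

/-- Evaluation, on numbers. -/
structure CDat.Ev (D : CDat) (N : ℕ) (S : ℕ → ℕ) (e : ℕ → Bool) : Prop where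
  inp : ∀ g < N, D.kd .input g = true → (e g = true ↔ ∃ i < D.k, S i = g)
  cnj : ∀ g < N, D.kd .conj g = true → (e g = true ↔ ∀ h < N, D.wr g h = true → e h = true)
  dsj : ∀ g < N, D.kd .disj g = true → (e g = true ↔ ∃ h < N, D.wr g h = true ∧ e h = true)
  ngt : ∀ g < N, D.kd .neg g = true → (e g = true ↔ ∀ h < N, D.wr g h = true → e h = false)
  wr : ∀ g h, D.wr g h = true → h < N

/-- Soundness of the check. -/
theorem chk_sound (hk : D.k ≤ N) (hN : 0 < N) (hex : ∀ κ κ' g, D.kd κ g = true →
    D.kd κ' g = true → κ = κ') {S : ℕ → ℕ} {e : ℕ → Bool} (hE : D.Ev N S e) (len : ℕ)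
    (pol : Bool) (g : ℕ) (hg : g < N) (o : List ℕ → ℕ)
    (ho : ∀ l, (∀ x ∈ l, x < N) → o l < N)
    (h : ∀ xs, OKt N len xs → ∀ i < N, D.chk i (S i) pol g xs (osOf o xs) = true) :
    e g = pol := by
  induction len generalizing pol g o with
  | zero =>
    have := h [] ⟨rfl, by simp⟩ 0 hN
    cases pol <;> simp [CDat.chk, osOf] at this
  | succ len ih =>
    have hne : ∀ κ κ', κ ≠ κ' → D.kd κ g = true → D.kd κ' g = false := fun κ κ' h1 h2 => by
      by_contra h3
      rw [Bool.not_eq_false] at h3
      exact h1 (hex _ _ _ h2 h3)
    -- the continuation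
    have hstep : ∀ x < N, ∀ xs, OKt N len xs → ∀ i < N,
        D.chk i (S i) pol g (x :: xs) (o [] :: osOf (fun l => o (x :: l)) xs) = true :=
      fun x hx xs hxs i hi => h (x :: xs) (hxs.cons hx) i hi
    have h0 : OKt N len (List.replicate len 0) := okt_replicate hN
    have hcont : ∀ x < N, ∀ l, (∀ y ∈ l, y < N) → o (x :: l) < N := fun x hx l hl =>
      ho _ fun y hy => by
        rcases List.mem_cons.1 hy with rfl | hy
        · exact hx
        · exact hl y hy
    have hex4 : D.kd .input g = true ∨ D.kd .conj g = true ∨ D.kd .disj g = true ∨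
        D.kd .neg g = true := by
      have := hstep 0 hN _ h0 0 hN
      cases pol <;>
      · simp only [CDat.chk, Bool.or_eq_true, Bool.and_eq_true] at this
        tauto
    cases pol
    · -- polarity false
      rcases hex4 with hK | hK | hK | hK
      · have k1 := hne .input .conj (by decide) hK
        have k2 := hne .input .disj (by decide) hK
        have k3 := hne .input .neg (by decide) hK
        rw [← Bool.not_eq_true, hE.inp g hg hK]
        rintro ⟨i, hi, hSi⟩
        have := hstep 0 hN _ h0 i (by omega)
        simp only [CDat.chk, hK, k1, k2, k3, Bool.false_and, Bool.or_false, Bool.true_and,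
          Bool.not_eq_true', Bool.and_eq_false_iff, decide_eq_false_iff_not] at this
        rcases this with h1 | h1
        · exact h1 hi
        · exact h1 hSi
      · have k1 := hne .conj .input (by decide) hK
        have k2 := hne .conj .disj (by decide) hK
        have k3 := hne .conj .neg (by decide) hK
        have hx : ∀ x < N, ∀ xs, OKt N len xs → ∀ i < N, D.wr g (o []) = true ∧
            D.chk i (S i) false (o []) xs (osOf (fun l => o (x :: l)) xs) = true := by
          intro x hx xs hxs i hi
          have := hstep x hx xs hxs i hi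
          simpa only [CDat.chk, hK, k1, k2, k3, Bool.false_and, Bool.or_false, Bool.true_and,
            Bool.false_or, Bool.and_eq_true] using this
        have ho0 : o [] < N := ho [] (by simp)
        have hv := ih false (o []) ho0 (fun l => o (0 :: l)) (hcont 0 hN)
          fun xs hxs i hi => (hx 0 hN xs hxs i hi).2
        rw [← Bool.not_eq_true, hE.cnj g hg hK]
        intro hall
        have := hall _ ho0 (hx 0 hN _ h0 0 hN).1
        rw [hv] at this
        simp at this
      · have k1 := hne .disj .input (by decide) hK
        have k2 := hne .disj .conj (by decide) hK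
        have k3 := hne .disj .neg (by decide) hK
        rw [← Bool.not_eq_true, hE.dsj g hg hK]
        rintro ⟨x, hx, hw, hex⟩
        have hv := ih false x hx (fun l => o (x :: l)) (hcont x hx) fun xs hxs i hi => by
          have := hstep x hx xs hxs i hi
          simpa only [CDat.chk, hK, k1, k2, k3, Bool.false_and, Bool.or_false, Bool.true_and,
            Bool.false_or, hw, Bool.not_true] using this
        rw [hv] at hex
        simp at hex
      · have k1 := hne .neg .input (by decide) hK
        have k2 := hne .neg .conj (by decide) hK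
        have k3 := hne .neg .disj (by decide) hK
        have hx : ∀ x < N, ∀ xs, OKt N len xs → ∀ i < N, D.wr g (o []) = true ∧
            D.chk i (S i) true (o []) xs (osOf (fun l => o (x :: l)) xs) = true := by
          intro x hx xs hxs i hi
          have := hstep x hx xs hxs i hi
          simpa only [CDat.chk, hK, k1, k2, k3, Bool.false_and, Bool.or_false, Bool.true_and,
            Bool.false_or, Bool.and_eq_true] using this
        have ho0 : o [] < N := ho [] (by simp)
        have hv := ih true (o []) ho0 (fun l => o (0 :: l)) (hcont 0 hN)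
          fun xs hxs i hi => (hx 0 hN xs hxs i hi).2
        rw [← Bool.not_eq_true, hE.ngt g hg hK]
        intro hall
        have := hall _ ho0 (hx 0 hN _ h0 0 hN).1
        rw [hv] at this
        simp at this
    · -- polarity true
      rcases hex4 with hK | hK | hK | hK
      · have k1 := hne .input .conj (by decide) hK
        have k2 := hne .input .disj (by decide) hK
        have k3 := hne .input .neg (by decide) hK
        have hx : ∀ i < N, o [] < D.k ∧ (i = o [] → S i = g) := by
          intro i hi
          have := hstep 0 hN _ h0 i hi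
          simp only [CDat.chk, hK, k1, k2, k3, Bool.false_and, Bool.or_false, Bool.true_and,
            Bool.and_eq_true, Bool.or_eq_true, Bool.not_eq_true', decide_eq_true_eq,
            decide_eq_false_iff_not] at this
          exact ⟨this.1, fun h => by tauto⟩
        have h1 := (hx 0 hN).1
        rw [hE.inp g hg hK]
        exact ⟨o [], h1, (hx (o []) (by omega)).2 rfl⟩
      · have k1 := hne .conj .input (by decide) hK
        have k2 := hne .conj .disj (by decide) hK
        have k3 := hne .conj .neg (by decide) hK
        rw [hE.cnj g hg hK]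
        intro x hx hw
        refine ih true x hx (fun l => o (x :: l)) (hcont x hx) fun xs hxs i hi => ?_
        have := hstep x hx xs hxs i hi
        simpa only [CDat.chk, hK, k1, k2, k3, Bool.false_and, Bool.or_false, Bool.true_and,
          Bool.false_or, hw, Bool.not_true] using this
      · have k1 := hne .disj .input (by decide) hK
        have k2 := hne .disj .conj (by decide) hK
        have k3 := hne .disj .neg (by decide) hK
        have hx : ∀ x < N, ∀ xs, OKt N len xs → ∀ i < N, D.wr g (o []) = true ∧
            D.chk i (S i) true (o []) xs (osOf (fun l => o (x :: l)) xs) = true := by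
          intro x hx xs hxs i hi
          have := hstep x hx xs hxs i hi
          simpa only [CDat.chk, hK, k1, k2, k3, Bool.false_and, Bool.or_false, Bool.true_and,
            Bool.false_or, Bool.and_eq_true] using this
        have ho0 : o [] < N := ho [] (by simp)
        rw [hE.dsj g hg hK]
        exact ⟨o [], ho0, (hx 0 hN _ h0 0 hN).1, ih true (o []) ho0 (fun l => o (0 :: l))
          (hcont 0 hN) fun xs hxs i hi => (hx 0 hN xs hxs i hi).2⟩
      · have k1 := hne .neg .input (by decide) hK
        have k2 := hne .neg .conj (by decide) hK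
        have k3 := hne .neg .disj (by decide) hK
        rw [hE.ngt g hg hK]
        intro x hx hw
        refine ih false x hx (fun l => o (x :: l)) (hcont x hx) fun xs hxs i hi => ?_
        have := hstep x hx xs hxs i hi
        simpa only [CDat.chk, hK, k1, k2, k3, Bool.false_and, Bool.or_false, Bool.true_and,
          Bool.false_or, hw, Bool.not_true] using this

/-- Paths from `g` have at most `m` gates. -/
inductive CDat.Dep (D : CDat) (N : ℕ) : ℕ → ℕ → Prop
  | inp (m g : ℕ) (h : D.kd .input g = true) : CDat.Dep D N m g
  | step (m g : ℕ) (h : ∀ x < N, D.wr g x = true → CDat.Dep D N m x) : CDat.Dep D N (m + 1) g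

/-- Completeness of the check. -/
theorem chk_complete (hk : D.k ≤ N) (hN : 0 < N) {S : ℕ → ℕ} {e : ℕ → Bool}
    (hE : D.Ev N S e) (hkd : ∀ g < N, ∃ κ, D.kd κ g = true)
    (hinj : ∀ i < D.k, ∀ j < D.k, S i = S j → i = j) (m : ℕ)
    (pol : Bool) (g : ℕ) (hg : g < N) (hd : D.Dep N m g) (hv : e g = pol) :
    ∃ o : List ℕ → ℕ, (∀ l, o l < N) ∧ ∀ xs, OKt N (m + 1) xs → ∀ i < N,
      D.chk i (S i) pol g xs (osOf o xs) = true := by
  have hinput : ∀ m pol g, g < N → e g = pol → D.kd .input g = true →
      ∃ o : List ℕ → ℕ, (∀ l, o l < N) ∧ ∀ xs, OKt N (m + 1) xs → ∀ i < N,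
        D.chk i (S i) pol g xs (osOf o xs) = true := by
    intro m pol g hg hv hK
    cases pol
    · rw [← Bool.not_eq_true, hE.inp g hg hK] at hv
      refine ⟨fun _ => 0, fun _ => hN, fun xs hxs i hi => ?_⟩
      cases xs with
      | nil => have := hxs.1; simp at this
      | cons x xs =>
        simp only [osOf, CDat.chk, hK, Bool.true_and, Bool.or_eq_true, Bool.not_eq_true',
          Bool.and_eq_false_iff, decide_eq_false_iff_not]
        left
        by_contra hcon
        push Not at hcon
        exact hv ⟨i, hcon.1, hcon.2⟩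
    · rw [hE.inp g hg hK] at hv
      obtain ⟨j, hj, hSj⟩ := hv
      refine ⟨fun _ => j, fun _ => lt_of_lt_of_le hj hk, fun xs hxs i hi => ?_⟩
      cases xs with
      | nil => have := hxs.1; simp at this
      | cons x xs =>
        simp only [osOf, CDat.chk, hK, Bool.true_and, Bool.or_eq_true, Bool.and_eq_true,
          Bool.not_eq_true', decide_eq_true_eq, decide_eq_false_iff_not]
        left
        refine ⟨hj, ?_⟩
        by_cases hij : i = j
        · right; rw [hij]; exact hSj
        · exact Or.inl hij
  induction hd generalizing pol with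
  | inp m g hK => exact hinput m pol g hg hv hK
  | step m g hch ih =>
    obtain ⟨κ, hK⟩ := hkd g hg
    -- universal steps
    have univ : ∀ (P : List ℕ → ℕ → ℕ → List ℕ → List ℕ → Bool) (pol' : Bool),
        (∀ x < N, D.wr g x = true → e x = pol') →
        ∃ o : List ℕ → ℕ, (∀ l, o l < N) ∧ ∀ x xs, OKt N (m + 1) xs → x < N → ∀ i < N,
          D.wr g x = true →
            D.chk i (S i) pol' x xs (osOf (fun l => o (x :: l)) xs) = true := by
      intro _ pol' hall
      have : ∀ x, ∃ o : List ℕ → ℕ, (∀ l, o l < N) ∧ (x < N → D.wr g x = true →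
          ∀ xs, OKt N (m + 1) xs → ∀ i < N, D.chk i (S i) pol' x xs (osOf o xs) = true) := by
        intro x
        by_cases hx : x < N ∧ D.wr g x = true
        · obtain ⟨o, o1, o2⟩ := ih x hx.1 hx.2 pol' hx.1 (hall x hx.1 hx.2)
          exact ⟨o, o1, fun _ _ => o2⟩
        · exact ⟨fun _ => 0, fun _ => hN, fun h1 h2 => absurd ⟨h1, h2⟩ hx⟩
      choose f f1 f2 using this
      refine ⟨fun l => match l with
        | [] => 0
        | x :: l => f x l, fun l => ?_, fun x xs hxs hx i hi hw => f2 x hx hw xs hxs i hi⟩
      cases l with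
      | nil => exact hN
      | cons x l => exact f1 x l
    -- existential steps
    have exis : ∀ (pol' : Bool), (∃ x < N, D.wr g x = true ∧ e x = pol') →
        ∃ o : List ℕ → ℕ, (∀ l, o l < N) ∧ D.wr g (o []) = true ∧
          ∀ x xs, OKt N (m + 1) xs → ∀ i < N,
            D.chk i (S i) pol' (o []) xs (osOf (fun l => o (x :: l)) xs) = true := by
      rintro pol' ⟨w, hw, hw1, hw2⟩
      obtain ⟨o, o1, o2⟩ := ih w hw hw1 pol' hw hw2
      refine ⟨fun l => match l with
        | [] => w
        | _ :: l => o l, fun l => ?_, hw1, fun x xs hxs i hi => o2 xs hxs i hi⟩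
      cases l with
      | nil => exact hw
      | cons x l => exact o1 l
    have hxs0 : ∀ xs : List ℕ, OKt N (m + 1 + 1) xs → ∃ x xs', xs = x :: xs' ∧ x < N ∧
        OKt N (m + 1) xs' := by
      intro xs hxs
      cases xs with
      | nil => have := hxs.1; simp at this
      | cons x xs => exact ⟨x, xs, rfl, hxs.2 x List.mem_cons_self, by simpa using hxs.1,
          fun y hy => hxs.2 y (List.mem_cons_of_mem _ hy)⟩
    cases κ
    · exact hinput (m + 1) pol g hg hv hK
    · -- and
      cases pol
      · have h1 : ∃ x < N, D.wr g x = true ∧ e x = false := by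
          rw [← Bool.not_eq_true, hE.cnj g hg hK] at hv
          push Not at hv
          obtain ⟨x, hx, h2, h3⟩ := hv
          exact ⟨x, hx, h2, by simpa using h3⟩
        obtain ⟨o, o1, o2, o3⟩ := exis false h1
        refine ⟨o, o1, fun xs hxs i hi => ?_⟩
        obtain ⟨x, xs', rfl, hx, hxs'⟩ := hxs0 xs hxs
        simp only [osOf, CDat.chk, hK, o2, o3 x xs' hxs' i hi, Bool.and_self, Bool.true_or,
          Bool.or_true]
      · rw [hE.cnj g hg hK] at hv
        obtain ⟨o, o1, o2⟩ := univ (fun _ _ _ _ _ => true) true hv
        refine ⟨o, o1, fun xs hxs i hi => ?_⟩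
        obtain ⟨x, xs', rfl, hx, hxs'⟩ := hxs0 xs hxs
        have : (!D.wr g x || D.chk i (S i) true x xs' (osOf (fun l => o (x :: l)) xs')) = true := by
          by_cases hw : D.wr g x = true
          · rw [o2 x xs' hxs' hx i hi hw, Bool.or_true]
          · rw [Bool.not_eq_true] at hw; rw [hw]; rfl
        simp only [osOf, CDat.chk, hK, this, Bool.and_self, Bool.true_or, Bool.or_true]
    · -- or
      cases pol
      · have h1 : ∀ x < N, D.wr g x = true → e x = false := by
          rw [← Bool.not_eq_true, hE.dsj g hg hK] at hv
          push Not at hv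
          intro x hx hw
          simpa using hv x hx hw
        obtain ⟨o, o1, o2⟩ := univ (fun _ _ _ _ _ => true) false h1
        refine ⟨o, o1, fun xs hxs i hi => ?_⟩
        obtain ⟨x, xs', rfl, hx, hxs'⟩ := hxs0 xs hxs
        have : (!D.wr g x || D.chk i (S i) false x xs' (osOf (fun l => o (x :: l)) xs')) =
            true := by
          by_cases hw : D.wr g x = true
          · rw [o2 x xs' hxs' hx i hi hw, Bool.or_true]
          · rw [Bool.not_eq_true] at hw; rw [hw]; rfl
        simp only [osOf, CDat.chk, hK, this, Bool.and_self, Bool.true_or, Bool.or_true]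
      · rw [hE.dsj g hg hK] at hv
        obtain ⟨o, o1, o2, o3⟩ := exis true hv
        refine ⟨o, o1, fun xs hxs i hi => ?_⟩
        obtain ⟨x, xs', rfl, hx, hxs'⟩ := hxs0 xs hxs
        simp only [osOf, CDat.chk, hK, o2, o3 x xs' hxs' i hi, Bool.and_self, Bool.true_or,
          Bool.or_true]
    · -- not
      cases pol
      · have h1 : ∃ x < N, D.wr g x = true ∧ e x = true := by
          rw [← Bool.not_eq_true, hE.ngt g hg hK] at hv
          push Not at hv
          obtain ⟨x, hx, h2, h3⟩ := hv
          exact ⟨x, hx, h2, by simpa using h3⟩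
        obtain ⟨o, o1, o2, o3⟩ := exis true h1
        refine ⟨o, o1, fun xs hxs i hi => ?_⟩
        obtain ⟨x, xs', rfl, hx, hxs'⟩ := hxs0 xs hxs
        simp only [osOf, CDat.chk, hK, o2, o3 x xs' hxs' i hi, Bool.and_self, Bool.true_or,
          Bool.or_true]
      · rw [hE.ngt g hg hK] at hv
        obtain ⟨o, o1, o2⟩ := univ (fun _ _ _ _ _ => true) false hv
        refine ⟨o, o1, fun xs hxs i hi => ?_⟩
        obtain ⟨x, xs', rfl, hx, hxs'⟩ := hxs0 xs hxs
        have : (!D.wr g x || D.chk i (S i) false x xs' (osOf (fun l => o (x :: l)) xs')) =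
            true := by
          by_cases hw : D.wr g x = true
          · rw [o2 x xs' hxs' hx i hi hw, Bool.or_true]
          · rw [Bool.not_eq_true] at hw; rw [hw]; rfl
        simp only [osOf, CDat.chk, hK, this, Bool.and_self, Bool.true_or, Bool.or_true]

end

end Pool.Agent.Lib.MP_58f141_lc
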