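import Pool.Agent.Lib.MP_58f141_lc.CircSem

/-! # Weighted satisfiability of circuits of bounded depth as chains, continued -/

namespace Pool.Agent.Lib.MP_58f141_lc

set_option linter.unusedSimpArgs false
set_option linter.unusedVariables false

open scoped List
open Pool.Agent.Lib.PolyTM (enc enc_lt enc_inj OKt okt_one)

variable {D : CDat} {N H : ℕ}

/-- The strategies exist. -/
def CDat.Sol (D : CDat) (N H : ℕ) : Prop :=
  ∃ (S : ℕ → ℕ) (o : List ℕ → ℕ), (∀ l, (∀ x ∈ l, x < N) → l.length < H → o l < N) ∧
    (∀ i < N, S i < N) ∧
    (∀ i < D.k, D.kd .input (S i) = true) ∧ (∀ i < D.k, ∀ j < D.k, i < j → S i < S j) ∧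
    ∀ xs, OKt N H xs → ∀ i < N, D.chk i (S i) true D.out xs (osOf o xs) = true

theorem take_append_single {xs : List ℕ} {i : ℕ} (h : xs.length = H) :
    (xs ++ [i]).take H = xs ∧ (xs ++ [i]).getD H 0 = i := by
  subst h
  exact ⟨by simp, by simp [List.getD_append_right]⟩

theorem okt_snoc {xs : List ℕ} {i : ℕ} (h : OKt N H xs) (hi : i < N) : OKt N (H + 1) (xs ++ [i]) :=
  h.append (okt_one hi)

theorem split_snoc {ts : List ℕ} (h : OKt N (H + 1) ts) :
    ts = ts.take H ++ [ts.getD H 0] := by
  have h1 : ts.length = H + 1 := h.1
  apply List.ext_getElem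
  · simp [h1]
  · intro j h2 h3
    rw [List.getElem_append]
    split
    · simp
    · rename_i h4
      have : j = H := by
        simp only [List.length_take, h1] at h4
        omega
      subst this
      simp [List.getD_eq_getElem?_getD, List.getElem?_eq_getElem h2]

theorem chains_fwd (hH : 0 < H) (hN : 0 < N) (hk : D.k ≤ N) {v : List ℕ → List ℕ}
    (hv : ∀ ts, OKt N (H + 1) ts → OKt N (H + 1) (v ts) ∧ D.c0 H ts (v ts) = true)
    (hc : ∀ c ∈ D.chains N H, ∀ ts ts', OKt N (H + 1) ts → OKt N (H + 1) ts' →
      enc N ts ≤ enc N ts' → c.con ts = true → c.con ts' = true →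
        enc N (c.F ts (v ts)) ≤ enc N (c.F ts' (v ts'))) : D.Sol N H := by
  have hO : ∀ j < H, ∀ ts ts', OKt N (H + 1) ts → OKt N (H + 1) ts' → ts.take j = ts'.take j →
      (v ts).getD j 0 = (v ts').getD j 0 := by
    have key : ∀ j < H, ∀ ts ts', OKt N (H + 1) ts → OKt N (H + 1) ts' →
        enc N ts ≤ enc N ts' → ts.take j = ts'.take j → (v ts).getD j 0 = (v ts').getD j 0 := by
      intro j hj ts ts' h1 h2 hle h3
      refine dig_eq (N := N) (lab := ts.take j ++ List.replicate (H + 1 - j) 0)
        (z := List.replicate H 0) (by rw [List.length_replicate]; exact okt_replicate hN)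
        (okt_getD (hv ts h1).1 (by omega)) (okt_getD (hv ts' h2).1 (by omega)) fun s => ?_
      have hmem : chO N H j s ∈ D.chains N H := by
        simp only [CDat.chains, List.mem_append, List.mem_cons, List.mem_flatMap,
          List.mem_range, List.not_mem_nil, or_false]
        left; right
        exact ⟨j, hj, by cases s <;> simp⟩
      have := hc _ hmem ts ts' h1 h2 hle rfl rfl
      simp only [chO, ← h3] at this
      exact this
    intro j hj ts ts' h1 h2 h3
    rcases Nat.le_total (enc N ts) (enc N ts') with h | h
    · exact key j hj ts ts' h1 h2 h h3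
    · exact (key j hj ts' ts h2 h1 h h3.symm).symm
  have hS : ∀ ts ts', OKt N (H + 1) ts → OKt N (H + 1) ts' → ts.getD H 0 = ts'.getD H 0 →
      ts.getD H 0 < D.k → (v ts).getD H 0 = (v ts').getD H 0 := by
    have key : ∀ ts ts', OKt N (H + 1) ts → OKt N (H + 1) ts' → enc N ts ≤ enc N ts' →
        ts.getD H 0 = ts'.getD H 0 → ts.getD H 0 < D.k →
          (v ts).getD H 0 = (v ts').getD H 0 := by
      intro ts ts' h1 h2 hle h3 h4
      refine dig_eq (N := N) (lab := List.replicate (H + 1) 0)
        (z := List.replicate H 0) (by rw [List.length_replicate]; exact okt_replicate hN)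
        (okt_getD (hv ts h1).1 (by omega)) (okt_getD (hv ts' h2).1 (by omega)) fun s => ?_
      have hmem : chS N H (ts.getD H 0) s ∈ D.chains N H := by
        simp only [CDat.chains, List.mem_append, List.mem_cons, List.mem_flatMap,
          List.mem_range, List.not_mem_nil, or_false]
        right
        exact ⟨_, h4, by cases s <;> simp⟩
      have := hc _ hmem ts ts' h1 h2 hle (by simp [chS]) (by simp only [chS, ← h3, decide_true])
      simp only [chS] at this
      exact this
    intro ts ts' h1 h2 h3 h4
    rcases Nat.le_total (enc N ts) (enc N ts') with h | h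
    · exact key ts ts' h1 h2 h h3 h4
    · exact (key ts' ts h2 h1 h h3.symm (by omega)).symm
  set o : List ℕ → ℕ := fun l => (v (l ++ List.replicate (H + 1 - l.length) 0)).getD l.length 0
    with ho
  -- the selected inputs; unused indices get the value of the zone `0, …, 0, i`
  set S : ℕ → ℕ := fun i => (v (List.replicate H 0 ++ [i])).getD H 0 with hSd
  have hz : ∀ l : List ℕ, (∀ x ∈ l, x < N) → l.length < H →
      OKt N (H + 1) (l ++ List.replicate (H + 1 - l.length) 0) := by
    intro l hl hlen
    have := (show OKt N l.length l from ⟨rfl, hl⟩).append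
      (okt_replicate (m := H + 1 - l.length) hN)
    rwa [show l.length + (H + 1 - l.length) = H + 1 by omega] at this
  have hz0 : ∀ i < N, OKt N (H + 1) (List.replicate H 0 ++ [i]) := fun i hi =>
    okt_snoc (okt_replicate hN) hi
  have h00 : ∀ i : ℕ, (List.replicate H 0 ++ [i]).take H = List.replicate H 0 ∧
      (List.replicate H 0 ++ [i]).getD H 0 = i := fun i =>
    take_append_single (by simp)
  refine ⟨S, o, fun l hl hlen => okt_getD (hv _ (hz l hl hlen)).1 (by omega), fun i hi =>
    okt_getD (hv _ (hz0 i hi)).1 (by omega), fun i hi => ?_,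
    fun i hi j hj hij => ?_, fun xs hxs i hi => ?_⟩
  · have := (hv _ (hz0 i (by omega))).2
    rw [CDat.c0, (h00 i).2, Bool.and_eq_true, decide_eq_true hi] at this
    exact this.2
  · -- increasing
    have h1 := hz0 i (by omega)
    have h2 := hz0 j (by omega)
    have hle : enc N (List.replicate H 0 ++ [i]) ≤ enc N (List.replicate H 0 ++ [j]) := by
      rw [enc_le_iff (A := List.replicate H 0) (B := [i]) (B' := [j]) rfl]
      simp only [enc, List.length_nil, pow_zero, Nat.mul_one, Nat.add_zero]
      omega
    have := hc (D.chD N H) (by simp [CDat.chains]) _ _ h1 h2 hle (by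
      simp only [CDat.chD, (h00 i).1, (h00 i).2, hi, decide_true, Bool.and_self]) (by
      simp only [CDat.chD, (h00 j).1, (h00 j).2, hj, decide_true, Bool.and_self])
    simp only [CDat.chD, (h00 i).2, (h00 j).2] at this
    rw [enc_le_iff (by simp)] at this
    have hr : OKt N (H - 1) (List.replicate (H - 1) 0) := okt_replicate hN
    change S i < S j
    by_contra hcon
    have hle2 : S j ≤ S i := by omega
    change enc N (S i :: (N - 1 - i) :: List.replicate (H - 1) 0) ≤
      enc N (S j :: (N - 1 - j) :: List.replicate (H - 1) 0) at this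
    simp only [enc, List.length_cons, List.length_replicate] at this
    have e1 := enc_lt' hr
    have e2 : S j * N ^ (H - 1 + 1) ≤ S i * N ^ (H - 1 + 1) := Nat.mul_le_mul_right _ hle2
    have e3 : (N - 1 - j + 1) * N ^ (H - 1) ≤ (N - 1 - i) * N ^ (H - 1) :=
      Nat.mul_le_mul_right _ (by omega)
    rw [Nat.add_mul] at e3
    omega
  · -- the check
    have h1 := okt_snoc hxs hi
    obtain ⟨t1, t2⟩ := take_append_single (i := i) hxs.1
    have h2 := (hv _ h1).2
    rw [CDat.c0, t1, t2, Bool.and_eq_true] at h2
    have h3 := h2.1
    have e2 : (v (xs ++ [i])).take H = osOf o xs := by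
      apply List.ext_getElem
      · rw [List.length_take, (hv _ h1).1.1, osOf_length, hxs.1]; omega
      · intro j g1 g2
        rw [osOf_length, hxs.1] at g2
        have g3 := osOf_getD o xs (j := j) (by rw [hxs.1]; exact g2)
        have g4 := hO j g2 (xs ++ [i]) (xs.take j ++ List.replicate (H + 1 - j) 0) h1 (by
          have := hz (xs.take j) (fun x hx => hxs.2 x (List.mem_of_mem_take hx)) (by
            rw [List.length_take, hxs.1]; omega)
          rwa [List.length_take, hxs.1, Nat.min_eq_left g2.le] at this) (by
          rw [List.take_append_of_le_length (by rw [hxs.1]; omega),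
            List.take_append_of_le_length (by rw [List.length_take, hxs.1]; omega),
            List.take_take, Nat.min_self])
        have g5 : o (xs.take j) =
            (v (xs.take j ++ List.replicate (H + 1 - j) 0)).getD j 0 := by
          simp only [ho, List.length_take, hxs.1, Nat.min_eq_left g2.le]
        rw [← g5, ← g3] at g4
        rw [List.getElem_take]
        have q1 : (v (xs ++ [i])).getD j 0 = (v (xs ++ [i]))[j]'(by
            rw [(hv _ h1).1.1]; omega) := List.getD_eq_getElem _ _ _
        have q2 : (osOf o xs).getD j 0 = (osOf o xs)[j]'(by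
            rw [osOf_length, hxs.1]; exact g2) := List.getD_eq_getElem _ _ _
        rw [← q1, ← q2, g4]
    rw [e2] at h3
    by_cases hik : i < D.k
    · have e1 : (v (xs ++ [i])).getD H 0 = S i := by
        simp only [hSd]
        exact hS _ _ h1 (hz0 i hi) (by rw [t2, (h00 i).2]) (by rw [t2]; exact hik)
      rw [e1] at h3
      exact h3
    · -- for unused indices the selected input is irrelevant
      have irr : ∀ (pol : Bool) (g s s' : ℕ) (xs os : List ℕ),
          D.chk i s pol g xs os = true → D.chk i s' pol g xs os = true := by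
        intro pol g s s' xs
        induction xs generalizing pol g with
        | nil => intro os h; cases pol <;> cases os <;> simp [CDat.chk] at h
        | cons x xs ih =>
          intro os h
          cases os with
          | nil => cases pol <;> simp [CDat.chk] at h
          | cons o os =>
            cases pol
            · simp only [CDat.chk, Bool.or_eq_true, Bool.and_eq_true] at h ⊢
              rcases h with h | h | h | h
              · left
                refine ⟨h.1, ?_⟩
                simp [hik]
              · right; left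
                exact ⟨h.1, h.2.1, ih _ _ _ h.2.2⟩
              · right; right; left
                exact ⟨h.1, h.2.imp id (ih _ _ _)⟩
              · right; right; right
                exact ⟨h.1, h.2.1, ih _ _ _ h.2.2⟩
            · simp only [CDat.chk, Bool.or_eq_true, Bool.and_eq_true] at h ⊢
              rcases h with h | h | h | h
              · left
                refine ⟨h.1, h.2.1, Or.inl ?_⟩
                have := h.2.1
                simp only [decide_eq_true_eq] at this
                simp only [Bool.not_eq_true', decide_eq_false_iff_not]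
                omega
              · right; left
                exact ⟨h.1, h.2.imp id (ih _ _ _)⟩
              · right; right; left
                exact ⟨h.1, h.2.1, ih _ _ _ h.2.2⟩
              · right; right; right
                exact ⟨h.1, h.2.imp id (ih _ _ _)⟩
      exact irr _ _ _ _ _ _ h3

theorem chains_bwd (hH : 0 < H) (hN : 0 < N) (hk : D.k ≤ N) {S : ℕ → ℕ} {o : List ℕ → ℕ}
    (ho : ∀ l, o l < N) (hS : ∀ i < N, S i < N) (hin : ∀ i < D.k, D.kd .input (S i) = true)
    (hmono : ∀ i < D.k, ∀ j < D.k, i < j → S i < S j)
    (hchk : ∀ xs, OKt N H xs → ∀ i < N, D.chk i (S i) true D.out xs (osOf o xs) = true) :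
    ∃ v : List ℕ → List ℕ,
      (∀ ts, OKt N (H + 1) ts → OKt N (H + 1) (v ts) ∧ D.c0 H ts (v ts) = true) ∧
      ∀ c ∈ D.chains N H, ∀ ts ts', OKt N (H + 1) ts → OKt N (H + 1) ts' →
        enc N ts ≤ enc N ts' → c.con ts = true → c.con ts' = true →
          enc N (c.F ts (v ts)) ≤ enc N (c.F ts' (v ts')) := by
  have hlen : ∀ ts, OKt N (H + 1) ts → (osOf o (ts.take H)).length = H := fun ts hts => by
    rw [osOf_length, List.length_take, hts.1]; omega
  set v : List ℕ → List ℕ := fun ts => osOf o (ts.take H) ++ [S (ts.getD H 0)] with hvd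
  have hvj : ∀ ts, OKt N (H + 1) ts → ∀ j < H, (v ts).getD j 0 = o (ts.take j) := by
    intro ts hts j hj
    simp only [hvd]
    rw [List.getD_append _ _ _ _ (by rw [hlen ts hts]; exact hj),
      osOf_getD o _ (by rw [List.length_take, hts.1]; omega), List.take_take,
      Nat.min_eq_left hj.le]
  have hvH : ∀ ts, OKt N (H + 1) ts → (v ts).take H = osOf o (ts.take H) ∧
      (v ts).getD H 0 = S (ts.getD H 0) := fun ts hts =>
    take_append_single (hlen ts hts)
  refine ⟨v, fun ts hts => ⟨?_, ?_⟩, ?_⟩
  · have : OKt N H (osOf o (ts.take H)) := ⟨hlen ts hts, osOf_lt ho _⟩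
    exact okt_snoc this (hS _ (okt_getD hts (by omega)))
  · rw [CDat.c0, (hvH ts hts).1, (hvH ts hts).2,
      hchk _ (okt_take hts (by omega)) _ (okt_getD hts (by omega)), Bool.true_and]
    by_cases h : ts.getD H 0 < D.k
    · rw [hin _ h, Bool.or_true]
    · rw [decide_eq_false h]; rfl
  · intro c hc ts ts' h1 h2 hle k1 k2
    simp only [CDat.chains, List.mem_append, List.mem_cons, List.mem_flatMap, List.mem_range,
      List.not_mem_nil, or_false] at hc
    have hr : OKt N (H - 1) (List.replicate (H - 1) 0) := okt_replicate hN
    rcases hc with (rfl | ⟨j, hj, hc⟩) | ⟨i, hi, hc⟩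
    · simp only [CDat.chD, Bool.and_eq_true, decide_eq_true_eq] at k1 k2
      simp only [CDat.chD, (hvH ts h1).2, (hvH ts' h2).2]
      have e1 := split_snoc h1
      have e2 := split_snoc h2
      rw [e1, e2, k1.1, k2.1, enc_le_iff (A := List.replicate H 0) (B := [ts.getD H 0])
        (B' := [ts'.getD H 0]) rfl] at hle
      simp only [enc, List.length_nil, pow_zero, Nat.mul_one, Nat.add_zero] at hle
      rcases Nat.eq_or_lt_of_le hle with h | h
      · rw [h]
      · have h3 := hmono _ k1.2 _ k2.2 h
        have e3 : ∀ a b : ℕ, List.replicate (H + 1) 0 ++ (a :: b :: List.replicate (H - 1) 0) =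
            (List.replicate (H + 1) 0 ++ [a]) ++ (b :: List.replicate (H - 1) 0) := by
          intro a b; simp
        rw [e3, e3]
        refine enc_le_of_lt (m := H - 1 + 1) (hr.cons (by omega)) (by simp) ?_
        rw [enc_append, enc_append]
        simp [enc]
        exact h3
    · have hF : ∀ s, enc N ((chO N H j s).F ts (v ts)) ≤ enc N ((chO N H j s).F ts' (v ts')) := by
        intro s
        simp only [chO, hvj ts h1 j hj, hvj ts' h2 j hj]
        have t1 := okt_take h1 (show j ≤ H + 1 by omega)
        have t2 := okt_take h2 (show j ≤ H + 1 by omega)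
        rcases Nat.eq_or_lt_of_le (enc_take_le h1 h2 hle j) with h | h
        · have := enc_inj (by rw [t1.1, t2.1]) t1.2 t2.2 h
          rw [this]
        · rw [List.append_assoc, List.append_assoc]
          refine enc_le_of_lt (m := (H + 1 - j) + (H + 1)) ?_ (by simp) h
          exact (okt_replicate hN).append ((okt_replicate hN).cons (rv_lt (ho _)))
      rcases hc with rfl | rfl
      · exact hF _
      · exact hF _
    · have hF : ∀ s, (chS N H i s).con ts = true → (chS N H i s).con ts' = true →
          enc N ((chS N H i s).F ts (v ts)) ≤ enc N ((chS N H i s).F ts' (v ts')) := by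
        intro s g1 g2
        simp only [chS, decide_eq_true_eq] at g1 g2
        simp only [chS, (hvH ts h1).2, (hvH ts' h2).2, g1, g2, le_refl]
      rcases hc with rfl | rfl
      · exact hF _ k1 k2
      · exact hF _ k1 k2

/-- Number of chains. -/
theorem chains_length : (D.chains N H).length = 2 * D.k + 2 * H + 1 := by
  simp [CDat.chains, List.length_flatMap]
  ring

/-! ### From circuits to numbers -/

/-- The data of a circuit. -/
def Circuit.dat (C : Circuit) (k : ℕ) : CDat where
  k := k
  out := C.out
  kd κ g := if h : g < C.n then decide (C.kind ⟨g, h⟩ = κ) else false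
  wr g h := if hg : g < C.n then if hh : h < C.n then C.wire ⟨g, hg⟩ ⟨h, hh⟩ else false else false

variable (C : Circuit) (k : ℕ)

theorem dat_kd {κ : Kind} {g : ℕ} (hg : g < C.n) :
    (C.dat k).kd κ g = true ↔ C.kind ⟨g, hg⟩ = κ := by
  simp [Circuit.dat, hg]

theorem dat_wr {g h : ℕ} (hg : g < C.n) (hh : h < C.n) :
    (C.dat k).wr g h = C.wire ⟨g, hg⟩ ⟨h, hh⟩ := by
  simp [Circuit.dat, hg, hh]

theorem dat_wr_lt {g h : ℕ} (hw : (C.dat k).wr g h = true) : g < C.n ∧ h < C.n := by
  simp only [Circuit.dat] at hw
  split at hw
  · rename_i h1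
    split at hw
    · rename_i h2; exact ⟨h1, h2⟩
    · simp at hw
  · simp at hw

/-- Every assignment has an evaluation. -/
theorem exists_eval (S : Finset (Fin C.n)) : ∃ e, C.Eval S e := by
  classical
  have key : ∀ m ≤ C.n, ∃ e : Fin C.n → Bool, ∀ g : Fin C.n, g.val < m →
      match C.kind g with
      | .input => (e g = true ↔ g ∈ S)
      | .conj => (e g = true ↔ ∀ h, C.wire g h = true → e h = true)
      | .disj => (e g = true ↔ ∃ h, C.wire g h = true ∧ e h = true)
      | .neg => (e g = true ↔ ∀ h, C.wire g h = true → e h = false) := by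
    intro m
    induction m with
    | zero => intro _; exact ⟨fun _ => false, fun g hg => by omega⟩
    | succ m ih =>
      intro hm
      obtain ⟨e, he⟩ := ih (by omega)
      set g0 : Fin C.n := ⟨m, by omega⟩ with hg0
      obtain ⟨b, hb⟩ : ∃ b : Bool, b = match C.kind g0 with
        | .input => decide (g0 ∈ S)
        | .conj => decide (∀ h, C.wire g0 h = true → e h = true)
        | .disj => decide (∃ h, C.wire g0 h = true ∧ e h = true)
        | .neg => decide (∀ h, C.wire g0 h = true → e h = false) := ⟨_, rfl⟩
      refine ⟨Function.update e g0 b, fun g hg => ?_⟩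
      have hsame : ∀ h, C.wire g h = true → Function.update e g0 b h = e h := by
        intro h hw
        have h1 := C.lt_of_wire g h hw
        refine Function.update_of_ne (fun hh => ?_) _ _
        have h2 : h.val < g.val := h1
        rw [hh, hg0] at h2
        simp only at h2
        omega
      by_cases hgm : g = g0
      · subst hgm
        rw [Function.update_self]
        cases hK : C.kind g0 <;> simp only [hK] at hb ⊢ <;>
          (have hb2 := congrArg (· = true) hb; simp only [decide_eq_true_eq] at hb2; rw [hb2])
        · constructor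
          · intro h1 h hw; rw [hsame h hw]; exact h1 h hw
          · intro h1 h hw; rw [← hsame h hw]; exact h1 h hw
        · constructor
          · rintro ⟨h, hw, h1⟩; exact ⟨h, hw, by rw [hsame h hw]; exact h1⟩
          · rintro ⟨h, hw, h1⟩; exact ⟨h, hw, by rw [← hsame h hw]; exact h1⟩
        · constructor
          · intro h1 h hw; rw [hsame h hw]; exact h1 h hw
          · intro h1 h hw; rw [← hsame h hw]; exact h1 h hw
      · have hlt : g.val < m := by
          have : g.val ≠ m := fun h => hgm (Fin.ext h)
          omega
        have h0 := he g hlt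
        rw [Function.update_of_ne hgm]
        cases hK : C.kind g <;> simp only [hK] at h0 ⊢
        · exact h0
        · rw [h0]
          constructor
          · intro h1 h hw; rw [hsame h hw]; exact h1 h hw
          · intro h1 h hw; rw [← hsame h hw]; exact h1 h hw
        · rw [h0]
          constructor
          · rintro ⟨h, hw, h1⟩; exact ⟨h, hw, by rw [hsame h hw]; exact h1⟩
          · rintro ⟨h, hw, h1⟩; exact ⟨h, hw, by rw [← hsame h hw]; exact h1⟩
        · rw [h0]
          constructor
          · intro h1 h hw; rw [hsame h hw]; exact h1 h hw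
          · intro h1 h hw; rw [← hsame h hw]; exact h1 h hw
  obtain ⟨e, he⟩ := key C.n le_rfl
  exact ⟨e, fun g => he g g.2⟩

/-- Evaluations, on numbers. -/
theorem ev_of_eval {S : Finset (Fin C.n)} {e : Fin C.n → Bool} (he : C.Eval S e) {s : ℕ → ℕ}
    (hs : ∀ g : Fin C.n, g ∈ S ↔ ∃ i < k, s i = g.val) :
    (C.dat k).Ev C.n s (fun g => if h : g < C.n then e ⟨g, h⟩ else false) where
  inp g hg hK := by
    rw [dat_kd C k hg] at hK
    have := he ⟨g, hg⟩
    simp only [hK] at this
    simp only [dif_pos hg]
    rw [this, hs]
    rfl
  cnj g hg hK := by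
    rw [dat_kd C k hg] at hK
    have := he ⟨g, hg⟩
    simp only [hK] at this
    simp only [dif_pos hg]
    rw [this]
    constructor
    · intro h x hx hw
      rw [dif_pos hx]
      exact h _ (by rwa [dat_wr C k hg hx] at hw)
    · intro h x hw
      have := h x.val x.2 (by rwa [dat_wr C k hg x.2])
      rwa [dif_pos x.2] at this
  dsj g hg hK := by
    rw [dat_kd C k hg] at hK
    have := he ⟨g, hg⟩
    simp only [hK] at this
    simp only [dif_pos hg]
    rw [this]
    constructor
    · rintro ⟨x, hw, h⟩
      exact ⟨x.val, x.2, by rwa [dat_wr C k hg x.2], by rwa [dif_pos x.2]⟩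
    · rintro ⟨x, hx, hw, h⟩
      exact ⟨⟨x, hx⟩, by rwa [dat_wr C k hg hx] at hw, by rwa [dif_pos hx] at h⟩
  ngt g hg hK := by
    rw [dat_kd C k hg] at hK
    have := he ⟨g, hg⟩
    simp only [hK] at this
    simp only [dif_pos hg]
    rw [this]
    constructor
    · intro h x hx hw
      rw [dif_pos hx]
      exact h _ (by rwa [dat_wr C k hg hx] at hw)
    · intro h x hw
      have := h x.val x.2 (by rwa [dat_wr C k hg x.2])
      rwa [dif_pos x.2] at this
  wr g h hw := (dat_wr_lt C k hw).2

/-- Depth bound for paths starting at `g`. -/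
def DepFrom (g : Fin C.n) (m : ℕ) : Prop :=
  ∀ l : List (Fin C.n), l.head? = some g → l.IsChain (fun g h => C.wire g h = true) →
    l.countP (fun g => (C.kind g).isGate) ≤ m

theorem isGate_iff {κ : Kind} : κ.isGate = true ↔ κ ≠ .input := by
  cases κ <;> simp [Kind.isGate]

theorem dep_of_depFrom (m : ℕ) (g : Fin C.n) (h : DepFrom C g m) :
    (C.dat k).Dep C.n m g.val := by
  induction m generalizing g with
  | zero =>
    refine .inp 0 g.val ?_
    rw [dat_kd C k g.2]
    by_contra hK
    have := h [g] rfl (List.isChain_singleton g)
    rw [List.countP_cons_of_pos (p := fun g => (C.kind g).isGate) (isGate_iff.2 hK)] at this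
    omega
  | succ m ih =>
    by_cases hK : C.kind g = .input
    · refine .inp _ _ ?_
      rw [dat_kd C k g.2]
      exact hK
    · refine .step m g.val fun x hx hw => ?_
      rw [dat_wr C k g.2 hx] at hw
      refine ih ⟨x, hx⟩ fun l hl hch => ?_
      have := h (g :: l) rfl (by
        cases l with
        | nil => exact List.isChain_singleton g
        | cons y l =>
          simp only [List.head?_cons, Option.some.injEq] at hl
          subst hl
          exact List.IsChain.cons_cons hw hch)
      rw [List.countP_cons_of_pos (p := fun g => (C.kind g).isGate) (isGate_iff.2 hK)] at this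
      omega

/-- **Correctness**: the circuit is satisfiable by an assignment of weight `k` if and only if the
chains can be satisfied. -/
theorem circuit_chains {d : ℕ} (hd : C.DepthLE d) (hk : k ≤ C.n) :
    (∃ v : List ℕ → List ℕ, (∀ ts, OKt C.n (d + 1 + 1) ts → OKt C.n (d + 1 + 1) (v ts) ∧
        (C.dat k).c0 (d + 1) ts (v ts) = true) ∧
      ∀ c ∈ (C.dat k).chains C.n (d + 1), ∀ ts ts', OKt C.n (d + 1 + 1) ts →
        OKt C.n (d + 1 + 1) ts' → enc C.n ts ≤ enc C.n ts' → c.con ts = true →
          c.con ts' = true → enc C.n (c.F ts (v ts)) ≤ enc C.n (c.F ts' (v ts'))) ↔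
      C.WeightedSat k := by
  classical
  have hN : 0 < C.n := by have := C.out.2; omega
  have hkd : ∀ κ κ' g, (C.dat k).kd κ g = true → (C.dat k).kd κ' g = true → κ = κ' := by
    intro κ κ' g h1 h2
    have hg : g < C.n := by
      by_contra hc
      simp [Circuit.dat, hc] at h1
    rw [dat_kd C k hg] at h1 h2
    rw [← h1, ← h2]
  constructor
  · rintro ⟨v, h1, h2⟩
    obtain ⟨S, o, ho, hSN, hin, hmono, hchk⟩ := chains_fwd (by omega) hN hk h1 h2
    set T : Finset (Fin C.n) := (Finset.univ : Finset (Fin k)).image
      fun i => ⟨S i.val, hSN _ (by omega)⟩ with hT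
    have hinj : ∀ i < k, ∀ j < k, S i = S j → i = j := by
      intro i hi j hj hij
      rcases Nat.lt_trichotomy i j with h | h | h
      · have := hmono i hi j hj h; omega
      · exact h
      · have := hmono j hj i hi h; omega
    have hcard : T.card = k := by
      rw [hT, Finset.card_image_of_injective, Finset.card_univ, Fintype.card_fin]
      intro i j hij
      simp only [Fin.mk.injEq] at hij
      exact Fin.ext (hinj _ i.2 _ j.2 hij)
    have hmem : ∀ g : Fin C.n, g ∈ T ↔ ∃ i < k, S i = g.val := by
      intro g
      simp only [hT, Finset.mem_image, Finset.mem_univ, true_and]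
      constructor
      · rintro ⟨i, rfl⟩
        exact ⟨i.val, i.2, rfl⟩
      · rintro ⟨i, hi, h⟩
        exact ⟨⟨i, hi⟩, Fin.ext h⟩
    obtain ⟨e, he⟩ := exists_eval C T
    refine ⟨T, hcard, fun g hg => ?_, e, he, ?_⟩
    · obtain ⟨i, hi, h⟩ := (hmem g).1 hg
      have := hin i hi
      rw [h, dat_kd C k g.2] at this
      exact this
    · have hE := ev_of_eval C k he hmem
      -- extend the strategy by zero to all lists
      have hs := chk_sound (D := C.dat k) hk hN hkd hE (d + 1) true C.out.val C.out.2
        (fun l => if l.length < d + 1 then o l else 0) (fun l hl => by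
          split
          · rename_i h; exact ho l hl h
          · exact hN) (fun xs hxs i hi => by
          have := hchk xs hxs i hi
          have e1 : ∀ (m : ℕ) (o o' : List ℕ → ℕ) (xs : List ℕ), xs.length ≤ m →
              (∀ l, l.length < m → o l = o' l) → osOf o xs = osOf o' xs := by
            intro m
            induction m with
            | zero =>
              intro o o' xs hxs _
              rw [List.length_eq_zero_iff.1 (Nat.le_zero.1 hxs)]
              rfl
            | succ m ih =>
              intro o o' xs hxs hoo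
              cases xs with
              | nil => rfl
              | cons x xs =>
                rw [osOf, osOf, hoo [] (by simp), ih _ _ xs (by simpa using hxs)
                  (fun l hl => hoo _ (by simpa using hl))]
          rw [e1 (d + 1) _ o xs hxs.1.le fun l hl => by simp [hl]]
          exact this)
      simpa using hs
  · rintro ⟨T, hcard, hinp, e, he, hout⟩
    -- increasing enumeration
    set s : ℕ → ℕ := fun i => if h : i < k then (T.orderEmbOfFin hcard ⟨i, h⟩).val else 0 with hs
    have hmem : ∀ g : Fin C.n, g ∈ T ↔ ∃ i < k, s i = g.val := by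
      intro g
      constructor
      · intro hg
        have : g ∈ Set.range (T.orderEmbOfFin hcard) := by
          rw [Finset.range_orderEmbOfFin]; exact hg
        obtain ⟨i, hi⟩ := this
        exact ⟨i.val, i.2, by simp only [hs, i.2, dif_pos]; rw [← hi]⟩
      · rintro ⟨i, hi, h⟩
        simp only [hs, hi, dif_pos] at h
        have := Finset.orderEmbOfFin_mem T hcard ⟨i, hi⟩
        rwa [Fin.ext h] at this
    have hmono : ∀ i < k, ∀ j < k, i < j → s i < s j := by
      intro i hi j hj hij
      simp only [hs, hi, hj, dif_pos]
      exact (T.orderEmbOfFin hcard).strictMono (show (⟨i, hi⟩ : Fin k) < ⟨j, hj⟩ from hij)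
    have hsN : ∀ i < C.n, s i < C.n := by
      intro i _
      simp only [hs]
      split
      · exact Fin.isLt _
      · exact hN
    have hinj : ∀ i < k, ∀ j < k, s i = s j → i = j := by
      intro i hi j hj hij
      rcases Nat.lt_trichotomy i j with h | h | h
      · have := hmono i hi j hj h; omega
      · exact h
      · have := hmono j hj i hi h; omega
    have hE := ev_of_eval C k he hmem
    have hdep : (C.dat k).Dep C.n d C.out.val :=
      dep_of_depFrom C k d C.out fun l h1 h2 => hd l ⟨h1, h2⟩
    obtain ⟨o, o1, o2⟩ := chk_complete (D := C.dat k) hk hN hE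
      (fun g hg => ⟨C.kind ⟨g, hg⟩, (dat_kd C k hg).2 rfl⟩) hinj d true C.out.val C.out.2 hdep
      (by simpa using hout)
    exact chains_bwd (by omega) hN hk o1 hsN (fun i hi => by
      have hi' : i < k := hi
      obtain h1 := (hmem ⟨s i, hsN i (by omega)⟩).2 ⟨i, hi', rfl⟩
      exact (dat_kd C k (hsN i (by omega))).2 (hinp _ h1)) hmono o2

end Pool.Agent.Lib.MP_58f141_lc
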