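import Mathlib

/-! # Binary strings with at most one `1` before every `0`: subsequences and slack -/

namespace Pool.Agent.Lib.MP_58f141_lc

set_option linter.unusedSimpArgs false
set_option linter.unusedVariables false

open scoped List

/-- An optional `1`, then a `0`. -/
def blk (b : Bool) : List Bool := if b then [true, false] else [false]

/-- The string with `n` zeros (the zeros number `x`, …, `x + n - 1`) and a `1` before the zeros
number `z` with `P z`. -/
def seg (P : ℕ → Bool) (x n : ℕ) : List Bool := (List.range' x n).flatMap fun z => blk (P z)

theorem seg_zero (P : ℕ → Bool) (x : ℕ) : seg P x 0 = [] := rfl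

theorem seg_succ (P : ℕ → Bool) (x n : ℕ) : seg P x (n + 1) = blk (P x) ++ seg P (x + 1) n := by
  simp [seg, List.range'_succ]

theorem seg_add (P : ℕ → Bool) (x m n : ℕ) :
    seg P x (m + n) = seg P x m ++ seg P (x + m) n := by
  induction m generalizing x with
  | zero => simp [seg_zero]
  | succ m ih =>
    rw [show m + 1 + n = (m + n) + 1 by ring, seg_succ, ih, seg_succ, List.append_assoc,
      show x + 1 + m = x + (m + 1) by ring]

theorem seg_congr {P Q : ℕ → Bool} {x n : ℕ} (h : ∀ y, x ≤ y → y < x + n → P y = Q y) :
    seg P x n = seg Q x n := by
  induction n generalizing x with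
  | zero => rfl
  | succ n ih =>
    rw [seg_succ, seg_succ, h x le_rfl (by omega), ih fun y h1 h2 => h y (by omega) (by omega)]

theorem count0_blk (b : Bool) : (blk b).count false = 1 := by cases b <;> rfl
theorem count1_blk (b : Bool) : (blk b).count true = if b then 1 else 0 := by cases b <;> rfl

theorem count0_seg (P : ℕ → Bool) (x n : ℕ) : (seg P x n).count false = n := by
  induction n generalizing x with
  | zero => rfl
  | succ n ih => rw [seg_succ, List.count_append, count0_blk, ih]; ring

theorem count1_seg (P : ℕ → Bool) (x n : ℕ) :
    (seg P x n).count true = ((Finset.Ico x (x + n)).filter fun z => P z = true).card := by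
  induction n generalizing x with
  | zero => simp [seg]
  | succ n ih =>
    rw [seg_succ, List.count_append, count1_blk, ih]
    have : Finset.Ico x (x + (n + 1)) = insert x (Finset.Ico (x + 1) (x + 1 + n)) := by
      ext y; simp only [Finset.mem_Ico, Finset.mem_insert]; omega
    rw [this, Finset.filter_insert]
    split
    · rw [Finset.card_insert_of_notMem (by simp)]; ring
    · simp

/-- Image of a `1`. -/
theorem one_sub {P : ℕ → Bool} {k z : ℕ} {u : List Bool}
    (h : true :: u <+ seg P z k) :
    ∃ j, j < k ∧ P (z + j) = true ∧ u <+ false :: seg P (z + j + 1) (k - j - 1) := by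
  induction k generalizing z with
  | zero => simp [seg_zero] at h
  | succ k ih =>
    rw [seg_succ] at h
    by_cases hP : P z = true
    · refine ⟨0, by omega, by simpa using hP, ?_⟩
      rw [hP] at h
      simp only [blk, if_true, List.cons_append, List.nil_append, List.cons_sublist_cons] at h
      simpa using h
    · simp only [blk, hP, if_false, List.cons_append, List.nil_append, Bool.false_eq_true] at h
      rw [List.sublist_cons_iff] at h
      rcases h with h | ⟨r, hr, -⟩
      · obtain ⟨j, h1, h2, h3⟩ := ih h
        refine ⟨j + 1, by omega, by rw [show z + (j + 1) = z + 1 + j by ring]; exact h2, ?_⟩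
        rw [show z + (j + 1) + 1 = z + 1 + j + 1 by ring, show k + 1 - (j + 1) - 1 = k - j - 1 by
          omega]
        exact h3
      · simp at hr

theorem zero_sub {P : ℕ → Bool} {k z : ℕ} {u : List Bool}
    (h : false :: u <+ seg P z (k + 1)) : u <+ seg P (z + 1) k := by
  rw [seg_succ] at h
  by_cases hP : P z = true
  · rw [hP] at h
    simp only [blk, if_true, List.cons_append, List.nil_append] at h
    rw [List.sublist_cons_iff] at h
    rcases h with h | ⟨r, hr, -⟩
    · rwa [List.cons_sublist_cons] at h
    · simp at hr
  · simp only [blk, hP, if_false, List.cons_append, List.nil_append, Bool.false_eq_true,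
      List.cons_sublist_cons] at h
    exact h

/-- A subsequence relation between two such strings gives nondecreasing shifts of the ones. -/
theorem crit_fwd {P Q : ℕ → Bool} {n x d E : ℕ} (h : seg Q x n <+ seg P (x + d) (n + E)) :
    ∃ e : ℕ → ℕ, (∀ y, x ≤ y → y < x + n → Q y = true →
        d ≤ e y ∧ e y ≤ d + E ∧ P (y + e y) = true) ∧
      ∀ y y', x ≤ y → y ≤ y' → y' < x + n → Q y = true → Q y' = true → e y ≤ e y' := by
  induction n generalizing x d E with
  | zero => exact ⟨fun _ => 0, fun y h1 h2 => by omega, fun y y' h1 h2 h3 => by omega⟩
  | succ n ih =>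
    rw [seg_succ] at h
    by_cases hQ : Q x = true
    · rw [hQ] at h
      simp only [blk, if_true, List.cons_append, List.nil_append] at h
      obtain ⟨j, j1, j2, j3⟩ := one_sub h
      rw [List.cons_sublist_cons] at j3
      have hc := j3.count_le false
      rw [count0_seg, count0_seg] at hc
      obtain ⟨e, e1, e2⟩ := ih (x := x + 1) (d := d + j) (E := E - j) (by
        rw [show x + 1 + (d + j) = x + d + j + 1 by ring,
          show n + (E - j) = n + 1 + E - j - 1 by omega]
        exact j3)
      refine ⟨Function.update e x (d + j), fun y h1 h2 h3 => ?_, fun y y' h1 h2 h3 h4 h5 => ?_⟩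
      · by_cases hy : y = x
        · subst hy
          rw [Function.update_self]
          exact ⟨by omega, by omega, by rw [← Nat.add_assoc]; exact j2⟩
        · rw [Function.update_of_ne hy]
          obtain ⟨g1, g2, g3⟩ := e1 y (by omega) (by omega) h3
          exact ⟨by omega, by omega, g3⟩
      · by_cases hy : y = x
        · subst hy
          rw [Function.update_self]
          by_cases hy' : y' = y
          · subst hy'; rw [Function.update_self]
          · rw [Function.update_of_ne hy']
            exact (e1 y' (by omega) (by omega) h5).1
        · have hy' : y' ≠ x := by omega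
          rw [Function.update_of_ne hy, Function.update_of_ne hy']
          exact e2 y y' (by omega) h2 (by omega) h4 h5
    · simp only [blk, hQ, if_false, List.cons_append, List.nil_append, Bool.false_eq_true] at h
      rw [show n + 1 + E = (n + E) + 1 by ring] at h
      have h' := zero_sub h
      obtain ⟨e, e1, e2⟩ := ih (x := x + 1) (d := d) (E := E) (by
        rw [show x + 1 + d = x + d + 1 by ring]; exact h')
      have hne : ∀ y, Q y = true → y ≠ x := fun y hy hyx => hQ (hyx ▸ hy)
      refine ⟨e, fun y h1 h2 h3 => ?_, fun y y' h1 h2 h3 h4 h5 => ?_⟩
      · exact e1 y (by have := hne y h3; omega) (by omega) h3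
      · exact e2 y y' (by have := hne y h4; omega) h2 (by omega) h4 h5

theorem sub_blk (b : Bool) (l : List Bool) : false :: l <+ blk b ++ l := by
  cases b
  · exact List.Sublist.refl _
  · exact List.sublist_cons_self _ _

/-- The converse. -/
theorem crit_bwd {P Q : ℕ → Bool} {n x d E : ℕ} (e : ℕ → ℕ)
    (h1 : ∀ y, x ≤ y → y < x + n → Q y = true → d ≤ e y ∧ e y ≤ d + E ∧ P (y + e y) = true)
    (h2 : ∀ y y', x ≤ y → y ≤ y' → y' < x + n → Q y = true → Q y' = true → e y ≤ e y') :
    seg Q x n <+ seg P (x + d) (n + E) := by
  induction n generalizing x d E with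
  | zero => simp [seg_zero]
  | succ n ih =>
    rw [seg_succ]
    by_cases hQ : Q x = true
    · obtain ⟨g1, g2, g3⟩ := h1 x le_rfl (by omega) hQ
      rw [show n + 1 + E = (e x - d) + ((n + (d + E - e x)) + 1) by omega, seg_add,
        show x + d + (e x - d) = x + e x by omega, seg_succ, hQ, g3]
      refine List.Sublist.trans ?_ (List.sublist_append_right _ _)
      simp only [blk, if_true, List.cons_append, List.nil_append, List.cons_sublist_cons]
      have := ih (x := x + 1) (d := e x) (E := d + E - e x) (fun y k1 k2 k3 => by
        obtain ⟨m1, m2, m3⟩ := h1 y (by omega) (by omega) k3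
        have := h2 x y le_rfl (by omega) (by omega) hQ k3
        exact ⟨this, by omega, m3⟩) (fun y y' k1 k2 k3 k4 k5 =>
          h2 y y' (by omega) k2 (by omega) k4 k5)
      rw [show x + e x + 1 = x + 1 + e x by ring]
      exact this
    · simp only [blk, hQ, if_false, List.cons_append, List.nil_append, Bool.false_eq_true]
      rw [show n + 1 + E = (n + E) + 1 by ring, seg_succ]
      refine List.Sublist.trans (List.cons_sublist_cons.2 ?_) (sub_blk _ _)
      have := ih (x := x + 1) (d := d) (E := E) (fun y k1 k2 k3 => h1 y (by omega) (by omega) k3)
        (fun y y' k1 k2 k3 k4 k5 => h2 y y' (by omega) k2 (by omega) k4 k5)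
      rw [show x + d + 1 = x + 1 + d by ring]
      exact this

/-- A subsequence containing all zeros has the same shape. -/
theorem shape {P : ℕ → Bool} {n x : ℕ} {u : List Bool} (h : u <+ seg P x n)
    (hc : n ≤ u.count false) :
    ∃ Q : ℕ → Bool, (∀ y, Q y = true → P y = true ∧ x ≤ y ∧ y < x + n) ∧ u = seg Q x n := by
  induction n generalizing x u with
  | zero =>
    rw [seg_zero, List.sublist_nil] at h
    exact ⟨fun _ => false, fun y hy => by simp at hy, by rw [h, seg_zero]⟩
  | succ n ih =>
    rw [seg_succ, List.sublist_append_iff] at h
    obtain ⟨l1, l2, rfl, h1, h2⟩ := h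
    have c1 := h1.count_le false
    have c2 := h2.count_le false
    rw [count0_blk] at c1
    rw [count0_seg] at c2
    rw [List.count_append] at hc
    obtain ⟨Q, q1, rfl⟩ := ih h2 (by omega)
    have hl1 : ∃ b : Bool, (b = true → P x = true) ∧ l1 = blk b := by
      have hl : l1.count false = 1 := by omega
      clear hc h2 c1 c2 q1
      unfold blk at h1
      split at h1
      · rename_i hP
        have hm : l1 ∈ List.sublists [true, false] := List.mem_sublists.2 h1
        have : List.sublists [true, false] = [[], [true], [false], [true, false]] := by decide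
        rw [this] at hm
        simp only [List.mem_cons, List.not_mem_nil, or_false] at hm
        rcases hm with rfl | rfl | rfl | rfl
        · simp at hl
        · simp at hl
        · exact ⟨false, by simp, rfl⟩
        · exact ⟨true, fun _ => hP, rfl⟩
      · have hm : l1 ∈ List.sublists [false] := List.mem_sublists.2 h1
        have : List.sublists [false] = [[], [false]] := by decide
        rw [this] at hm
        simp only [List.mem_cons, List.not_mem_nil, or_false] at hm
        rcases hm with rfl | rfl
        · simp at hl
        · exact ⟨false, by simp, rfl⟩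
    obtain ⟨b, hb, rfl⟩ := hl1
    refine ⟨Function.update Q x b, fun y hy => ?_, ?_⟩
    · by_cases hyx : y = x
      · subst hyx
        rw [Function.update_self] at hy
        exact ⟨hb hy, le_rfl, by omega⟩
      · rw [Function.update_of_ne hyx] at hy
        obtain ⟨k1, k2, k3⟩ := q1 y hy
        exact ⟨k1, by omega, by omega⟩
    · rw [seg_succ, Function.update_self]
      congr 1
      exact seg_congr fun y k1 k2 => by rw [Function.update_of_ne (by omega)]

/-- `0^Z (1 0^Z)^L`. -/
def uni (L Z : ℕ) : List Bool :=
  List.replicate Z false ++ (List.replicate L (true :: List.replicate Z false)).flatten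

theorem count1_uni (L Z : ℕ) : (uni L Z).count true = L := by
  have h : (List.replicate Z false).count true = 0 :=
    List.count_eq_zero.2 fun h => by simp [List.mem_replicate] at h
  have h2 : ∀ L : ℕ, (List.replicate L (true :: List.replicate Z false)).flatten.count true = L := by
    intro L
    induction L with
    | zero => rfl
    | succ L ih =>
      rw [List.replicate_succ, List.flatten_cons, List.count_append, ih, List.count_cons_self, h]
      ring
  rw [uni, List.count_append, h, h2]
  ring

/-- Every string with at most `Z` zeros and `L` ones is a subsequence of `0^Z (1 0^Z)^L`. -/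
theorem sub_uni {Z : ℕ} {u : List Bool} {L a : ℕ}
    (h0 : u.count false ≤ a) (ha : a ≤ Z) (h1 : u.count true ≤ L) :
    u <+ List.replicate a false ++
      (List.replicate L (true :: List.replicate Z false)).flatten := by
  induction u generalizing L a with
  | nil => exact List.nil_sublist _
  | cons c u ih =>
    cases c
    · rw [List.count_cons_self] at h0
      rw [List.count_cons_of_ne (by decide)] at h1
      obtain ⟨a, rfl⟩ : ∃ b, a = b + 1 := ⟨a - 1, by omega⟩
      rw [List.replicate_succ, List.cons_append, List.cons_sublist_cons]
      exact ih (by omega) (by omega) h1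
    · rw [List.count_cons_self] at h1
      rw [List.count_cons_of_ne (by decide)] at h0
      obtain ⟨L, rfl⟩ : ∃ b, L = b + 1 := ⟨L - 1, by omega⟩
      rw [List.replicate_succ (n := L), List.flatten_cons, List.cons_append]
      refine List.Sublist.trans ?_ (List.sublist_append_right _ _)
      rw [List.cons_sublist_cons]
      exact ih (by omega) le_rfl (by omega)

end Pool.Agent.Lib.MP_58f141_lc
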