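import Pool.Agent.Lib.MP_58f141_lc.Zone
import Pool.Agent.Lib.PolyTM.Emit

/-! # Zones and cells indexed by digit lists -/

namespace Pool.Agent.Lib.MP_58f141_lc

set_option linter.unusedSimpArgs false
set_option linter.unusedVariables false

open scoped List
open Pool.Agent.Lib.PolyTM (enc enc_lt enc_inj OKt)

variable {N : ℕ}

theorem enc_append (A B : List ℕ) : enc N (A ++ B) = enc N A * N ^ B.length + enc N B := by
  induction A with
  | nil => simp [enc]
  | cons a A ih =>
    simp only [List.cons_append, enc, ih, List.length_append, pow_add]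
    ring

theorem enc_lt' {m : ℕ} {ts : List ℕ} (h : OKt N m ts) : enc N ts < N ^ m := by
  rw [← h.1]; exact enc_lt h.2

theorem div_enc {A B : List ℕ} {m : ℕ} (hB : OKt N m B) :
    enc N (A ++ B) / N ^ m = enc N A ∧ enc N (A ++ B) % N ^ m = enc N B := by
  have h := enc_lt' hB
  have hp : 0 < N ^ m := by omega
  rw [enc_append, hB.1, Nat.mul_comm, Nat.mul_add_div hp, Nat.div_eq_of_lt h, Nat.mul_add_mod,
    Nat.mod_eq_of_lt h]
  exact ⟨by ring, rfl⟩

theorem enc_le_of_lt {A A' B B' : List ℕ} {m : ℕ} (hB : OKt N m B) (hB' : B'.length = m)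
    (h : enc N A < enc N A') : enc N (A ++ B) ≤ enc N (A' ++ B') := by
  have h1 := enc_lt' hB
  rw [enc_append, enc_append, hB.1, hB']
  have h2 : (enc N A + 1) * N ^ m ≤ enc N A' * N ^ m := Nat.mul_le_mul_right _ h
  rw [Nat.add_mul] at h2
  omega

theorem enc_le_iff {A B B' : List ℕ} (h : B.length = B'.length) :
    enc N (A ++ B) ≤ enc N (A ++ B') ↔ enc N B ≤ enc N B' := by
  rw [enc_append, enc_append, h]
  omega

theorem enc_take_le {ts ts' : List ℕ} {m : ℕ} (h : OKt N m ts) (h' : OKt N m ts')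
    (hle : enc N ts ≤ enc N ts') (j : ℕ) : enc N (ts.take j) ≤ enc N (ts'.take j) := by
  have e1 : OKt N (m - j) (ts.drop j) :=
    ⟨by rw [List.length_drop, h.1], fun x hx => h.2 x (List.mem_of_mem_drop hx)⟩
  have e2 : OKt N (m - j) (ts'.drop j) :=
    ⟨by rw [List.length_drop, h'.1], fun x hx => h'.2 x (List.mem_of_mem_drop hx)⟩
  have d1 := (div_enc (A := ts.take j) e1).1
  have d2 := (div_enc (A := ts'.take j) e2).1
  rw [List.take_append_drop] at d1 d2
  rw [← d1, ← d2]
  exact Nat.div_le_div_right hle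

/-- Digits of a number. -/
def dgs (N : ℕ) : ℕ → ℕ → List ℕ
  | 0, _ => []
  | m + 1, z => z / N ^ m :: dgs N m (z % N ^ m)

theorem dgs_enc {m : ℕ} {ts : List ℕ} (h : OKt N m ts) : dgs N m (enc N ts) = ts := by
  induction m generalizing ts with
  | zero =>
    obtain ⟨h1, -⟩ := h
    rw [List.length_eq_zero_iff.1 h1]
    rfl
  | succ m ih =>
    obtain ⟨h1, h2⟩ := h
    cases ts with
    | nil => simp at h1
    | cons t ts =>
      have hts : OKt N m ts := ⟨by simpa using h1, fun x hx => h2 x (List.mem_cons_of_mem _ hx)⟩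
      have := div_enc (A := [t]) hts
      simp only [List.singleton_append, enc, List.length_nil, pow_zero, Nat.mul_one,
        Nat.add_zero] at this
      simp only [dgs, enc, this.1, this.2, ih hts]

theorem dgs_ok {m z : ℕ} (h : z < N ^ m) : OKt N m (dgs N m z) ∧ enc N (dgs N m z) = z := by
  induction m generalizing z with
  | zero =>
    simp only [pow_zero, Nat.lt_one_iff] at h
    subst h
    exact ⟨⟨rfl, by simp [dgs]⟩, rfl⟩
  | succ m ih =>
    have hp : 0 < N ^ m := by
      rcases Nat.eq_zero_or_pos (N ^ m) with h0 | h0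
      · rw [pow_succ, h0] at h; omega
      · exact h0
    obtain ⟨g1, g2⟩ := ih (Nat.mod_lt z hp)
    refine ⟨g1.cons ((Nat.div_lt_iff_lt_mul hp).2 (by rw [pow_succ, Nat.mul_comm] at h; exact h)),
      ?_⟩
    simp only [dgs, enc, g1.1, g2]
    rw [Nat.mul_comm]
    exact Nat.div_add_mod z (N ^ m)

theorem enc_rev {m : ℕ} {vs : List ℕ} (h : OKt N m vs) :
    enc N (vs.map fun x => N - 1 - x) + enc N vs + 1 = N ^ m := by
  induction m generalizing vs with
  | zero =>
    obtain ⟨h1, -⟩ := h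
    rw [List.length_eq_zero_iff.1 h1]
    rfl
  | succ m ih =>
    obtain ⟨h1, h2⟩ := h
    cases vs with
    | nil => simp at h1
    | cons t ts =>
      have hts : OKt N m ts := ⟨by simpa using h1, fun x hx => h2 x (List.mem_cons_of_mem _ hx)⟩
      have ht : t < N := h2 t List.mem_cons_self
      have := ih hts
      simp only [List.map_cons, enc, List.length_map, hts.1]
      obtain ⟨d, hd⟩ : ∃ d, N = d + 1 + t := ⟨N - 1 - t, by omega⟩
      have e1 : N - 1 - t = d := by omega
      rw [e1, pow_succ]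
      calc d * N ^ m + enc N (ts.map fun x => N - 1 - x) + (t * N ^ m + enc N ts) + 1
          = d * N ^ m + t * N ^ m + (enc N (ts.map fun x => N - 1 - x) + enc N ts + 1) := by ring
        _ = d * N ^ m + t * N ^ m + N ^ m := by rw [this]
        _ = N ^ m * (d + 1 + t) := by ring
        _ = N ^ m * N := by rw [← hd]

theorem ok_map_rev {m : ℕ} {vs : List ℕ} (h : OKt N m vs) :
    OKt N m (vs.map fun x => N - 1 - x) := by
  refine ⟨by simp [h.1], fun x hx => ?_⟩
  obtain ⟨y, hy, rfl⟩ := List.mem_map.1 hx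
  have := h.2 y hy
  omega

theorem enc_zero_iff {m : ℕ} {us : List ℕ} (h : OKt N m us) :
    enc N us = 0 ↔ us = List.replicate m 0 := by
  have h0 : ∀ m, enc N (List.replicate m 0) = 0 := by
    intro m
    induction m with
    | zero => rfl
    | succ m ih => simp [List.replicate_succ, enc, ih]
  constructor
  · intro h1
    by_cases hm : m = 0
    · subst hm
      rw [List.length_eq_zero_iff.1 h.1]
      rfl
    have hN : 0 < N := by
      cases us with
      | nil => exact absurd h.1.symm hm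
      | cons u us => have := h.2 u List.mem_cons_self; omega
    refine enc_inj (N := N) (by simp [h.1]) h.2 (fun z hz => ?_) (by rw [h1, h0])
    rw [(List.mem_replicate.1 hz).2]
    exact hN
  · rintro rfl
    exact h0 m

/-- A chain in terms of digits. -/
structure DChn where
  con : List ℕ → Bool
  F : List ℕ → List ℕ → List ℕ

/-- The chain on numbers. -/
def DChn.num (N m1 m2 : ℕ) (c : DChn) : Chn where
  con p := c.con (dgs N m1 p)
  F k := enc N (c.F (dgs N m1 (k / N ^ m2)) (dgs N m2 (k % N ^ m2)))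

/-- Allowed values, on numbers. -/
def num0 (N m1 m2 : ℕ) (c0 : List ℕ → List ℕ → Bool) (k : ℕ) : Bool :=
  c0 (dgs N m1 (k / N ^ m2)) (dgs N m2 (k % N ^ m2))

/-- The strings. -/
def dstrings (N m1 m2 : ℕ) (c0 : List ℕ → List ℕ → Bool) (cs : List DChn) : List (List Bool) :=
  strings (N ^ m1) (N ^ m2) (N ^ (m1 + m2)) (num0 N m1 m2 c0) (cs.map (DChn.num N m1 m2))

/-- The target length. -/
def target (N m1 m2 : ℕ) : ℕ := N ^ (m1 + m2) * N ^ (m1 + m2) + N ^ m1

theorem dcore {m1 m2 : ℕ} (hm : 0 < m1) (c0 : List ℕ → List ℕ → Bool) (cs : List DChn)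
    (hF : ∀ c ∈ cs, ∀ ts vs, OKt N m1 ts → OKt N m2 vs → c.con ts = true →
      OKt N (m1 + m2) (c.F ts vs)) :
    (∃ u : List Bool, (∀ s ∈ dstrings N m1 m2 c0 cs, u <+ s) ∧ target N m1 m2 ≤ u.length) ↔
      ∃ v : List ℕ → List ℕ, (∀ ts, OKt N m1 ts → OKt N m2 (v ts) ∧ c0 ts (v ts) = true) ∧
        ∀ c ∈ cs, ∀ ts ts', OKt N m1 ts → OKt N m1 ts' → enc N ts ≤ enc N ts' →
          c.con ts = true → c.con ts' = true →
            enc N (c.F ts (v ts)) ≤ enc N (c.F ts' (v ts')) := by
  have hV : 0 < N ^ m1 → 0 < N ^ m2 := fun h => by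
    have : 0 < N := by
      rcases Nat.eq_zero_or_pos N with h0 | h0
      · subst h0; rw [zero_pow (by omega)] at h; omega
      · exact h0
    positivity
  have hW : N ^ (m1 + m2) = N ^ m1 * N ^ m2 := pow_add N m1 m2
  have key := core hV hW (num0 N m1 m2 c0) (cs.map (DChn.num N m1 m2)) (by
    intro c hc k hk hcon
    obtain ⟨d, hd, rfl⟩ := List.mem_map.1 hc
    have hpos : 0 < N ^ m2 := by
      rcases Nat.eq_zero_or_pos (N ^ m2) with h | h
      · rw [h] at hk; omega
      · exact h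
    have h1 := (dgs_ok (N := N) (m := m1) ((Nat.div_lt_iff_lt_mul hpos).2 hk)).1
    have h2 := (dgs_ok (N := N) (m := m2) (Nat.mod_lt k hpos)).1
    exact enc_lt' (hF d hd _ _ h1 h2 hcon))
  rw [dstrings, target]
  have e1 : N ^ m1 * N ^ m2 * N ^ (m1 + m2) + N ^ m1 =
      N ^ (m1 + m2) * N ^ (m1 + m2) + N ^ m1 := by rw [← hW]
  rw [e1] at key
  rw [key]
  have dec : ∀ {ts vs : List ℕ}, OKt N m1 ts → OKt N m2 vs →
      dgs N m1 ((enc N ts * N ^ m2 + enc N vs) / N ^ m2) = ts ∧
        dgs N m2 ((enc N ts * N ^ m2 + enc N vs) % N ^ m2) = vs := by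
    intro ts vs h1 h2
    have h3 := div_enc (A := ts) h2
    rw [enc_append, h2.1] at h3
    rw [h3.1, h3.2, dgs_enc h1, dgs_enc h2]
    exact ⟨rfl, rfl⟩
  constructor
  · rintro ⟨v, h1, h2⟩
    have hv : ∀ ts, OKt N m1 ts → OKt N m2 (dgs N m2 (v (enc N ts))) ∧
        enc N (dgs N m2 (v (enc N ts))) = v (enc N ts) := fun ts hts =>
      dgs_ok (h1 _ (enc_lt' hts)).1
    refine ⟨fun ts => dgs N m2 (v (enc N ts)), fun ts hts => ⟨(hv ts hts).1, ?_⟩, ?_⟩
    · have := (h1 _ (enc_lt' hts)).2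
      rw [num0] at this
      nth_rw 1 2 [← (hv ts hts).2] at this
      rw [(dec hts (hv ts hts).1).1, (dec hts (hv ts hts).1).2] at this
      exact this
    · intro c hc ts ts' hts hts' hle k1 k2
      have := h2 (c.num N m1 m2) (List.mem_map_of_mem hc) _ _ hle (enc_lt' hts')
        (by change c.con (dgs N m1 (enc N ts)) = true; rw [dgs_enc hts]; exact k1)
        (by change c.con (dgs N m1 (enc N ts')) = true; rw [dgs_enc hts']; exact k2)
      rw [DChn.num] at this
      simp only at this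
      nth_rw 1 2 [← (hv ts hts).2] at this
      nth_rw 1 2 [← (hv ts' hts').2] at this
      rw [(dec hts (hv ts hts).1).1, (dec hts (hv ts hts).1).2, (dec hts' (hv ts' hts').1).1,
        (dec hts' (hv ts' hts').1).2] at this
      exact this
  · rintro ⟨v, h1, h2⟩
    refine ⟨fun p => enc N (v (dgs N m1 p)), fun p hp => ?_, ?_⟩
    · obtain ⟨a1, a2⟩ := dgs_ok hp
      obtain ⟨b1, b2⟩ := h1 _ a1
      refine ⟨enc_lt' b1, ?_⟩
      have := dec a1 b1
      rw [a2] at this
      rw [num0, this.1, this.2]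
      exact b2
    · intro c hc p p' hle hp' k1 k2
      obtain ⟨g, hg, rfl⟩ := List.mem_map.1 hc
      obtain ⟨a1, a2⟩ := dgs_ok (show p < N ^ m1 by omega)
      obtain ⟨a1', a2'⟩ := dgs_ok hp'
      have d := dec a1 (h1 _ a1).1
      have d' := dec a1' (h1 _ a1').1
      rw [a2] at d
      rw [a2'] at d'
      rw [DChn.num]
      simp only [d.1, d.2, d'.1, d'.2]
      exact h2 g hg _ _ a1 a1' (by rw [a2, a2']; exact hle) k1 k2

/-! ### The bits of the strings in terms of digits -/

/-- The bit of a chain. -/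
def DChn.bit (c : DChn) (ts vs us : List ℕ) : Bool := !c.con ts || decide (us = c.F ts vs)

theorem bit_num {m1 m2 : ℕ} {c : DChn} {ts vs us : List ℕ} (h1 : OKt N m1 ts) (h2 : OKt N m2 vs)
    (h3 : OKt N (m1 + m2) us) (hF : c.con ts = true → OKt N (m1 + m2) (c.F ts vs)) :
    (c.num N m1 m2).bit (N ^ m2) (N ^ (m1 + m2)) (enc N ((ts ++ vs) ++ us)) =
      c.bit ts vs us := by
  obtain ⟨e1, e2⟩ := div_enc (A := ts ++ vs) h3
  obtain ⟨e3, e4⟩ := div_enc (A := ts) h2
  rw [Chn.bit, DChn.num, e1, e2]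
  simp only [e3, e4, dgs_enc h1, dgs_enc h2]
  rw [DChn.bit]
  by_cases hc : c.con ts = true
  · rw [hc, Bool.not_true, Bool.false_or, Bool.false_or]
    congr 1
    rw [eq_iff_iff]
    constructor
    · intro h
      exact enc_inj (by rw [h3.1, (hF hc).1]) h3.2 (hF hc).2 h
    · intro h
      rw [h]
  · rw [Bool.not_eq_true] at hc
    rw [hc]
    rfl

theorem base_num {m1 m2 : ℕ} {c0 : List ℕ → List ℕ → Bool} {ts vs us : List ℕ}
    (h1 : OKt N m1 ts) (h2 : OKt N m2 vs) (h3 : OKt N (m1 + m2) us) :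
    base (N ^ (m1 + m2)) (num0 N m1 m2 c0) (enc N ((ts ++ vs) ++ us)) =
      (decide (us = List.replicate (m1 + m2) 0) && c0 ts vs) := by
  obtain ⟨e1, e2⟩ := div_enc (A := ts ++ vs) h3
  obtain ⟨e3, e4⟩ := div_enc (A := ts) h2
  rw [base, num0, e1, e2, e3, e4, dgs_enc h1, dgs_enc h2]
  congr 1
  rw [decide_eq_decide]
  exact enc_zero_iff h3

theorem top_num {m1 m2 : ℕ} {ts vs us : List ℕ}
    (h1 : OKt N m1 ts) (h2 : OKt N m2 vs) (h3 : OKt N (m1 + m2) us) :
    (top (N ^ m2)).bit (N ^ m2) (N ^ (m1 + m2)) (enc N ((ts ++ vs) ++ us)) =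
      decide (us = ts ++ vs.map fun x => N - 1 - x) := by
  obtain ⟨e1, e2⟩ := div_enc (A := ts ++ vs) h3
  obtain ⟨e3, e4⟩ := div_enc (A := ts) h2
  rw [Chn.bit, top, e1, e2]
  simp only [e3, e4, Bool.not_true, Bool.false_or]
  have e5 := enc_rev h2
  have e6 : enc N ts * N ^ m2 + (N ^ m2 - 1 - enc N vs) =
      enc N (ts ++ vs.map fun x => N - 1 - x) := by
    rw [enc_append, List.length_map, h2.1]
    omega
  rw [e6, decide_eq_decide]
  constructor
  · intro h
    exact enc_inj (by simp [h3.1, h1.1, h2.1]) h3.2 (h1.append (ok_map_rev h2)).2 h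
  · intro h
    rw [h]

end Pool.Agent.Lib.MP_58f141_lc
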