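import Pool.Agent.Lib.MP_58f141_lc.Digits

/-! # Programs writing the strings -/

namespace Pool.Agent.Lib.MP_58f141_lc

set_option linter.unusedSimpArgs false
set_option linter.unusedVariables false
set_option linter.unusedSectionVars false

open scoped List
open Function
open Pool.Agent.Lib.PolyTM

/-- Code of a letter. -/
def lc (b : Bool) : List Bool := if b then [true, true, false] else [true, false]

/-- Code of a string. -/
def sc (s : List Bool) : List Bool := s.flatMap lc ++ [false]

section

variable {V W : Type} [DecidableEq V] [DecidableEq W] {N : ℕ} {a : Arr W} {e : V → ℕ}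

theorem Emits.loops (vs : List V) (s : Stmt V W) (e : V → ℕ) (f : ℕ → List Bool)
    (h : ∀ ts, OKt N vs.length ts → Emits N a s (upds e vs ts) (f (enc N ts))) :
    Emits N a (loops vs s) e ((List.range (N ^ vs.length)).flatMap f) := by
  induction vs generalizing e f with
  | nil =>
    have := h [] ⟨rfl, by simp⟩
    simpa [PolyTM.loops, enc, upds] using this
  | cons x vs ih =>
    rw [List.length_cons, pow_succ, Nat.mul_comm, range_mul_flatMap]
    refine Emits.loop fun t ht => ?_
    refine ih (update e x t) (fun k => f (t * N ^ vs.length + k)) fun ts hts => ?_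
    have := h (t :: ts) (hts.cons ht)
    simp only [enc, hts.1] at this
    exact this

theorem upds_lt {vs : List V} {ts : List ℕ} (h : OKt N vs.length ts) (he : ∀ x, e x < N) (x : V) :
    upds e vs ts x < N := by
  induction vs generalizing e ts with
  | nil => exact he x
  | cons y vs ih =>
    cases ts with
    | nil => exact he x
    | cons t ts =>
      refine ih ⟨by simpa using h.1, fun z hz => h.2 z (List.mem_cons_of_mem _ hz)⟩ fun z => ?_
      by_cases hz : z = y
      · subst hz; rw [update_self]; exact h.2 t List.mem_cons_self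
      · rw [update_of_ne hz]; exact he z

theorem wf_loops {ar : W → ℕ} {F : List V} (vs : List V) (s : Stmt V W) (hnd : vs.Nodup)
    (hF : ∀ x ∈ vs, x ∉ F) (h : s.wf ar (vs.reverse ++ F) = true) :
    (loops vs s).wf ar F = true := by
  induction vs generalizing F with
  | nil => exact h
  | cons x vs ih =>
    have hnd' := List.nodup_cons.1 hnd
    simp only [loops, Stmt.wf, Bool.and_eq_true, decide_eq_true_eq]
    refine ⟨hF x List.mem_cons_self, ih hnd'.2 (fun y hy => ?_) ?_⟩
    · simp only [List.mem_cons, not_or]
      exact ⟨fun hxy => hnd'.1 (hxy ▸ hy), hF y (List.mem_cons_of_mem _ hy)⟩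
    · simpa [List.append_assoc] using h

end

variable {L W : Type} [DecidableEq L] [DecidableEq W] {N : ℕ} {a : Arr W} {e : Vr L → ℕ}

/-- Write a fixed word. -/
def em (l : List Bool) : Stmt (Vr L) W := seqs (l.map fun b => .emit (cst b))

theorem emits_em (l : List Bool) : Emits N a (em l : Stmt (Vr L) W) e l := by
  have := Emits.seqs (N := N) (a := a) (e := e) l (s := fun b => .emit (cst b : Fml (Vr L) W))
    (f := fun b => [b]) (fun b _ => by
      have := Emits.emit (N := N) (a := a) (e := e) (cst b : Fml (Vr L) W)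
      rwa [eval_cst] at this)
  rw [em]
  convert this using 1
  induction l with
  | nil => rfl
  | cons b l ih => simp

theorem wf_em {ar : W → ℕ} {F : List (Vr L)} (hF : Scope F) (l : List Bool) :
    (em l : Stmt (Vr L) W).wf ar F = true := by
  refine wf_seqs _ fun s hs => ?_
  obtain ⟨b, _, rfl⟩ := List.mem_map.1 hs
  exact wf_cst hF b

/-- The variable is zero. -/
def zeroV (x : Vr L) : Fml (Vr L) W := .not (.ex (zv 0) (.lt (zv 0) x))

theorem eval_zeroV {x : Vr L} (hx : x ≠ zv 0) (h : e x < N) :
    (zeroV x : Fml (Vr L) W).eval N a e = true ↔ e x = 0 := by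
  rw [zeroV, Fml.eval_not, Fml.eval_ex]
  constructor
  · intro h1
    by_contra h2
    refine h1 ⟨0, by omega, ?_⟩
    rw [Fml.eval_lt, update_self, update_of_ne hx]
    omega
  · rintro h1 ⟨t, ht, h2⟩
    rw [Fml.eval_lt, update_self, update_of_ne hx] at h2
    omega

theorem wf_zeroV {ar : W → ℕ} {F : List (Vr L)} (hF : Scope F) {x : Vr L} (hx : x ∈ F) :
    (zeroV x : Fml (Vr L) W).wf ar F = true := by
  simp only [zeroV, Fml.wf, Bool.and_eq_true, decide_eq_true_eq]
  exact ⟨hF 0, wf_lt (by simp) (by simp [hx]) (zv_ne hF hx)⟩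

/-- Terms for digits. -/
inductive Tm (V : Type)
  | zero
  | v (x : V)
  | r (x : V)

/-- Value of a term. -/
def Tm.val {V : Type} (N : ℕ) (e : V → ℕ) : Tm V → ℕ
  | .zero => 0
  | .v x => e x
  | .r x => N - 1 - e x

/-- Variables of a term. -/
def Tm.vr {V : Type} : Tm V → List V
  | .zero => []
  | .v x => [x]
  | .r x => [x]

variable (rw' : W)

/-- The variable has the value of the term. -/
def eqTm (rw' : W) (u : Vr L) : Tm (Vr L) → Fml (Vr L) W
  | .zero => zeroV u
  | .v x => .eq u x
  | .r x => .arr rw' [u, x]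

/-- The variables have the values of the terms. -/
def eqTms (rw' : W) : List (Vr L) → List (Tm (Vr L)) → Fml (Vr L) W
  | u :: us, t :: ts => .and (eqTm rw' u t) (eqTms rw' us ts)
  | _, _ => tt0

/-- The array of reversals. -/
def RevOK (N : ℕ) (a : Arr W) (rw' : W) : Prop :=
  ∀ x y, x < N → y < N → a rw' [x, y] = decide (x + y + 1 = N)

theorem eval_eqTm {rw' : W} (hr : RevOK N a rw') {u : Vr L} (hu : u ≠ zv 0)
    (he : ∀ x, e x < N) (t : Tm (Vr L)) :
    (eqTm rw' u t : Fml (Vr L) W).eval N a e = true ↔ e u = t.val N e := by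
  cases t with
  | zero => exact eval_zeroV hu (he u)
  | v x => rw [eqTm, Fml.eval_eq]; rfl
  | r x =>
    have h1 := he u
    have h2 := he x
    rw [eqTm, Fml.eval_arr, List.map_cons, List.map_cons, List.map_nil, hr _ _ h1 h2,
      decide_eq_true_eq]
    simp only [Tm.val]
    omega

theorem eval_eqTms {rw' : W} (hr : RevOK N a rw') (he : ∀ x, e x < N) (us : List (Vr L))
    (hu : ∀ u ∈ us, u ≠ zv 0) (ts : List (Tm (Vr L))) (hl : us.length = ts.length) :
    (eqTms rw' us ts : Fml (Vr L) W).eval N a e = true ↔ us.map e = ts.map (Tm.val N e) := by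
  induction us generalizing ts with
  | nil =>
    cases ts with
    | nil => simp [eqTms, eval_tt0]
    | cons t ts => simp at hl
  | cons u us ih =>
    cases ts with
    | nil => simp at hl
    | cons t ts =>
      rw [eqTms, Fml.eval_and, eval_eqTm hr (hu u List.mem_cons_self) he,
        ih (fun v hv => hu v (List.mem_cons_of_mem _ hv)) ts (by simpa using hl)]
      simp only [List.map_cons, List.cons.injEq]

theorem wf_eqTms {rw' : W} {ar : W → ℕ} (har : ar rw' = 2) {F : List (Vr L)} (hF : Scope F)
    (us : List (Vr L)) (hu : ∀ u ∈ us, u ∈ F) (ts : List (Tm (Vr L)))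
    (ht : ∀ t ∈ ts, ∀ x ∈ t.vr, x ∈ F ∧ x ∉ us) :
    (eqTms rw' us ts : Fml (Vr L) W).wf ar F = true := by
  induction us generalizing ts with
  | nil => cases ts <;> exact wf_tt0 hF
  | cons u us ih =>
    cases ts with
    | nil => exact wf_tt0 hF
    | cons t ts =>
      have huF := hu u List.mem_cons_self
      refine wf_and ?_ (ih (fun v hv => hu v (List.mem_cons_of_mem _ hv)) ts fun t' ht' x hx => ?_)
      · have h1 := ht t List.mem_cons_self
        cases t with
        | zero => exact wf_zeroV hF huF
        | v x =>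
          obtain ⟨h2, h3⟩ := h1 x (by simp [Tm.vr])
          exact wf_eq huF h2 fun h => h3 (by simp [h])
        | r x =>
          obtain ⟨h2, h3⟩ := h1 x (by simp [Tm.vr])
          simp [eqTm, Fml.wf, har, huF, h2]
      · obtain ⟨h2, h3⟩ := ht t' (List.mem_cons_of_mem _ ht') x hx
        exact ⟨h2, fun h => h3 (List.mem_cons_of_mem _ h)⟩

/-- All variables are zero. -/
def zeroVs (vs : List (Vr L)) : Fml (Vr L) W := Fml.conj tt0 (vs.map zeroV)

theorem eval_zeroVs (vs : List (Vr L)) (hv : ∀ x ∈ vs, x ≠ zv 0) (he : ∀ x, e x < N) :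
    (zeroVs vs : Fml (Vr L) W).eval N a e = true ↔ ∀ x ∈ vs, e x = 0 := by
  rw [zeroVs, Fml.eval_conj]
  simp only [eval_tt0, and_true, List.mem_map, forall_exists_index, and_imp,
    forall_apply_eq_imp_iff₂]
  exact forall₂_congr fun x hx => eval_zeroV (hv x hx) (he x)

theorem wf_zeroVs {ar : W → ℕ} {F : List (Vr L)} (hF : Scope F) {vs : List (Vr L)}
    (hv : ∀ x ∈ vs, x ∈ F) : (zeroVs vs : Fml (Vr L) W).wf ar F = true := by
  refine wf_conj (wf_tt0 hF) _ fun φ hφ => ?_
  obtain ⟨x, hx, rfl⟩ := List.mem_map.1 hφ
  exact wf_zeroV hF (hv x hx)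

/-! ### The strings -/

/-- One letter or two. -/
def bodyP (φ : Fml (Vr L) W) : Stmt (Vr L) W :=
  .ite (.fml φ) (em (lc true ++ lc false)) (em (lc false))

theorem emits_bodyP (φ : Fml (Vr L) W) :
    Emits N a (bodyP φ) e ((blk (φ.eval N a e)).flatMap lc) := by
  refine Emits.ite ?_
  simp only [Cond.eval]
  split
  · rename_i h
    rw [h]
    exact emits_em _
  · rename_i h
    rw [Bool.not_eq_true] at h
    rw [h]
    exact emits_em _

/-- The main part of a string. -/
def coreP (ds : List (Vr L)) (φ : Fml (Vr L) W) : Stmt (Vr L) W := loops ds (bodyP φ)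

/-- Trailing zeros. -/
def tailP (kd : List (Vr L)) : Stmt (Vr L) W :=
  loops kd (.ite (.fml (zeroVs kd)) .skip (em (lc false)))

/-- A string with trailing zeros. -/
def strP (kd sd : List (Vr L)) (φ : Fml (Vr L) W) : Stmt (Vr L) W :=
  .seq (coreP (kd ++ sd) φ) (.seq (tailP kd) (em [false]))

/-- A string without trailing zeros. -/
def str0P (kd sd : List (Vr L)) (φ : Fml (Vr L) W) : Stmt (Vr L) W :=
  .seq (coreP (kd ++ sd) φ) (em [false])

/-- The string `0^Z (1 0^Z)^L`. -/
def uniP (kd sd od : List (Vr L)) : Stmt (Vr L) W :=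
  .seq (loops (kd ++ sd) (em (lc false)))
    (.seq (loops od (.seq (em (lc true)) (loops (kd ++ sd) (em (lc false))))) (em [false]))

theorem flatMap_const (n : ℕ) (l : List Bool) :
    (List.range n).flatMap (fun _ => l) = (List.replicate n l).flatten := by
  induction n with
  | zero => rfl
  | succ n ih =>
    rw [List.range_succ, List.flatMap_append, ih, List.replicate_succ', List.flatten_append]
    simp

theorem replicate_flatMap_lc (n : ℕ) (b : Bool) :
    (List.replicate n b).flatMap lc = (List.range n).flatMap fun _ => lc b := by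
  rw [flatMap_const]
  induction n with
  | zero => rfl
  | succ n ih => rw [List.replicate_succ, List.flatMap_cons, ih, List.replicate_succ]; rfl

theorem emits_coreP {ds : List (Vr L)} {φ : Fml (Vr L) W} {P : ℕ → Bool}
    (h : ∀ ts, OKt N ds.length ts → φ.eval N a (upds e ds ts) = P (enc N ts)) :
    Emits N a (coreP ds φ) e
      (((List.range (N ^ ds.length)).flatMap fun z => blk (P z)).flatMap lc) := by
  rw [List.flatMap_assoc]
  refine Emits.loops ds _ e (fun z => (blk (P z)).flatMap lc) fun ts hts => ?_
  have := emits_bodyP (N := N) (a := a) (e := upds e ds ts) φ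
  rwa [h ts hts] at this

theorem emits_tailP {kd : List (Vr L)} (hnd : kd.Nodup) (hk : 0 < kd.length)
    (hv : ∀ x ∈ kd, x ≠ zv 0) (he : 0 < N → ∀ x, e x < N) :
    Emits N a (tailP kd) e ((List.replicate (N ^ kd.length - 1) false).flatMap lc) := by
  have h1 := Emits.loops (N := N) (a := a) kd
    (.ite (.fml (zeroVs kd)) .skip (em (lc false)) : Stmt (Vr L) W) e
    (fun z => if z = 0 then [] else lc false) (fun ts hts => by
      have hN : 0 < N := by
        cases ts with
        | nil => have := hts.1; simp at this; omega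
        | cons t ts => have := hts.2 t List.mem_cons_self; omega
      refine Emits.ite ?_
      have hz := eval_zeroVs (N := N) (a := a) (e := upds e kd ts) kd hv
        (upds_lt hts (he hN))
      have hm := upds_map e kd hnd ts hts.1
      have hiff : (∀ x ∈ kd, upds e kd ts x = 0) ↔ enc N ts = 0 := by
        rw [enc_zero_iff hts]
        nth_rw 2 [← hm]
        rw [List.eq_replicate_iff]
        constructor
        · intro h
          refine ⟨by simp, fun b hb => ?_⟩
          obtain ⟨x, hx, rfl⟩ := List.mem_map.1 hb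
          exact h x hx
        · intro h x hx
          exact h.2 _ (List.mem_map_of_mem hx)
      simp only [Cond.eval]
      by_cases h : enc N ts = 0
      · rw [if_pos (hz.2 (hiff.2 h)), if_pos h]
        exact Emits.skip
      · rw [if_neg (fun hc => h (hiff.1 (hz.1 hc))), if_neg h]
        exact emits_em _)
  have h2 : (List.range (N ^ kd.length)).flatMap (fun z => if z = 0 then [] else lc false) =
      (List.replicate (N ^ kd.length - 1) false).flatMap lc := by
    rcases Nat.eq_zero_or_pos (N ^ kd.length) with h | h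
    · rw [h]; rfl
    · obtain ⟨n, hn⟩ : ∃ n, N ^ kd.length = n + 1 := ⟨N ^ kd.length - 1, by omega⟩
      rw [hn, List.range_succ_eq_map, List.flatMap_cons, if_pos rfl, List.nil_append,
        List.flatMap_map, Nat.add_sub_cancel, replicate_flatMap_lc]
      exact List.flatMap_congr fun z _ => by simp
  rw [← h2]
  exact h1

theorem emits_strP {kd sd : List (Vr L)} {φ : Fml (Vr L) W} {P : ℕ → Bool}
    (hnd : kd.Nodup) (hk : 0 < kd.length) (hv : ∀ x ∈ kd, x ≠ zv 0) (he : 0 < N → ∀ x, e x < N)
    {Z : ℕ} (hZ : N ^ (kd ++ sd).length = Z)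
    (h : ∀ ts, OKt N (kd ++ sd).length ts → φ.eval N a (upds e (kd ++ sd) ts) = P (enc N ts)) :
    Emits N a (strP kd sd φ) e (sc (str P Z (N ^ kd.length - 1))) := by
  have h1 := emits_coreP h
  rw [hZ] at h1
  have h2 := (h1.seq ((emits_tailP hnd hk hv he).seq (emits_em (N := N) (a := a) (e := e)
    (L := L) [false])))
  rw [sc, str, List.flatMap_append, List.append_assoc]
  exact h2

theorem emits_str0P {kd sd : List (Vr L)} {φ : Fml (Vr L) W} {P : ℕ → Bool}
    {Z : ℕ} (hZ : N ^ (kd ++ sd).length = Z)
    (h : ∀ ts, OKt N (kd ++ sd).length ts → φ.eval N a (upds e (kd ++ sd) ts) = P (enc N ts)) :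
    Emits N a (str0P kd sd φ) e (sc (str P Z 0)) := by
  have h1 := emits_coreP h
  rw [hZ] at h1
  have h2 := h1.seq (emits_em (N := N) (a := a) (e := e) (L := L) [false])
  rw [sc, str, List.replicate_zero, List.append_nil]
  exact h2

theorem emits_uniP {kd sd od : List (Vr L)} {Z Lz : ℕ} (hZ : N ^ (kd ++ sd).length = Z)
    (hL : N ^ od.length = Lz) : Emits N a (uniP kd sd od) e (sc (uni Lz Z)) := by
  have h1 : ∀ e : Vr L → ℕ, Emits N a (loops (kd ++ sd) (em (lc false)) : Stmt (Vr L) W) e
      ((List.replicate Z false).flatMap lc) := fun e => by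
    rw [replicate_flatMap_lc, ← hZ]
    exact Emits.loops (kd ++ sd) _ e (fun _ => lc false) fun ts _ => emits_em _
  have h2 : Emits N a (loops od (.seq (em (lc true)) (loops (kd ++ sd) (em (lc false)))) :
      Stmt (Vr L) W) e ((List.replicate Lz (true :: List.replicate Z false)).flatten.flatMap lc) := by
    have h3 := Emits.loops (N := N) (a := a) od
      (.seq (em (lc true)) (loops (kd ++ sd) (em (lc false))) : Stmt (Vr L) W) e
      (fun _ => lc true ++ (List.replicate Z false).flatMap lc)
      (fun ts _ => (emits_em (lc true)).seq (h1 _))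
    rw [hL, flatMap_const] at h3
    have ih' : ∀ n, (List.replicate n (true :: List.replicate Z false)).flatten.flatMap lc =
        (List.replicate n (lc true ++ (List.replicate Z false).flatMap lc)).flatten := by
      intro n
      induction n with
      | zero => rfl
      | succ n ih =>
        rw [List.replicate_succ, List.flatten_cons, List.flatMap_append, List.replicate_succ,
          List.flatten_cons, ih]
        rfl
    rw [ih']
    exact h3
  have h3 := (h1 e).seq (h2.seq (emits_em (N := N) (a := a) (e := e) (L := L) [false]))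
  rw [sc, uni, List.flatMap_append, List.append_assoc]
  exact h3

end Pool.Agent.Lib.MP_58f141_lc
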