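import Pool.Agent.Lib.MP_58f141_lc.Gen

/-! # Programs writing a whole instance -/

namespace Pool.Agent.Lib.MP_58f141_lc

set_option linter.unusedSimpArgs false
set_option linter.unusedVariables false
set_option linter.unusedSectionVars false

open scoped List
open Function
open Pool.Agent.Lib.PolyTM

/-- The word of an instance: the target length in unary, then the strings. -/
def lcsw (m : ℕ) (ss : List (List Bool)) : List Bool :=
  List.replicate m true ++ false :: ss.flatMap sc

/-- The variables: digits of the zone, of the value, of the position, and outer digits. -/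
structure Lay (L : Type) where
  tv : List (Vr L)
  vv : List (Vr L)
  sd : List (Vr L)
  od : List (Vr L)

/-- The digits of the cell. -/
def Lay.kd {L : Type} (l : Lay L) : List (Vr L) := l.tv ++ l.vv

/-- The variables are distinct and there are the right numbers of them. -/
structure Lay.OK {L : Type} (l : Lay L) (m1 m2 : ℕ) : Prop where
  nd : (l.kd ++ l.sd).Nodup
  zv : ∀ x ∈ l.kd ++ l.sd, x ≠ zv 0
  t : l.tv.length = m1
  v : l.vv.length = m2
  s : l.sd.length = m1 + m2
  o : l.od.length = m1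
  pos : 0 < m1

variable {L W : Type} [DecidableEq L] [DecidableEq W] {N : ℕ} {a : Arr W} {e : Vr L → ℕ}

/-- A chain given by formulas and terms. -/
structure SChn (L W : Type) where
  con : Fml (Vr L) W
  tms : List (Tm (Vr L))

/-- The formula for the ones. -/
def SChn.fml (rw' : W) (sd : List (Vr L)) (c : SChn L W) : Fml (Vr L) W :=
  .or (.not c.con) (eqTms rw' sd c.tms)

/-- Environments extending `e` by values of the zone and value digits. -/
structure Ag (N : ℕ) (l : Lay L) (e e' : Vr L → ℕ) (ts vs : List ℕ) : Prop where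
  out : ∀ x, x ∉ l.kd ++ l.sd → e' x = e x
  t : l.tv.map e' = ts
  v : l.vv.map e' = vs
  lt : ∀ x, e' x < N

/-- A symbolic chain represents a chain. -/
def Repr' (N m1 m2 : ℕ) (a : Arr W) (l : Lay L) (e : Vr L → ℕ) (c : DChn) (s : SChn L W) : Prop :=
  s.tms.length = m1 + m2 ∧ ∀ e' ts vs, OKt N m1 ts → OKt N m2 vs → Ag N l e e' ts vs →
    s.con.eval N a e' = c.con ts ∧ (c.con ts = true → s.tms.map (Tm.val N e') = c.F ts vs)

section

variable {l : Lay L} {m1 m2 : ℕ} (hl : l.OK m1 m2)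

include hl

theorem Lay.OK.env {ts' : List ℕ} (h : OKt N (l.kd ++ l.sd).length ts')
    (he : 0 < N → ∀ x, e x < N) :
    ∃ ts vs us, ts' = (ts ++ vs) ++ us ∧ OKt N m1 ts ∧ OKt N m2 vs ∧ OKt N (m1 + m2) us ∧
      Ag N l e (upds e (l.kd ++ l.sd) ts') ts vs ∧ l.sd.map (upds e (l.kd ++ l.sd) ts') = us ∧
      0 < N := by
  have hlen : (l.kd ++ l.sd).length = (m1 + m2) + (m1 + m2) := by
    simp only [Lay.kd, List.length_append, hl.t, hl.v, hl.s]
  rw [hlen] at h
  obtain ⟨ks, us, rfl, h1, h2⟩ := h.split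
  obtain ⟨ts, vs, rfl, h3, h4⟩ := h1.split
  have hN : 0 < N := by
    cases ts with
    | nil => exact absurd h3.1 (by have := hl.pos; simp only [List.length_nil]; omega)
    | cons t ts => have := h3.2 t List.mem_cons_self; omega
  have hm := upds_map e (l.kd ++ l.sd) hl.nd ((ts ++ vs) ++ us) (by rw [hlen, h.1])
  rw [List.map_append, Lay.kd, List.map_append] at hm
  have e1 := List.append_inj hm (by simp [h3.1, h4.1, hl.t, hl.v])
  have e2 := List.append_inj e1.1 (by simp [h3.1, hl.t])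
  refine ⟨ts, vs, us, rfl, h3, h4, h2, ⟨fun x hx => upds_notMem _ _ _ hx, e2.1, e2.2, fun x =>
    upds_lt (by rw [hlen]; exact h) (he hN) x⟩, e1.2, hN⟩

theorem Lay.OK.pow : N ^ (l.kd ++ l.sd).length = N ^ m1 * N ^ m2 * N ^ (m1 + m2) := by
  rw [← pow_add, ← pow_add]
  congr 1
  simp only [Lay.kd, List.length_append, hl.t, hl.v, hl.s]

theorem Lay.OK.kdl : l.kd.length = m1 + m2 := by simp [Lay.kd, hl.t, hl.v]

/-- The word of the string of a chain. -/
theorem emits_chain {rw' : W} (hr : RevOK N a rw') (he : 0 < N → ∀ x, e x < N) {c : DChn}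
    {s : SChn L W} (hs : Repr' N m1 m2 a l e c s)
    (hF : ∀ ts vs, OKt N m1 ts → OKt N m2 vs → c.con ts = true → OKt N (m1 + m2) (c.F ts vs)) :
    Emits N a (strP l.kd l.sd (s.fml rw' l.sd)) e
      (sc (str ((c.num N m1 m2).bit (N ^ m2) (N ^ (m1 + m2))) (N ^ m1 * N ^ m2 * N ^ (m1 + m2))
        (N ^ (m1 + m2) - 1))) := by
  rw [← hl.kdl]
  refine emits_strP (List.nodup_append.1 hl.nd).1 (by rw [hl.kdl]; have := hl.pos; omega)
    (fun x hx => hl.zv x (List.mem_append_left _ hx)) he (by rw [hl.pow, hl.kdl]) fun ts' hts' => ?_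
  obtain ⟨ts, vs, us, rfl, h1, h2, h3, h4, h5, hN⟩ := hl.env hts' he
  rw [hl.kdl, bit_num h1 h2 h3 (hF ts vs h1 h2), Bool.eq_iff_iff, SChn.fml, Fml.eval_or,
    Fml.eval_not, eval_eqTms hr h4.lt _ (fun u hu => hl.zv u (List.mem_append_right _ hu)) _
      (by rw [hs.1, hl.s])]
  obtain ⟨k1, k2⟩ := hs.2 _ ts vs h1 h2 h4
  rw [k1, h5, DChn.bit]
  by_cases hc : c.con ts = true
  · rw [k2 hc, hc]
    simp
  · rw [Bool.not_eq_true] at hc
    rw [hc]
    simp

theorem emits_top {rw' : W} (hr : RevOK N a rw') (he : 0 < N → ∀ x, e x < N) :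
    Emits N a (strP l.kd l.sd (eqTms rw' l.sd (l.tv.map .v ++ l.vv.map .r))) e
      (sc (str ((top (N ^ m2)).bit (N ^ m2) (N ^ (m1 + m2))) (N ^ m1 * N ^ m2 * N ^ (m1 + m2))
        (N ^ (m1 + m2) - 1))) := by
  rw [← hl.kdl]
  refine emits_strP (List.nodup_append.1 hl.nd).1 (by rw [hl.kdl]; have := hl.pos; omega)
    (fun x hx => hl.zv x (List.mem_append_left _ hx)) he (by rw [hl.pow, hl.kdl]) fun ts' hts' => ?_
  obtain ⟨ts, vs, us, rfl, h1, h2, h3, h4, h5, hN⟩ := hl.env hts' he
  rw [hl.kdl, top_num h1 h2 h3, Bool.eq_iff_iff, eval_eqTms hr h4.lt _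
    (fun u hu => hl.zv u (List.mem_append_right _ hu)) _
    (by rw [hl.s, List.length_append, List.length_map, List.length_map, hl.t, hl.v]),
    h5, decide_eq_true_eq, List.map_append, List.map_map, List.map_map]
  have e1 : l.tv.map (Tm.val N (upds e (l.kd ++ l.sd) (ts ++ vs ++ us)) ∘ Tm.v) = ts := by
    conv_rhs => rw [← h4.t]
    rfl
  have e2 : l.vv.map (Tm.val N (upds e (l.kd ++ l.sd) (ts ++ vs ++ us)) ∘ Tm.r) =
      vs.map fun x => N - 1 - x := by
    conv_rhs => rw [← h4.v, List.map_map]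
    rfl
  rw [e1, e2]

theorem emits_base {rw' : W} (hr : RevOK N a rw') (he : 0 < N → ∀ x, e x < N)
    {c0 : List ℕ → List ℕ → Bool} {φ : Fml (Vr L) W}
    (hφ : ∀ e' ts vs, OKt N m1 ts → OKt N m2 vs → Ag N l e e' ts vs →
      φ.eval N a e' = c0 ts vs) :
    Emits N a (str0P l.kd l.sd (.and (eqTms rw' l.sd (List.replicate (m1 + m2) .zero)) φ)) e
      (sc (str (base (N ^ (m1 + m2)) (num0 N m1 m2 c0)) (N ^ m1 * N ^ m2 * N ^ (m1 + m2)) 0)) := by
  refine emits_str0P hl.pow fun ts' hts' => ?_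
  obtain ⟨ts, vs, us, rfl, h1, h2, h3, h4, h5, hN⟩ := hl.env hts' he
  rw [base_num h1 h2 h3, Bool.eq_iff_iff, Fml.eval_and, eval_eqTms hr h4.lt _
    (fun u hu => hl.zv u (List.mem_append_right _ hu)) _
    (by rw [hl.s, List.length_replicate]), h5, hφ _ _ _ h1 h2 h4, List.map_replicate]
  simp [Tm.val]

/-- The program writing the instance. -/
def _root_.Pool.Agent.Lib.MP_58f141_lc.genP (l : Lay L) (m : ℕ) (rw' : W) (φ : Fml (Vr L) W)
    (rest : Stmt (Vr L) W) : Stmt (Vr L) W :=
  .seq (loops (l.kd ++ l.sd) (em [true])) (.seq (loops l.tv (em [true])) (.seq (em [false])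
    (.seq (str0P l.kd l.sd (.and (eqTms rw' l.sd (List.replicate m .zero)) φ))
      (.seq (uniP l.kd l.sd l.od)
        (.seq (strP l.kd l.sd (eqTms rw' l.sd (l.tv.map .v ++ l.vv.map .r))) rest)))))

/-- The word of a chain. -/
def _root_.Pool.Agent.Lib.MP_58f141_lc.chw (N m1 m2 : ℕ) (c : DChn) : List Bool :=
  sc (str ((c.num N m1 m2).bit (N ^ m2) (N ^ (m1 + m2))) (N ^ m1 * N ^ m2 * N ^ (m1 + m2))
        (N ^ (m1 + m2) - 1))

theorem emits_genP {rw' : W} (hr : RevOK N a rw') (he : 0 < N → ∀ x, e x < N)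
    {c0 : List ℕ → List ℕ → Bool} {φ : Fml (Vr L) W}
    (hφ : ∀ e' ts vs, OKt N m1 ts → OKt N m2 vs → Ag N l e e' ts vs →
      φ.eval N a e' = c0 ts vs) {cs : List DChn} {rest : Stmt (Vr L) W}
    (hrest : Emits N a rest e (cs.flatMap (chw N m1 m2))) :
    Emits N a (genP l (m1 + m2) rw' φ rest) e
      (lcsw (target N m1 m2) (dstrings N m1 m2 c0 cs)) := by
  have h1 : Emits N a (loops (l.kd ++ l.sd) (em [true]) : Stmt (Vr L) W) e
      (List.replicate (N ^ (m1 + m2) * N ^ (m1 + m2)) true) := by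
    have := Emits.loops (N := N) (a := a) (l.kd ++ l.sd) (em [true] : Stmt (Vr L) W) e
      (fun _ => [true]) fun ts _ => emits_em _
    rw [flatMap_const, hl.pow] at this
    rw [pow_add N m1 m2] at this ⊢
    convert this using 1
    generalize N ^ m1 * N ^ m2 * (N ^ m1 * N ^ m2) = n
    induction n with
    | zero => rfl
    | succ n ih => rw [List.replicate_succ, List.replicate_succ, List.flatten_cons, ← ih]; rfl
  have h2 : Emits N a (loops l.tv (em [true]) : Stmt (Vr L) W) e
      (List.replicate (N ^ m1) true) := by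
    have := Emits.loops (N := N) (a := a) l.tv (em [true] : Stmt (Vr L) W) e
      (fun _ => [true]) fun ts _ => emits_em _
    rw [flatMap_const, hl.t] at this
    convert this using 1
    generalize N ^ m1 = n
    induction n with
    | zero => rfl
    | succ n ih => rw [List.replicate_succ, List.replicate_succ, List.flatten_cons, ← ih]; rfl
  have h3 := h1.seq (h2.seq ((emits_em (N := N) (a := a) (e := e) (L := L) [false]).seq
    ((emits_base hl hr he hφ).seq ((emits_uniP (kd := l.kd) (sd := l.sd) (od := l.od)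
      hl.pow (by rw [hl.o])).seq ((emits_top hl hr he).seq hrest)))))
  have e1 : lcsw (target N m1 m2) (dstrings N m1 m2 c0 cs) =
      List.replicate (N ^ (m1 + m2) * N ^ (m1 + m2)) true ++ (List.replicate (N ^ m1) true ++
      ([false] ++ (sc (str (base (N ^ (m1 + m2)) (num0 N m1 m2 c0))
        (N ^ m1 * N ^ m2 * N ^ (m1 + m2)) 0) ++ (sc (uni (N ^ m1)
          (N ^ m1 * N ^ m2 * N ^ (m1 + m2))) ++ (sc (str ((top (N ^ m2)).bit (N ^ m2)
            (N ^ (m1 + m2))) (N ^ m1 * N ^ m2 * N ^ (m1 + m2)) (N ^ (m1 + m2) - 1)) ++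
              cs.flatMap (chw N m1 m2)))))) := by
    rw [lcsw, target, List.replicate_add, List.append_assoc, dstrings, strings,
      List.flatMap_cons, List.flatMap_cons, List.map_cons, List.flatMap_cons, List.map_map,
      List.flatMap_map]
    rfl
  rw [e1]
  exact h3

omit hl in
/-- Chains indexed by numbers below a bound. -/
def _root_.Pool.Agent.Lib.MP_58f141_lc.idxP (l : Lay L) (rw' : W) (ι : Vr L)
    (g : Fml (Vr L) W) (ss : List (SChn L W)) : Stmt (Vr L) W :=
  .loop ι (.ite (.fml g) (seqs (ss.map fun s => strP l.kd l.sd (s.fml rw' l.sd))) .skip)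

theorem emits_list {rw' : W} (hr : RevOK N a rw') (he : 0 < N → ∀ x, e x < N)
    {cs : List DChn} {ss : List (SChn L W)} (h : List.Forall₂ (Repr' N m1 m2 a l e) cs ss)
    (hF : ∀ c ∈ cs, ∀ ts vs, OKt N m1 ts → OKt N m2 vs → c.con ts = true →
      OKt N (m1 + m2) (c.F ts vs)) :
    Emits N a (seqs (ss.map fun s => strP l.kd l.sd (s.fml rw' l.sd))) e
      (cs.flatMap (chw N m1 m2)) := by
  induction h with
  | nil => exact Emits.skip
  | @cons c s cs ss h1 h2 ih =>
    rw [List.map_cons, PolyTM.seqs, List.flatMap_cons]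
    exact (emits_chain hl hr he h1 (hF c List.mem_cons_self)).seq
      (ih fun c hc => hF c (List.mem_cons_of_mem _ hc))

theorem emits_idxP {rw' : W} (hr : RevOK N a rw') (he : 0 < N → ∀ x, e x < N) {ι : Vr L}
    {g : Fml (Vr L) W} {ss : List (SChn L W)} {K : ℕ} (hK : K ≤ N) {cf : ℕ → List DChn}
    (hg : ∀ i < N, (g.eval N a (update e ι i) = true ↔ i < K))
    (h : ∀ i < K, List.Forall₂ (Repr' N m1 m2 a l (update e ι i)) (cf i) ss)
    (hF : ∀ i < K, ∀ c ∈ cf i, ∀ ts vs, OKt N m1 ts → OKt N m2 vs → c.con ts = true →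
      OKt N (m1 + m2) (c.F ts vs)) :
    Emits N a (idxP l rw' ι g ss) e
      (((List.range K).flatMap cf).flatMap (chw N m1 m2)) := by
  have h1 := Emits.loop (N := N) (a := a) (x := ι) (e := e)
    (s := (.ite (.fml g) (seqs (ss.map fun s => strP l.kd l.sd (s.fml rw' l.sd))) .skip :
      Stmt (Vr L) W))
    (f := fun i => if i < K then (cf i).flatMap (chw N m1 m2) else []) (fun i hi => by
      refine Emits.ite ?_
      simp only [Cond.eval]
      by_cases hiK : i < K
      · rw [if_pos ((hg i hi).2 hiK), if_pos hiK]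
        exact emits_list hl hr (fun hN x => by
          by_cases hx : x = ι
          · subst hx; rw [update_self]; exact hi
          · rw [update_of_ne hx]; exact he hN x) (h i hiK) (hF i hiK)
      · rw [if_neg (fun hc => hiK ((hg i hi).1 hc)), if_neg hiK]
        exact Emits.skip)
  have h2 : (List.range N).flatMap (fun i => if i < K then (cf i).flatMap (chw N m1 m2) else []) =
      ((List.range K).flatMap cf).flatMap (chw N m1 m2) := by
    obtain ⟨d, rfl⟩ : ∃ d, N = K + d := ⟨N - K, by omega⟩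
    rw [List.range_add, List.flatMap_append, List.flatMap_assoc]
    have e1 : (List.range K).flatMap
        (fun i => if i < K then (cf i).flatMap (chw (K + d) m1 m2) else []) =
        (List.range K).flatMap fun i => (cf i).flatMap (chw (K + d) m1 m2) :=
      List.flatMap_congr fun i hi => by rw [if_pos (List.mem_range.1 hi)]
    have e2 : ((List.range d).map fun x => K + x).flatMap
        (fun i => if i < K then (cf i).flatMap (chw (K + d) m1 m2) else []) = [] := by
      rw [List.flatMap_map, List.flatMap_eq_nil_iff]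
      intro x _
      rw [if_neg (by omega)]
    rw [e1, e2, List.append_nil]
  rw [← h2]
  exact h1

end

/-! ### Well-formedness -/

section

variable {ar : W → ℕ} {F : List (Vr L)}

theorem scope_append {vs : List (Vr L)} (hv : ∀ x ∈ vs, ∃ i, x = .inl i) (hF : Scope F) :
    Scope (vs.reverse ++ F) := by
  intro i hi
  rcases List.mem_append.1 hi with h | h
  · obtain ⟨j, hj⟩ := hv _ (List.mem_reverse.1 h)
    simp at hj
  · exact hF i h

theorem wf_bodyP (hF : Scope F) {φ : Fml (Vr L) W} (hφ : φ.wf ar F = true) :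
    (bodyP φ).wf ar F = true := by
  simp only [bodyP, Stmt.wf, Cond.wf, Bool.and_eq_true]
  exact ⟨⟨hφ, wf_em hF _⟩, wf_em hF _⟩

variable {kd sd : List (Vr L)} (hnd : (kd ++ sd).Nodup) (hd : ∀ x ∈ kd ++ sd, x ∉ F)
  (hx : ∀ x ∈ kd ++ sd, ∃ i, x = .inl i) (hF : Scope F)

include hnd hd hx hF

theorem wf_strP {φ : Fml (Vr L) W} (hφ : φ.wf ar ((kd ++ sd).reverse ++ F) = true) :
    (strP kd sd φ).wf ar F = true := by
  simp only [strP, Stmt.wf, Bool.and_eq_true, coreP, tailP]
  refine ⟨wf_loops _ _ hnd hd (wf_bodyP (scope_append hx hF) hφ), wf_loops _ _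
    (List.nodup_append.1 hnd).1 (fun x h => hd x (List.mem_append_left _ h)) ?_, wf_em hF _⟩
  have hsc := scope_append (vs := kd) (fun x h => hx x (List.mem_append_left _ h)) hF
  simp only [Stmt.wf, Cond.wf, Bool.and_eq_true, and_true]
  exact ⟨wf_zeroVs hsc fun x h => by simp [h], wf_em hsc _⟩

theorem wf_str0P {φ : Fml (Vr L) W} (hφ : φ.wf ar ((kd ++ sd).reverse ++ F) = true) :
    (str0P kd sd φ).wf ar F = true := by
  simp only [str0P, Stmt.wf, Bool.and_eq_true, coreP]
  exact ⟨wf_loops _ _ hnd hd (wf_bodyP (scope_append hx hF) hφ), wf_em hF _⟩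

theorem wf_uniP {od : List (Vr L)} (ho : od.Nodup) (hod : ∀ x ∈ od, x ∉ F ∧ x ∉ kd ++ sd)
    (hox : ∀ x ∈ od, ∃ i, x = .inl i) : (uniP kd sd od : Stmt (Vr L) W).wf ar F = true := by
  simp only [uniP, Stmt.wf, Bool.and_eq_true]
  refine ⟨wf_loops _ _ hnd hd (wf_em (scope_append hx hF) _), wf_loops _ _ ho
    (fun x h => (hod x h).1) ?_, wf_em hF _⟩
  have hsc := scope_append hox hF
  simp only [Stmt.wf, Bool.and_eq_true]
  refine ⟨wf_em hsc _, wf_loops _ _ hnd (fun x h => ?_) (wf_em (scope_append hx hsc) _)⟩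
  simp only [List.mem_append, List.mem_reverse, not_or]
  exact ⟨fun h' => (hod x h').2 h, hd x h⟩

end

theorem wf_fml {rw' : W} {ar : W → ℕ} (har : ar rw' = 2) {F : List (Vr L)} (hF : Scope F)
    {sd : List (Vr L)} (hs : ∀ x ∈ sd, x ∈ F) {s : SChn L W} (hc : s.con.wf ar F = true)
    (ht : ∀ t ∈ s.tms, ∀ x ∈ t.vr, x ∈ F ∧ x ∉ sd) : (s.fml rw' sd).wf ar F = true :=
  wf_or (wf_not hc) (wf_eqTms har hF sd hs s.tms ht)

end Pool.Agent.Lib.MP_58f141_lc
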