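import Pool.Agent.Lib.MP_58f141_lc.Core

/-! # Zones, cells and chains: what a long common subsequence encodes -/

namespace Pool.Agent.Lib.MP_58f141_lc

set_option linter.unusedSimpArgs false
set_option linter.unusedVariables false

open scoped List

/-- The string with `Z` zeros, a `1` before the zeros number `z` with `P z`, and `D` further
zeros. -/
def str (P : ℕ → Bool) (Z D : ℕ) : List Bool :=
  (List.range Z).flatMap (fun z => blk (P z)) ++ List.replicate D false

theorem str_eq (P : ℕ → Bool) (Z D : ℕ) :
    str P Z D = seg (fun z => decide (z < Z) && P z) 0 (Z + D) := by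
  have h2 : ∀ D x, Z ≤ x → seg (fun z => decide (z < Z) && P z) x D = List.replicate D false := by
    intro D
    induction D with
    | zero => intro x _; rfl
    | succ D ih =>
      intro x hx
      rw [seg_succ, ih (x + 1) (by omega), List.replicate_succ]
      have : decide (x < Z) = false := by simpa using hx
      rw [this]
      rfl
  rw [str, seg_add, Nat.zero_add, h2 D Z le_rfl]
  congr 1
  rw [seg, ← List.range_eq_range']
  refine List.flatMap_congr fun z hz => ?_
  rw [List.mem_range] at hz
  simp [hz]

/-- A chain: constrained zones and a value for every cell. -/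
structure Chn where
  con : ℕ → Bool
  F : ℕ → ℕ

/-- The positions of ones in the string of a chain. -/
def Chn.bit (V W : ℕ) (c : Chn) (z : ℕ) : Bool :=
  !c.con (z / W / V) || decide (z % W = c.F (z / W))

/-- The positions of ones in the main string. -/
def base (W : ℕ) (C0 : ℕ → Bool) (z : ℕ) : Bool := decide (z % W = 0) && C0 (z / W)

/-- The chain forcing at most one `1` in each zone. -/
def top (V : ℕ) : Chn := ⟨fun _ => true, fun k => k / V * V + (V - 1 - k % V)⟩

/-- The strings. -/
def strings (L V W : ℕ) (C0 : ℕ → Bool) (cs : List Chn) : List (List Bool) :=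
  str (base W C0) (L * V * W) 0 :: uni L (L * V * W) ::
    (top V :: cs).map fun c => str (c.bit V W) (L * V * W) (W - 1)

theorem length_eq_count (u : List Bool) : u.length = u.count false + u.count true := by
  induction u with
  | nil => rfl
  | cons c u ih =>
    cases c
    · rw [List.count_cons_self, List.count_cons_of_ne (by decide), List.length_cons]; omega
    · rw [List.count_cons_self, List.count_cons_of_ne (by decide), List.length_cons]; omega

theorem add_small {W y e : ℕ} (hW : 0 < W) (hy : y % W = 0) (he : e < W) :
    (y + e) / W = y / W ∧ (y + e) % W = e := by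
  obtain ⟨k, rfl⟩ := Nat.dvd_of_mod_eq_zero hy
  rw [Nat.mul_add_div hW, Nat.mul_div_cancel_left _ hW, Nat.div_eq_of_lt he, Nat.mul_add_mod,
    Nat.mod_eq_of_lt he]
  exact ⟨by ring, rfl⟩

section

variable {L V W : ℕ}

theorem bit_fwd (hV : 0 < V) (hW : 0 < W) (c : Chn) {Q : ℕ → Bool}
    (hQ : ∀ y, Q y = true → y % W = 0)
    (h : seg Q 0 (L * V * W) <+ str (c.bit V W) (L * V * W) (W - 1)) :
    ∀ y y', y ≤ y' → y' < L * V * W → Q y = true → Q y' = true → c.con (y / W / V) = true →
      c.con (y' / W / V) = true → c.F (y / W) ≤ c.F (y' / W) := by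
  rw [str_eq] at h
  obtain ⟨e, e1, e2⟩ := crit_fwd (P := fun z => decide (z < L * V * W) && c.bit V W z)
    (Q := Q) (n := L * V * W) (x := 0) (d := 0) (E := W - 1) (by simpa using h)
  have key : ∀ y, y < L * V * W → Q y = true → c.con (y / W / V) = true → e y = c.F (y / W) := by
    intro y hy hq hc
    obtain ⟨-, g2, g3⟩ := e1 y (Nat.zero_le _) (by omega) hq
    simp only [Bool.and_eq_true, decide_eq_true_eq] at g3
    have hlt : e y < W := by omega
    obtain ⟨h1, h2⟩ := add_small hW (hQ y hq) hlt
    have g4 := g3.2
    simp only [Chn.bit, h1, h2, hc, Bool.not_true, Bool.false_or, decide_eq_true_eq] at g4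
    exact g4
  intro y y' h1 h2 h3 h4 h5 h6
  rw [← key y (by omega) h3 h5, ← key y' h2 h4 h6]
  exact e2 y y' (Nat.zero_le _) h1 (by omega) h3 h4

/-- The selected positions. -/
def sel (V W : ℕ) (v : ℕ → ℕ) (z : ℕ) : Bool :=
  decide (z % W = 0 ∧ z / W % V = v (z / W / V))

theorem bit_bwd (hV : 0 < V) (hW : 0 < W) (c : Chn) {v : ℕ → ℕ}
    (hF : ∀ p < L, c.con p = true → c.F (p * V + v p) < W)
    (hm : ∀ p p', p ≤ p' → p' < L → c.con p = true → c.con p' = true →
      c.F (p * V + v p) ≤ c.F (p' * V + v p')) :
    seg (sel V W v) 0 (L * V * W) <+ str (c.bit V W) (L * V * W) (W - 1) := by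
  rw [str_eq]
  set f : ℕ → ℕ := fun p => if c.con p = true then c.F (p * V + v p) else 0 with hf
  have hzone : ∀ y, y < L * V * W → y / W / V < L := fun y hy => by
    rw [Nat.div_div_eq_div_mul, Nat.div_lt_iff_lt_mul (by positivity)]
    calc y < L * V * W := hy
      _ = L * (W * V) := by ring
  have hfl : ∀ p < L, f p < W := fun p hp => by
    simp only [hf]
    split
    · rename_i h; exact hF p hp h
    · exact hW
  have hsup : ∀ p < L, (Finset.range (p + 1)).sup f < W := fun p hp => by
    rw [Finset.sup_lt_iff (by simpa using hW)]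
    intro q hq
    exact hfl q (by rw [Finset.mem_range] at hq; omega)
  have := crit_bwd (P := fun z => decide (z < L * V * W) && c.bit V W z)
    (Q := sel V W v) (n := L * V * W) (x := 0) (d := 0) (E := W - 1)
    (fun y => (Finset.range (y / W / V + 1)).sup f) (fun y _ h2 h3 => ?_)
    (fun y y' _ h2 h3 h4 h5 => ?_)
  · simpa using this
  · rw [Nat.zero_add] at h2
    have hp := hzone y h2
    have h4 := hsup _ hp
    set E := (Finset.range (y / W / V + 1)).sup f with hE
    refine ⟨Nat.zero_le _, by omega, ?_⟩
    simp only [sel, decide_eq_true_eq] at h3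
    have hy' : y = W * (y / W) := by
      have := Nat.div_add_mod y W
      omega
    obtain ⟨k1, k2⟩ := add_small hW h3.1 h4
    have k3 : y + E < L * V * W := by
      have h5 : y / W < L * V := (Nat.div_lt_iff_lt_mul hW).2 h2
      calc y + E < W * (y / W) + W := by omega
        _ = W * (y / W + 1) := by ring
        _ ≤ W * (L * V) := Nat.mul_le_mul_left _ h5
        _ = L * V * W := by ring
    simp only [Bool.and_eq_true, decide_eq_true_eq, k3, true_and, Chn.bit, k1, k2,
      Bool.or_eq_true, Bool.not_eq_true']
    by_cases hc : c.con (y / W / V) = true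
    · right
      have hcell : y / W = y / W / V * V + v (y / W / V) := by
        rw [← h3.2, Nat.mul_comm]
        exact (Nat.div_add_mod (y / W) V).symm
      have h6 : E = c.F (y / W / V * V + v (y / W / V)) := by
        apply le_antisymm
        · rw [hE]
          refine Finset.sup_le fun q hq => ?_
          simp only [hf]
          split
          · rename_i hq'
            exact hm q _ (by rw [Finset.mem_range] at hq; omega) hp hq' hc
          · exact Nat.zero_le _
        · have h7 : f (y / W / V) ≤ E := Finset.le_sup (f := f) (by simp)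
          simp only [hf, hc, if_true] at h7
          exact h7
      rw [h6, ← hcell]
    · left
      simpa using hc
  · refine Finset.sup_mono fun q hq => ?_
    rw [Finset.mem_range] at hq ⊢
    have := Nat.div_le_div_right (c := V) (Nat.div_le_div_right (c := W) h2)
    omega

theorem sel_card (hV : 0 < V) (hW : 0 < W) {v : ℕ → ℕ} (hv : ∀ p < L, v p < V) :
    ((Finset.Ico 0 (0 + L * V * W)).filter fun z => sel V W v z = true).card = L := by
  have : ((Finset.Ico 0 (0 + L * V * W)).filter fun z => sel V W v z = true) =
      (Finset.range L).image fun p => (p * V + v p) * W := by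
    ext z
    simp only [Finset.mem_filter, Finset.mem_Ico, Finset.mem_image, Finset.mem_range, sel,
      decide_eq_true_eq, Nat.zero_le, true_and, Nat.zero_add]
    constructor
    · rintro ⟨h1, h2, h3⟩
      refine ⟨z / W / V, ?_, ?_⟩
      · rw [Nat.div_div_eq_div_mul, Nat.div_lt_iff_lt_mul (by positivity)]
        calc z < L * V * W := h1
          _ = L * (W * V) := by ring
      · rw [← h3]
        have e1 := Nat.div_add_mod (z / W) V
        have e2 := Nat.div_add_mod z W
        rw [Nat.mul_comm (z / W / V) V, e1, Nat.mul_comm]
        omega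
    · rintro ⟨p, hp, rfl⟩
      have hvp := hv p hp
      rw [Nat.mul_mod_left, Nat.mul_div_cancel _ hW, Nat.mul_comm p V, Nat.mul_add_mod,
        Nat.mul_add_div hV, Nat.mod_eq_of_lt hvp, Nat.div_eq_of_lt hvp, Nat.add_zero]
      refine ⟨?_, rfl, rfl⟩
      have h1 : V * p + v p < L * V := by
        calc V * p + v p < V * p + V := by omega
          _ = V * (p + 1) := by ring
          _ ≤ V * L := Nat.mul_le_mul_left _ hp
          _ = L * V := by ring
      exact Nat.mul_lt_mul_of_pos_right h1 hW
  rw [this, Finset.card_image_of_injOn, Finset.card_range]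
  intro p hp q hq h
  simp only [Finset.coe_range, Set.mem_Iio] at hp hq
  have h1 : p * V + v p = q * V + v q := Nat.eq_of_mul_eq_mul_right hW h
  have h2 := congrArg (· / V) h1
  simp only [Nat.mul_comm _ V] at h2
  rwa [Nat.mul_add_div hV, Nat.mul_add_div hV, Nat.div_eq_of_lt (hv p hp),
    Nat.div_eq_of_lt (hv q hq)] at h2

/-- **What the strings encode.** -/
theorem core (hV : 0 < L → 0 < V) (hW : W = L * V) (C0 : ℕ → Bool) (cs : List Chn)
    (hF : ∀ c ∈ cs, ∀ k < L * V, c.con (k / V) = true → c.F k < W) :
    (∃ u : List Bool, (∀ s ∈ strings L V W C0 cs, u <+ s) ∧ L * V * W + L ≤ u.length) ↔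
      ∃ v : ℕ → ℕ, (∀ p < L, v p < V ∧ C0 (p * V + v p) = true) ∧
        ∀ c ∈ cs, ∀ p p', p ≤ p' → p' < L → c.con p = true → c.con p' = true →
          c.F (p * V + v p) ≤ c.F (p' * V + v p') := by
  rcases Nat.eq_zero_or_pos L with rfl | hL
  · constructor
    · intro _
      exact ⟨fun _ => 0, fun p hp => by omega, fun c _ p p' _ hp => by omega⟩
    · intro _
      exact ⟨[], fun s _ => List.nil_sublist _, by simp⟩
  have hV := hV hL
  have hWp : 0 < W := by rw [hW]; positivity
  constructor
  · rintro ⟨u, hu, hlen⟩
    have u0 : u <+ str (base W C0) (L * V * W) 0 := hu _ (by simp [strings])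
    have u1 : u <+ uni L (L * V * W) := hu _ (by simp [strings])
    rw [str_eq] at u0
    have c0 := u0.count_le false
    have c1 := u1.count_le true
    rw [count0_seg] at c0
    rw [count1_uni] at c1
    have hl := length_eq_count u
    obtain ⟨Q, q1, q2⟩ := shape u0 (by omega)
    have hQ : ∀ y, Q y = true → y % W = 0 ∧ C0 (y / W) = true ∧ y < L * V * W := by
      intro y hy
      obtain ⟨g1, -, g2⟩ := q1 y hy
      simp only [base, Bool.and_eq_true, decide_eq_true_eq] at g1
      exact ⟨g1.2.1, g1.2.2, by omega⟩
    rw [Nat.add_zero] at q2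
    have hcard : ((Finset.Ico 0 (0 + L * V * W)).filter fun z => Q z = true).card = L := by
      rw [← count1_seg, ← q2]; omega
    have hch : ∀ c ∈ top V :: cs, ∀ y y', y ≤ y' → y' < L * V * W → Q y = true → Q y' = true →
        c.con (y / W / V) = true → c.con (y' / W / V) = true → c.F (y / W) ≤ c.F (y' / W) := by
      intro c hc
      refine bit_fwd hV hWp c (fun y hy => (hQ y hy).1) ?_
      rw [← q2]
      refine hu _ ?_
      simp only [strings, List.mem_cons, List.mem_map]
      exact Or.inr (Or.inr ⟨c, List.mem_cons.1 hc |>.elim (fun h => by simp [h]) (fun h => by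
        simp [h]), rfl⟩)
    have htop := hch (top V) (by simp)
    have hinj : ∀ y y', y < y' → Q y = true → Q y' = true → y / W / V ≠ y' / W / V := by
      intro y y' h1 h2 h3 h4
      have := htop y y' h1.le (hQ y' h3).2.2 h2 h3 rfl rfl
      simp only [top, h4] at this
      have m1 := Nat.mod_lt (y / W) hV
      have m2 := Nat.mod_lt (y' / W) hV
      have d1 := Nat.div_add_mod (y / W) V
      have d2 := Nat.div_add_mod (y' / W) V
      have d3 := Nat.div_add_mod y W
      have d4 := Nat.div_add_mod y' W
      rw [(hQ y h2).1] at d3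
      rw [(hQ y' h3).1] at d4
      have hlt : y / W < y' / W := by
        by_contra hc
        have := Nat.mul_le_mul_left W (Nat.le_of_not_lt hc)
        omega
      rw [h4] at d1
      omega
    have hsurj : ∀ p < L, ∃ y, Q y = true ∧ y / W / V = p := by
      have himg : ((Finset.Ico 0 (0 + L * V * W)).filter fun z => Q z = true).image
          (fun y => y / W / V) = Finset.range L := by
        apply Finset.eq_of_subset_of_card_le
        · intro p hp
          simp only [Finset.mem_image, Finset.mem_filter, Finset.mem_Ico] at hp
          obtain ⟨y, ⟨⟨-, hy⟩, -⟩, rfl⟩ := hp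
          rw [Finset.mem_range, Nat.div_div_eq_div_mul, Nat.div_lt_iff_lt_mul (by positivity)]
          calc y < 0 + L * V * W := hy
            _ = L * (W * V) := by ring
        · rw [Finset.card_range, Finset.card_image_of_injOn, hcard]
          intro y hy y' hy' h
          simp only [Finset.coe_filter, Finset.mem_Ico, Set.mem_ofPred_eq] at hy hy'
          rcases Nat.lt_trichotomy y y' with h1 | h1 | h1
          · exact absurd h (hinj y y' h1 hy.2 hy'.2)
          · exact h1
          · exact absurd h.symm (hinj y' y h1 hy'.2 hy.2)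
      intro p hp
      have : p ∈ Finset.range L := Finset.mem_range.2 hp
      rw [← himg, Finset.mem_image] at this
      obtain ⟨y, hy, hyp⟩ := this
      exact ⟨y, (Finset.mem_filter.1 hy).2, hyp⟩
    have hsurj' : ∀ p, ∃ y, p < L → Q y = true ∧ y / W / V = p := fun p => by
      by_cases hp : p < L
      · obtain ⟨y, hy⟩ := hsurj p hp
        exact ⟨y, fun _ => hy⟩
      · exact ⟨0, fun h => absurd h hp⟩
    choose g hg using hsurj'
    have hcell : ∀ p < L, p * V + g p / W % V = g p / W := fun p hp => by
      obtain ⟨-, h2⟩ := hg p hp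
      have := Nat.div_add_mod (g p / W) V
      rw [h2] at this
      rw [Nat.mul_comm]
      exact this
    refine ⟨fun p => g p / W % V, fun p hp => ⟨Nat.mod_lt _ hV, ?_⟩, fun c hc p p' h1 h2 h3 h4 => ?_⟩
    · change C0 (p * V + g p / W % V) = true
      rw [hcell p hp]
      exact (hQ _ (hg p hp).1).2.1
    · change c.F (p * V + g p / W % V) ≤ c.F (p' * V + g p' / W % V)
      rw [hcell p (by omega), hcell p' h2]
      obtain ⟨a1, a2⟩ := hg p (by omega)
      obtain ⟨b1, b2⟩ := hg p' h2
      have hle : g p ≤ g p' := by
        rcases Nat.lt_or_ge p p' with h | h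
        · by_contra hcon
          have := Nat.div_le_div_right (c := V) (Nat.div_le_div_right (c := W)
            (Nat.le_of_lt (Nat.lt_of_not_le hcon)))
          omega
        · have : p = p' := by omega
          rw [this]
      exact hch c (by simp [hc]) _ _ hle (hQ _ b1).2.2 a1 b1 (by rw [a2]; exact h3)
        (by rw [b2]; exact h4)
  · rintro ⟨v, hv, hcs⟩
    have hvV : ∀ p < L, v p < V := fun p hp => (hv p hp).1
    refine ⟨seg (sel V W v) 0 (L * V * W), fun s hs => ?_, ?_⟩
    · simp only [strings, List.mem_cons, List.mem_map] at hs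
      rcases hs with rfl | rfl | ⟨c, hc, rfl⟩
      · rw [str_eq]
        have := crit_bwd (P := fun z => decide (z < L * V * W) && base W C0 z)
          (Q := sel V W v) (n := L * V * W) (x := 0) (d := 0) (E := 0) (fun _ => 0)
          (fun y _ h2 h3 => ?_) (fun _ _ _ _ _ _ _ => le_rfl)
        · simpa using this
        · simp only [sel, decide_eq_true_eq] at h3
          rw [Nat.zero_add] at h2
          refine ⟨le_rfl, le_rfl, ?_⟩
          simp only [Nat.add_zero, Bool.and_eq_true, decide_eq_true_eq, base, h2, true_and, h3.1]
          have hp : y / W / V < L := by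
            rw [Nat.div_div_eq_div_mul, Nat.div_lt_iff_lt_mul (by positivity)]
            calc y < L * V * W := h2
              _ = L * (W * V) := by ring
          have := (hv _ hp).2
          rwa [← h3.2, Nat.mul_comm, Nat.div_add_mod] at this
      · refine sub_uni ?_ le_rfl ?_
        · rw [count0_seg]
        · rw [count1_seg, sel_card hV hWp hvV]
      · rcases hc with rfl | hc
        · refine bit_bwd hV hWp _ (fun p hp _ => ?_) (fun p p' h1 h2 _ _ => ?_)
          · simp only [top]
            have m := hvV p hp
            rw [Nat.mul_comm p V, Nat.mul_add_div hV, Nat.div_eq_of_lt m, Nat.mul_add_mod,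
              Nat.mod_eq_of_lt m, hW]
            calc (p + 0) * V + (V - 1 - v p) < p * V + V := by
                  rw [Nat.add_zero]; omega
              _ = (p + 1) * V := by ring
              _ ≤ L * V := Nat.mul_le_mul_right _ hp
          · simp only [top]
            have m := hvV p (by omega)
            have m' := hvV p' h2
            rw [Nat.mul_comm p V, Nat.mul_add_div hV, Nat.div_eq_of_lt m, Nat.mul_add_mod,
              Nat.mod_eq_of_lt m, Nat.mul_comm p' V, Nat.mul_add_div hV, Nat.div_eq_of_lt m',
              Nat.mul_add_mod, Nat.mod_eq_of_lt m']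
            rcases Nat.eq_or_lt_of_le h1 with rfl | h
            · exact le_rfl
            · calc (p + 0) * V + (V - 1 - v p) ≤ p * V + V := by
                    rw [Nat.add_zero]; omega
                _ = (p + 1) * V := by ring
                _ ≤ p' * V := Nat.mul_le_mul_right _ h
                _ ≤ (p' + 0) * V + (V - 1 - v p') := by rw [Nat.add_zero]; omega
        · refine bit_bwd hV hWp _ (fun p hp hcon => ?_) (hcs c hc)
          have m := hvV p hp
          refine hF c hc _ ?_ ?_
          · calc p * V + v p < p * V + V := by omega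
              _ = (p + 1) * V := by ring
              _ ≤ L * V := Nat.mul_le_mul_right _ hp
          · rw [Nat.mul_comm p V, Nat.mul_add_div hV, Nat.div_eq_of_lt m, Nat.add_zero]
            exact hcon
    · rw [length_eq_count, count0_seg, count1_seg, sel_card hV hWp hvV]

end

end Pool.Agent.Lib.MP_58f141_lc
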